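import Mathlib

/-!
# Points of degree `r` of the projective line: definitions and statements (project DR)

`K` is a number field, `n = [K : ℚ]`, `r ≥ 1`. A point of degree `r` over `K` is given by a vector
`c = (c_0, …, c_r)` of algebraic integers, the coefficients of a polynomial `P = ∑ c_i X ^ i`.
For a number field `L ⊇ K`, `θ ∈ 𝓞 L`, `a ∈ ℕ` and `α = θ / a` let `ev a θ c = a ^ r * P(α)`.
-/

set_option autoImplicit false

namespace Pool.Agent.N753.DR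

open NumberField IsDedekindDomain Module Polynomial

/-- the logarithm of the norm of a prime -/
noncomputable def lN {K : Type} [Field K] [NumberField K] (v : HeightOneSpectrum (𝓞 K)) : ℝ :=
  Real.log (Ideal.absNorm v.asIdeal : ℝ)

/-- the largest coordinate (absolute value) in the integral basis -/
noncomputable def sz {K : Type} [Field K] [NumberField K] (z : 𝓞 K) : ℕ :=
  Finset.univ.sup fun i => ((RingOfIntegers.basis K).repr z i).natAbs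

/-- the box -/
def Bx (K : Type) [Field K] [NumberField K] (m B : ℕ) : Set (Fin m → 𝓞 K) :=
  {c | ∀ j, sz (c j) ≤ B}

section

variable (K : Type) [Field K] [NumberField K] {L : Type} [Field L] [NumberField L] [Algebra K L]

/-- `d ↦ ∑_{i < s} d_i a ^ (r - i) θ ^ i` -/
noncomputable def evS (a : ℕ) (θ : 𝓞 L) (r s : ℕ) : (Fin s → 𝓞 K) →+ 𝓞 L where
  toFun d := ∑ i : Fin s,
    algebraMap (𝓞 K) (𝓞 L) (d i) * ((a : 𝓞 L) ^ (r - (i : ℕ)) * θ ^ (i : ℕ))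
  map_zero' := by simp
  map_add' d d' := by
    rw [← Finset.sum_add_distrib]
    exact Finset.sum_congr rfl fun i _ => by rw [Pi.add_apply, map_add, add_mul]

variable {K}

/-- `a ^ r * P(θ / a)` -/
noncomputable def ev (a : ℕ) (θ : 𝓞 L) {r : ℕ} (c : Fin (r + 1) → 𝓞 K) : 𝓞 L :=
  evS K a θ r (r + 1) c

/-- the ideals which describe a double zero above `v`: squares of primes, products of two different
primes, primes of residue degree at least two -/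
def IsTyp (v : HeightOneSpectrum (𝓞 K)) (b : Ideal (𝓞 L)) : Prop :=
  ∃ w : HeightOneSpectrum (𝓞 L), w.asIdeal.LiesOver v.asIdeal ∧
    (b = w.asIdeal ^ 2 ∨
      (∃ w' : HeightOneSpectrum (𝓞 L), w'.asIdeal.LiesOver v.asIdeal ∧ w' ≠ w ∧
        b = w.asIdeal * w'.asIdeal) ∨
      (b = w.asIdeal ∧ Ideal.absNorm v.asIdeal < Ideal.absNorm w.asIdeal))

/-- `c` has a double zero above `v` -/
def NS (a : ℕ) (θ : 𝓞 L) {r : ℕ} (c : Fin (r + 1) → 𝓞 K) (v : HeightOneSpectrum (𝓞 K)) : Prop :=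
  ∃ b : Ideal (𝓞 L), IsTyp v b ∧ ev a θ c ∈ b

end

/-- **DR/LAT** points of cosets of many lattices of large index -/
def StmLat : Prop := ∀ N : ℕ, 1 ≤ N → ∃ C : ℝ, 0 < C ∧ ∀ (ι : Type) (I : Finset ι)
  (Λ : ι → AddSubgroup (Fin N → ℤ)) (x : ι → Fin N → ℤ) (B P D : ℕ), 1 ≤ B → 1 ≤ P → 1 ≤ D →
  I.card ≤ D * P → (∀ i ∈ I, (Λ i).index ≠ 0 ∧ P ^ 2 ≤ (Λ i).index) →
  (∀ c : Fin N → ℤ, c ≠ 0 → (∀ j, |c j| ≤ 2 * B) → {i | i ∈ I ∧ c ∈ Λ i}.ncard ≤ D) →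
  ∑ i ∈ I, ({c : Fin N → ℤ | (∀ j, |c j| ≤ B) ∧ c - x i ∈ Λ i}.ncard : ℝ) ≤
    C * D * (P + (B : ℝ) ^ ((N : ℝ) - 1) * (P : ℝ) ^ (1 / (N : ℝ)) +
      (B : ℝ) ^ (N : ℝ) * (P : ℝ) ^ (-(1 / (N : ℝ))))

/-- **DR/TYP** the types at a good prime -/
def StmTyp : Prop := ∀ (K L : Type) [Field K] [NumberField K] [Field L] [NumberField L]
  [Algebra K L] (θ : 𝓞 L) (a r : ℕ), IntermediateField.adjoin K {(θ : L)} = ⊤ → a ≠ 0 → 1 ≤ r →
  ∃ Bad : Finset (HeightOneSpectrum (𝓞 K)), ∀ v ∉ Bad,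
    (a : 𝓞 K) ∉ v.asIdeal ∧
    -- `w / v` is unramified
    (∀ w : HeightOneSpectrum (𝓞 L), w.asIdeal.LiesOver v.asIdeal → ∀ (e : ℕ) (c : 𝓞 K),
      algebraMap (𝓞 K) (𝓞 L) c ∈ w.asIdeal ^ e → c ∈ v.asIdeal ^ e) ∧
    -- `v / p` is unramified
    (∀ p : ℕ, p.Prime → (p : 𝓞 K) ∈ v.asIdeal → ∀ (e : ℕ) (m : ℤ),
      (m : 𝓞 K) ∈ v.asIdeal ^ e → (p : ℤ) ^ e ∣ m) ∧
    -- `1, θ` are independent modulo the types which are not squares
    (∀ w : HeightOneSpectrum (𝓞 L), w.asIdeal.LiesOver v.asIdeal → ∀ c0 c1 : 𝓞 K,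
      algebraMap (𝓞 K) (𝓞 L) c0 + algebraMap (𝓞 K) (𝓞 L) c1 * θ ∈ w.asIdeal →
      (Ideal.absNorm v.asIdeal < Ideal.absNorm w.asIdeal ∨
        ∃ w' : HeightOneSpectrum (𝓞 L), w'.asIdeal.LiesOver v.asIdeal ∧ w' ≠ w ∧
          algebraMap (𝓞 K) (𝓞 L) c0 + algebraMap (𝓞 K) (𝓞 L) c1 * θ ∈ w'.asIdeal) →
      c0 ∈ v.asIdeal ∧ c1 ∈ v.asIdeal) ∧
    -- the lattices have large index
    (∀ b : Ideal (𝓞 L), IsTyp v b → ∀ s : ℕ, (2 ≤ s ∨ finrank K L = 1) → 1 ≤ s → s ≤ r + 1 →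
      ((Submodule.toAddSubgroup b).comap (evS K a θ r s)).index ≠ 0 ∧
        Ideal.absNorm v.asIdeal ^ 2 ≤ ((Submodule.toAddSubgroup b).comap (evS K a θ r s)).index) ∧
    -- the norms of the types, their number
    (∀ b : Ideal (𝓞 L), IsTyp v b → b ≠ ⊥ ∧ Ideal.absNorm v.asIdeal ^ 2 ≤ Ideal.absNorm b) ∧
    {b : Ideal (𝓞 L) | IsTyp v b}.Finite ∧
      {b : Ideal (𝓞 L) | IsTyp v b}.ncard ≤ 2 * finrank K L ^ 2

/-- **DR/LARGE** double zeros above a large prime are rare -/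
def StmLarge : Prop := ∀ (K L : Type) [Field K] [NumberField K] [Field L] [NumberField L]
  [Algebra K L] (θ : 𝓞 L) (a r s : ℕ), IntermediateField.adjoin K {(θ : L)} = ⊤ → a ≠ 0 → 1 ≤ r →
  1 ≤ s → (2 ≤ s ∨ finrank K L = 1) → s ≤ r + 1 → s ≤ finrank K L →
  ∃ Bad : Finset (HeightOneSpectrum (𝓞 K)), ∀ δ : ℝ, 0 < δ → ∃ ν C : ℝ, 0 < ν ∧ ∀ B : ℕ, 1 ≤ B →
    ({c ∈ Bx K (r + 1) B | ∃ v ∉ Bad, (B : ℝ) ^ δ ≤ Ideal.absNorm v.asIdeal ∧
      (Ideal.absNorm v.asIdeal : ℝ) ≤ (B : ℝ) ^ ((finrank ℚ K : ℝ) * s - δ) ∧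
      NS a θ c v}.ncard : ℝ) ≤ C * (B : ℝ) ^ ((finrank ℚ K : ℝ) * (r + 1) - ν)

/-- **DR/SMALL** the part of small primes with double zeros is rarely large -/
def StmSmall : Prop := ∀ (K L : Type) [Field K] [NumberField K] [Field L] [NumberField L]
  [Algebra K L] (θ : 𝓞 L) (a r : ℕ), IntermediateField.adjoin K {(θ : L)} = ⊤ → a ≠ 0 → 1 ≤ r →
  ∃ Bad : Finset (HeightOneSpectrum (𝓞 K)), ∀ κ : ℝ, 0 < κ → ∃ δ ν C : ℝ, 0 < δ ∧ 0 < ν ∧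
    ∀ B : ℕ, 1 ≤ B →
    ({c ∈ Bx K (r + 1) B | ∃ W : Finset (HeightOneSpectrum (𝓞 L)),
      (∀ w ∈ W, ∃ v ∉ Bad, w.asIdeal.LiesOver v.asIdeal ∧
        (Ideal.absNorm v.asIdeal : ℝ) ≤ (B : ℝ) ^ δ ∧ NS a θ c v) ∧
      ∃ e : HeightOneSpectrum (𝓞 L) → ℕ, (∀ w ∈ W, ev a θ c ∈ w.asIdeal ^ e w) ∧
        κ * Real.log B ≤ ∑ w ∈ W, e w * lN w}.ncard : ℝ) ≤
      C * (B : ℝ) ^ ((finrank ℚ K : ℝ) * (r + 1) - ν)

/-- **DR/PLACES** the values are rarely small at a given place -/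
def StmPlaces : Prop := ∀ (K L : Type) [Field K] [NumberField K] [Field L] [NumberField L]
  [Algebra K L] (θ : 𝓞 L) (a r : ℕ), a ≠ 0 → 1 ≤ r → ∀ κ : ℝ, 0 < κ →
  (∀ σ : L →+* ℂ, ∃ ν C : ℝ, 0 < ν ∧ ∀ B : ℕ, 1 ≤ B →
    ({c ∈ Bx K (r + 1) B | ‖σ (ev a θ c : L)‖ ≤ (B : ℝ) ^ (1 - κ)}.ncard : ℝ) ≤
      C * (B : ℝ) ^ ((finrank ℚ K : ℝ) * (r + 1) - ν)) ∧
  (∀ w : HeightOneSpectrum (𝓞 L), ∃ ν C : ℝ, 0 < ν ∧ ∀ B : ℕ, 1 ≤ B →
    ({c ∈ Bx K (r + 1) B | ∃ e : ℕ, ev a θ c ∈ w.asIdeal ^ e ∧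
      κ * Real.log B ≤ e * lN w ∧ 1 ≤ e}.ncard : ℝ) ≤
      C * (B : ℝ) ^ ((finrank ℚ K : ℝ) * (r + 1) - ν))

/-- **DR/CORE** the radical of the value is almost always large -/
def StmCore : Prop := ∀ (K L : Type) [Field K] [NumberField K] [Field L] [NumberField L]
  [Algebra K L] (θ : 𝓞 L) (a r : ℕ), IntermediateField.adjoin K {(θ : L)} = ⊤ → a ≠ 0 → 1 ≤ r →
  finrank K L ≤ 2 * r + 1 →
  ∃ Bad0 : Finset (HeightOneSpectrum (𝓞 K)), ∀ Bad : Finset (HeightOneSpectrum (𝓞 K)),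
    Bad0 ⊆ Bad → ∀ κ : ℝ, 0 < κ → ∃ ν C : ℝ, 0 < ν ∧ ∀ B : ℕ, 1 ≤ B →
    ({c ∈ Bx K (r + 1) B | ∃ W : Finset (HeightOneSpectrum (𝓞 K)),
      (∀ v ∉ Bad, ∀ w : HeightOneSpectrum (𝓞 L), w.asIdeal.LiesOver v.asIdeal →
        ev a θ c ∈ w.asIdeal → v ∈ W) ∧
      ∑ v ∈ W, lN v ≤ (finrank K L - κ) * ((finrank ℚ K : ℝ) * Real.log B)}.ncard : ℝ) ≤
      C * (B : ℝ) ^ ((finrank ℚ K : ℝ) * (r + 1) - ν)

/-- **DR/RED** a primitive integral polynomial with small coefficients -/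
def StmRed : Prop := ∀ (K : Type) [Field K] [NumberField K] (r : ℕ), 1 ≤ r →
  ∃ (Bad : Finset (HeightOneSpectrum (𝓞 K))) (C : ℝ), 0 < C ∧
    ∀ (M : Type) [Field M] [NumberField M] [Algebra K M] (x : M), finrank K M = r →
      (minpoly K x).natDegree = r → ∃ (c : Fin (r + 1) → 𝓞 K) (l : K), l ≠ 0 ∧
        (∀ i, (c i : K) = l * (minpoly K x).coeff i) ∧ (∀ v ∉ Bad, ∃ i, c i ∉ v.asIdeal) ∧
        ∀ i, (sz (c i) : ℝ) ≤ C * Real.exp (Height.logHeight₁ x / finrank ℚ K)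

/-- **DR/LINK** a common zero modulo a prime of `L` gives one modulo a prime of `M = K(x)` -/
def StmLink : Prop := ∀ (K L : Type) [Field K] [NumberField K] [Field L] [NumberField L]
  [Algebra K L] (θ : 𝓞 L) (a r : ℕ), a ≠ 0 → 1 ≤ r →
  ∃ Bad : Finset (HeightOneSpectrum (𝓞 K)), ∀ (M : Type) [Field M] [NumberField M] [Algebra K M]
    (x : M) (c : Fin (r + 1) → 𝓞 K) (l : K), finrank K M = r → (minpoly K x).natDegree = r →
    l ≠ 0 → (∀ i, (c i : K) = l * (minpoly K x).coeff i) → ∀ v ∉ Bad, (∃ i, c i ∉ v.asIdeal) →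
    ∀ w : HeightOneSpectrum (𝓞 L), w.asIdeal.LiesOver v.asIdeal → ev a θ c ∈ w.asIdeal →
    ∃ u : HeightOneSpectrum (𝓞 M), u.asIdeal.LiesOver v.asIdeal ∧ u.valuation M x ≤ 1 ∧
      u.valuation M (aeval x (minpoly K ((θ : L) / a))) < 1

section

variable {K : Type} [Field K] [NumberField K]

/-- `p` is the minimal polynomial of a number of degree `r` and of height at most `U` (Mathlib's
height of `x ∈ M`, which is not normalised) -/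
def AtH (r : ℕ) (U : ℝ) (p : K[X]) : Prop :=
  ∃ (M : Type) (_ : Field M) (_ : NumberField M) (_ : Algebra K M) (x : M),
    finrank K M = r ∧ (minpoly K x).natDegree = r ∧ minpoly K x = p ∧ Height.logHeight₁ x ≤ U

/-- `x` meets a zero of `F` at the prime `w` -/
def Near {M : Type} [Field M] [NumberField M] [Algebra K M] (S : Finset ℕ) (F : K[X]) (x : M)
    (w : HeightOneSpectrum (𝓞 M)) : Prop :=
  (∀ p ∈ S, p ≠ 0 → (p : 𝓞 M) ∉ w.asIdeal) ∧ w.valuation M x ≤ 1 ∧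
    w.valuation M (aeval x F) < 1

/-- `p` is the minimal polynomial of a number for which the truncated counting function is small -/
def BadF (r : ℕ) (S : Finset ℕ) (F : K[X]) (κ : ℝ) (p : K[X]) : Prop :=
  ∃ (M : Type) (_ : Field M) (_ : NumberField M) (_ : Algebra K M) (x : M),
    finrank K M = r ∧ (minpoly K x).natDegree = r ∧ minpoly K x = p ∧
    ∃ W : Finset (HeightOneSpectrum (𝓞 M)), (∀ w, Near S F x w → w ∈ W) ∧
      ∑ w ∈ W, lN w < (F.natDegree - κ) * Height.logHeight₁ x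

end

/-- **DR/DEG** few numbers of degree `r` have a small truncated counting function -/
def StmDeg : Prop := ∀ (K : Type) [Field K] [NumberField K] (r : ℕ), 1 ≤ r → ∀ (S : Finset ℕ)
  (F : K[X]), F.Monic → Irreducible F → F.natDegree ≤ 2 * r + 1 → ∀ κ : ℝ, 0 < κ →
  ∃ ν C : ℝ, 0 < ν ∧ ∀ U : ℝ, 0 ≤ U → {p : K[X] | BadF r S F κ p ∧ AtH r U p}.Finite ∧
    ({p : K[X] | BadF r S F κ p ∧ AtH r U p}.ncard : ℝ) ≤ C * Real.exp ((r + 1 - ν) * U)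

/-- **DR/DIAG** one exceptional set for countably many conditions. `H U p`: the height of `p` is
at most `U`. -/
def StmDiag : Prop := ∀ (Ω J : Type) [Countable J] (H : ℝ → Ω → Prop),
  (∀ U U' p, U ≤ U' → H U p → H U' p) → ∀ (A : J → Ω → Prop) (D : ℝ), 0 < D →
  (∀ j, ∃ ν C : ℝ, 0 < ν ∧ ∀ U : ℝ, 0 ≤ U → {p | A j p ∧ H U p}.Finite ∧
    ({p | A j p ∧ H U p}.ncard : ℝ) ≤ C * Real.exp ((D - ν) * U)) →
  ∃ E : Set Ω, (∀ U : ℝ, 0 ≤ U → {p | p ∈ E ∧ H U p}.Finite ∧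
      ({p | p ∈ E ∧ H U p}.ncard : ℝ) ≤ Real.exp (D * U - √U)) ∧
    ∀ j, ∃ U : ℝ, 0 ≤ U ∧ ∀ p, p ∉ E → A j p → H U p

/-- **DR/KE** the exceptional set over `K` -/
def StmKE : Prop := ∀ (K : Type) [Field K] [NumberField K] (r : ℕ), 1 ≤ r → ∃ E : Set K[X],
  (∀ U : ℝ, 0 ≤ U → {p | p ∈ E ∧ AtH r U p}.Finite ∧
    ({p | p ∈ E ∧ AtH r U p}.ncard : ℝ) ≤ Real.exp ((r + 1) * U - √U)) ∧
  ∀ (S : Finset ℕ) (F : K[X]), F.Monic → Irreducible F → F.natDegree ≤ 2 * r + 1 →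
    ∀ κ : ℝ, 0 < κ → ∃ C : ℝ, ∀ (M : Type) [Field M] [NumberField M] [Algebra K M] (x : M),
      finrank K M = r → (minpoly K x).natDegree = r → minpoly K x ∉ E →
      ∀ W : Finset (HeightOneSpectrum (𝓞 M)), (∀ w, Near S F x w → w ∈ W) →
        (F.natDegree - κ) * Height.logHeight₁ x ≤ ∑ w ∈ W, lN w + C

/-- **DR/VK** the points of degree `r` over `K` and the points of the line over extensions `k` -/
def StmVk : Prop := ∀ (K : Type) [Field K] [NumberField K] (r : ℕ), 1 ≤ r → ∃ E : Set K[X],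
  (∀ U : ℝ, 0 ≤ U → {p | p ∈ E ∧ AtH r U p}.Finite ∧
    ({p | p ∈ E ∧ AtH r U p}.ncard : ℝ) ≤ Real.exp ((r + 1) * U - √U)) ∧
  ∀ (k : Type) [Field k] [NumberField k] [Algebra K k] (q : ℕ) (a : Fin q → k),
    Function.Injective a → (∀ j, (minpoly K (a j)).natDegree ≤ 2 * r + 1) → ∀ (S : Finset ℕ)
    (κ : ℝ), 0 < κ → ∃ C : ℝ, ∀ (M : Type) [Field M] [NumberField M] [Algebra K M] [Algebra k M]
      [IsScalarTower K k M] (x : M), IntermediateField.adjoin k {x} = ⊤ →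
      (minpoly K x).natDegree = r → minpoly K x ∉ E → (∀ j, x ≠ algebraMap k M (a j)) →
      ∀ W : Finset (HeightOneSpectrum (𝓞 M)),
        (∀ w, (∀ p ∈ S, p ≠ 0 → (p : 𝓞 M) ∉ w.asIdeal) → w.valuation M x ≤ 1 →
          (∃ j, w.valuation M (x - algebraMap k M (a j)) < 1) → w ∈ W) →
        (q - κ) * Height.logHeight₁ x ≤ ∑ w ∈ W, lN w + C

end Pool.Agent.N753.DR
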