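import Mathlib
import Pool.Agent.N753.DR.Stm

/-!
# Project PC: products of curves, points of degree `r_i` (statements)

`K` is a number field, `d = [K : ℚ]`. A tuple of points of degrees `r_1, …, r_m` of the line over `K`
is given by the tuple of their minimal polynomials, or by a tuple of vectors `c_i = (c_i0, …, c_ir_i)`
of algebraic integers.
-/

set_option autoImplicit false

namespace Pool.Agent.N753.DR

open NumberField IsDedekindDomain Module Polynomial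

/-- some prime above `p` divides the value of `G` at `c` -/
def Meet {K : Type} [Field K] [NumberField K] {n : ℕ} (G : MvPolynomial (Fin n) (𝓞 K))
    (c : Fin n → 𝓞 K) (p : ℕ) : Prop :=
  ∃ v : HeightOneSpectrum (𝓞 K), (p : 𝓞 K) ∈ v.asIdeal ∧ MvPolynomial.eval c G ∈ v.asIdeal

/-- **PC/MOD** congruence conditions in boxes -/
def StmMod : Prop := ∀ (K : Type) [Field K] [NumberField K] (n : ℕ), 1 ≤ n →
  ∀ G : MvPolynomial (Fin n) (𝓞 K), G ≠ 0 → ∃ (C : ℝ) (P₀ : ℕ), 1 ≤ C ∧ ∀ X : ℕ, 1 ≤ X →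
    ({c ∈ Bx K n X | MvPolynomial.eval c G = 0}.ncard : ℝ) ≤
      C * (X : ℝ) ^ ((finrank ℚ K : ℝ) * n - 1) ∧
    (∀ p : ℕ, p.Prime → P₀ ≤ p → ({c ∈ Bx K n X | Meet G c p}.ncard : ℝ) ≤
      C * (X : ℝ) ^ ((finrank ℚ K : ℝ) * n) * (1 / p + 1 / X)) ∧
    ∀ Q : Finset ℕ, (∀ p ∈ Q, p.Prime ∧ P₀ ≤ p) → ∏ p ∈ Q, p ≤ X →
      ({c ∈ Bx K n X | ∀ p ∈ Q, Meet G c p}.ncard : ℝ) ≤
        C ^ (Q.card + 1) * (X : ℝ) ^ ((finrank ℚ K : ℝ) * n) / ∏ p ∈ Q, (p : ℝ)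

/-- **PC/GCD** large common prime factors are rare -/
def StmGcd : Prop := ∀ (K : Type) [Field K] [NumberField K] (n₁ n₂ : ℕ), 1 ≤ n₁ → 1 ≤ n₂ →
  ∀ (G₁ : MvPolynomial (Fin n₁) (𝓞 K)) (G₂ : MvPolynomial (Fin n₂) (𝓞 K)), G₁ ≠ 0 → G₂ ≠ 0 →
  ∀ ρ₁ ρ₂ : ℕ, 1 ≤ ρ₁ → 1 ≤ ρ₂ → ∀ κ : ℝ, 0 < κ → ∃ ν C : ℝ, 0 < ν ∧ ∀ B : ℕ, 1 ≤ B →
    ({c : (Fin n₁ → 𝓞 K) × (Fin n₂ → 𝓞 K) | c.1 ∈ Bx K n₁ (B ^ ρ₁) ∧ c.2 ∈ Bx K n₂ (B ^ ρ₂) ∧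
      ∃ Q : Finset ℕ, (∀ p ∈ Q, p.Prime ∧ Meet G₁ c.1 p ∧ Meet G₂ c.2 p) ∧
        κ * Real.log B < ∑ p ∈ Q, Real.log p}.ncard : ℝ) ≤
      C * (B : ℝ) ^ ((finrank ℚ K : ℝ) * (ρ₁ * n₁ + ρ₂ * n₂) - ν)

/-- **PC/NEAR** common zeros modulo a prime and a resultant -/
def StmNear : Prop := ∀ (K : Type) [Field K] [NumberField K] (r : ℕ), 1 ≤ r → ∀ F : K[X], F ≠ 0 →
  ∃ (G : MvPolynomial (Fin (r + 1)) (𝓞 K)) (N₀ : ℕ), G ≠ 0 ∧ N₀ ≠ 0 ∧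
    ∀ (L : Type) [Field L] [NumberField L] [Algebra K L] (x : L) (c : Fin (r + 1) → 𝓞 K),
      ∑ i, algebraMap K L (c i) * x ^ (i : ℕ) = 0 → ∀ w : HeightOneSpectrum (𝓞 L),
      (N₀ : 𝓞 L) ∉ w.asIdeal → w.valuation L x ≤ 1 → w.valuation L (aeval x F) < 1 →
      ∀ p : ℕ, (p : 𝓞 L) ∈ w.asIdeal → Meet G c p

/-- **PC/COMB** ramification above several subfields -/
def StmComb : Prop := ∀ (k L : Type) [Field k] [NumberField k] [Field L] [NumberField L]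
  [Algebra k L] (m : ℕ) (M : Fin m → IntermediateField k L)
  (W : ∀ i, Finset (HeightOneSpectrum (𝓞 (M i)))) (V : Fin m → Finset (HeightOneSpectrum (𝓞 L))),
  (∀ i, ∀ u : HeightOneSpectrum (𝓞 L), u ∈ V i ↔ ∃ w ∈ W i, u.asIdeal.LiesOver w.asIdeal) →
  (∀ i j, i ≠ j → Disjoint (V i) (V j)) →
  ∑ i, (finrank (M i) L : ℝ) * ∑ w ∈ W i, lN w ≤
    ∑ i, ∑ u ∈ V i, lN u + Real.log |(discr L : ℝ)|

/-- **PC/CNT** the number of points of degree `r` -/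
def StmCntAll : Prop := ∀ (K : Type) [Field K] [NumberField K] (r : ℕ), 1 ≤ r →
  ∃ C : ℝ, 0 < C ∧ ∀ U : ℝ, 0 ≤ U → {p : K[X] | AtH r U p}.Finite ∧
    ({p : K[X] | AtH r U p}.ncard : ℝ) ≤ C * Real.exp ((r + 1) * U)

/-- **PC/ROOT** where a polynomial is small there is a zero -/
def StmRoot : Prop := ∀ q r : ℕ, ∃ C : ℝ, 0 < C ∧ ∀ (h f : ℂ[X]) (z : ℂ) (δ : ℝ),
  h.natDegree ≤ q → f.natDegree ≤ r → f.eval z = 0 → 0 < δ → (∀ i, ‖f.coeff i‖ ≤ 1) →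
  (∃ j, 1 ≤ ‖h.coeff j‖) → ‖h.eval z‖ ≤ δ * max 1 ‖z‖ ^ q →
    (∃ y : ℂ, h.eval y = 0 ∧ ‖f.eval y‖ ≤ C * δ ^ (1 / ((q : ℝ) + 1)) * max 1 ‖y‖ ^ r) ∨
      ‖f.coeff r‖ ≤ C * δ ^ (1 / ((q : ℝ) + 1))

/-- **PC/LIN** linear forms are rarely small, uniformly -/
def StmLin : Prop := ∀ (K : Type) [Field K] [NumberField K] (σ : K →+* ℂ) (n : ℕ), 1 ≤ n →
  ∃ C : ℝ, 0 < C ∧ ∀ b : Fin n → ℂ, (∃ j, 1 ≤ ‖b j‖) → ∀ (X : ℕ) (η : ℝ), 1 ≤ X → 0 ≤ η →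
    ({c ∈ Bx K n X | ‖∑ j, σ (c j : K) * b j‖ ≤ η}.ncard : ℝ) ≤
      C * (X : ℝ) ^ ((finrank ℚ K : ℝ) * n - 1) * (1 + η)

/-- **PC/PXA** a polynomial is rarely small at tuples of zeros of small polynomials -/
def StmPxa : Prop := ∀ (K : Type) [Field K] [NumberField K] (σ : K →+* ℂ) (m : ℕ)
  (r ρ q : Fin m → ℕ) (G : MvPolynomial (Fin m) ℂ), (∀ i, 1 ≤ r i) → (∀ i, 1 ≤ ρ i) → G ≠ 0 →
  (∀ i, G.degreeOf i ≤ q i) → ∀ κ : ℝ, 0 < κ → ∃ ν C : ℝ, 0 < ν ∧ ∀ B : ℕ, 1 ≤ B →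
    ({c : ∀ i, Fin (r i + 1) → 𝓞 K | (∀ i, c i ∈ Bx K (r i + 1) (B ^ ρ i) ∧ c i ≠ 0) ∧
      ∃ z : Fin m → ℂ, (∀ i, ∑ j, σ (c i j : K) * z i ^ (j : ℕ) = 0) ∧
        ‖MvPolynomial.eval z G‖ ≤ (B : ℝ) ^ (-κ) * ∏ i, max 1 ‖z i‖ ^ q i}.ncard : ℝ) ≤
      C * (B : ℝ) ^ ((finrank ℚ K : ℝ) * ∑ i, (ρ i : ℝ) * (r i + 1) - ν)

/-- **PC/ELIM** elimination -/
def StmElim : Prop := ∀ (K : Type) [Field K] [NumberField K] (m : ℕ) (r : Fin m → ℕ)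
  (G : MvPolynomial (Fin m) (𝓞 K)), (∀ i, 1 ≤ r i) → G ≠ 0 →
  ∃ R : MvPolynomial (Σ i, Fin (r i + 1)) (𝓞 K), R ≠ 0 ∧
    ∀ (O : Type) [CommRing O] [Algebra (𝓞 K) O] (z : Fin m → O) (c : ∀ i, Fin (r i + 1) → 𝓞 K),
      (∀ i, ∑ j, algebraMap (𝓞 K) O (c i j) * z i ^ (j : ℕ) = 0) →
      ∃ b : O, algebraMap (𝓞 K) O (MvPolynomial.eval (fun s => c s.1 s.2) R) =
        b * MvPolynomial.aeval z G

/-- **PC/LOCW** the local heights of `G = 0` at a finite place are bounded by values of polynomials in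
the coefficients -/
def StmLocW : Prop := ∀ (K : Type) [Field K] [NumberField K] (m : ℕ) (r q : Fin m → ℕ)
  (G : MvPolynomial (Fin m) K), (∀ i, 1 ≤ r i) → G ≠ 0 → (∀ i, G.degreeOf i ≤ q i) →
  ∃ (s : ℕ) (R : Fin s → MvPolynomial (Σ i, Fin (r i + 1)) (𝓞 K)) (N : ℕ), (∀ t, R t ≠ 0) ∧ N ≠ 0 ∧
    ∀ (L : Type) [Field L] [NumberField L] [Algebra K L] (x : Fin m → L)
      (c : ∀ i, Fin (r i + 1) → 𝓞 K), (∀ i, ∑ j, algebraMap K L (c i j) * x i ^ (j : ℕ) = 0) →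
      MvPolynomial.aeval x G ≠ 0 → (∀ t, MvPolynomial.eval (fun s => c s.1 s.2) (R t) ≠ 0) →
      ∀ w : HeightOneSpectrum (𝓞 L),
        Real.log ((∏ i, max (FinitePlace.mk w (x i)) 1 ^ q i) /
          FinitePlace.mk w (MvPolynomial.aeval x G)) ≤
          ∑ t, -Real.log (FinitePlace.mk w (algebraMap K L
            (MvPolynomial.eval (fun s => c s.1 s.2) (R t) : 𝓞 K))) -
            Real.log (FinitePlace.mk w (N : L))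

/-- **PC/POLYV** polynomials are rarely small at a given prime -/
def StmPolyV : Prop := ∀ (K : Type) [Field K] [NumberField K] (m : ℕ) (n ρ : Fin m → ℕ),
  (∀ i, 1 ≤ n i) → (∀ i, 1 ≤ ρ i) → ∀ R : MvPolynomial (Σ i, Fin (n i)) (𝓞 K), R ≠ 0 →
  ∀ (v : HeightOneSpectrum (𝓞 K)) (κ : ℝ), 0 < κ → ∃ ν C : ℝ, 0 < ν ∧ ∀ B : ℕ, 1 ≤ B →
    ({c : ∀ i, Fin (n i) → 𝓞 K | (∀ i, c i ∈ Bx K (n i) (B ^ ρ i)) ∧
      ∃ e : ℕ, MvPolynomial.eval (fun s => c s.1 s.2) R ∈ v.asIdeal ^ e ∧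
        κ * Real.log B ≤ e * lN v ∧ 1 ≤ e}.ncard : ℝ) ≤
      C * (B : ℝ) ^ ((finrank ℚ K : ℝ) * ∑ i, (ρ i : ℝ) * n i - ν)

section

variable {K : Type} [Field K] [NumberField K]

/-- tuples of minimal polynomials of points of degree `r_i` with absolute heights at most
`T / [K : ℚ]` -/
def HT {m : ℕ} (r : Fin m → ℕ) (T : ℝ) (P : Fin m → K[X]) : Prop :=
  ∀ i, AtH (r i) (r i * T) (P i)

/-- the prime `p` is below a prime at which a zero of `f` meets a zero of `F` -/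
def NearP (S : Finset ℕ) (F f : K[X]) (p : ℕ) : Prop :=
  ∃ (M : Type) (_ : Field M) (_ : NumberField M) (_ : Algebra K M) (x : M)
    (w : HeightOneSpectrum (𝓞 M)), minpoly K x = f ∧ Near S F x w ∧ (p : 𝓞 M) ∈ w.asIdeal

open Classical in
/-- the local heights of `G = 0` at `x`, summed over the infinite places (with multiplicities) and
the primes above the primes of `S` -/
noncomputable def proxM {L : Type} [Field L] [NumberField L] [Algebra K L] {m : ℕ} (S : Finset ℕ)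
    (q : Fin m → ℕ) (G : MvPolynomial (Fin m) K) (x : Fin m → L) : ℝ :=
  ∑ w : InfinitePlace L, (w.mult : ℝ) *
      Real.log ((∏ i, max (w (x i)) 1 ^ q i) / w (MvPolynomial.aeval x G)) +
    ∑ᶠ v : HeightOneSpectrum (𝓞 L), if ∃ p ∈ S, (p : 𝓞 L) ∈ v.asIdeal then
      Real.log ((∏ i, max (FinitePlace.mk v (x i)) 1 ^ q i) /
        FinitePlace.mk v (MvPolynomial.aeval x G)) else 0

end

/-- **PC/COIN** coincidences are rare -/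
def StmCoin : Prop := ∀ (K : Type) [Field K] [NumberField K] (m : ℕ) (r : Fin m → ℕ),
  (∀ i, 1 ≤ r i) → ∀ i j : Fin m, i ≠ j → ∀ F F' : K[X], F ≠ 0 → F' ≠ 0 → ∃ S : Finset ℕ,
  (∀ p ∈ S, p ≠ 0) ∧ ∀ κ : ℝ, 0 < κ → ∃ ν C : ℝ, 0 < ν ∧ ∀ T : ℝ, 0 ≤ T →
    {P : Fin m → K[X] | (∃ Q : Finset ℕ, (∀ p ∈ Q, p.Prime ∧ NearP S F (P i) p ∧
      NearP S F' (P j) p) ∧ κ * T < ∑ p ∈ Q, Real.log p) ∧ HT r T P}.Finite ∧
    ({P : Fin m → K[X] | (∃ Q : Finset ℕ, (∀ p ∈ Q, p.Prime ∧ NearP S F (P i) p ∧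
      NearP S F' (P j) p) ∧ κ * T < ∑ p ∈ Q, Real.log p) ∧ HT r T P}.ncard : ℝ) ≤
      C * Real.exp ((∑ i, (r i : ℝ) * (r i + 1) - ν) * T)

/-- **PC/PROXM** the proximity function of any divisor is rarely large -/
def StmProxM : Prop := ∀ (K : Type) [Field K] [NumberField K] (m : ℕ) (r q : Fin m → ℕ),
  (∀ i, 1 ≤ r i) → ∀ G : MvPolynomial (Fin m) K, G ≠ 0 → (∀ i, G.degreeOf i ≤ q i) →
  ∀ S : Finset ℕ, (∀ p ∈ S, p.Prime) → ∀ κ : ℝ, 0 < κ → ∃ ν C : ℝ, 0 < ν ∧ ∀ T : ℝ, 0 ≤ T →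
    {P : Fin m → K[X] | (∃ (L : Type) (_ : Field L) (_ : NumberField L) (_ : Algebra K L)
      (x : Fin m → L), (∀ i, minpoly K (x i) = P i) ∧ MvPolynomial.aeval x G ≠ 0 ∧
      κ * T * finrank ℚ L < proxM S q G x) ∧ HT r T P}.Finite ∧
    ({P : Fin m → K[X] | (∃ (L : Type) (_ : Field L) (_ : NumberField L) (_ : Algebra K L)
      (x : Fin m → L), (∀ i, minpoly K (x i) = P i) ∧ MvPolynomial.aeval x G ≠ 0 ∧
      κ * T * finrank ℚ L < proxM S q G x) ∧ HT r T P}.ncard : ℝ) ≤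
      C * Real.exp ((∑ i, (r i : ℝ) * (r i + 1) - ν) * T)

end Pool.Agent.N753.DR
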