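import Mathlib
import Pool.Agent.N753.DR.Stm

/-!
# Incomplete norm forms and closed points in linear systems on curves: statements (project CV)

`evB β c = ∑ c_i β_i` for `β_i ∈ 𝓞 L`, `c_i ∈ 𝓞 K`. In project DR: `β_i = a ^ (r - i) θ ^ i`.
-/

set_option autoImplicit false

namespace Pool.Agent.N753.DR

open NumberField IsDedekindDomain Module Polynomial
open scoped LinearAlgebra.Projectivization

section

variable (K : Type) [Field K] [NumberField K] {L : Type} [Field L] [NumberField L] [Algebra K L]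

/-- `d ↦ ∑ d_i β_i` -/
noncomputable def evB {m : ℕ} (β : Fin m → 𝓞 L) : (Fin m → 𝓞 K) →+ 𝓞 L where
  toFun d := ∑ i, algebraMap (𝓞 K) (𝓞 L) (d i) * β i
  map_zero' := by simp
  map_add' d d' := by
    rw [← Finset.sum_add_distrib]
    exact Finset.sum_congr rfl fun i _ => by rw [Pi.add_apply, map_add, add_mul]

variable {K}

/-- `c` has a double zero above `v` -/
def NSB {m : ℕ} (β : Fin m → 𝓞 L) (c : Fin m → 𝓞 K) (v : HeightOneSpectrum (𝓞 K)) : Prop :=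
  ∃ b : Ideal (𝓞 L), IsTyp v b ∧ evB K β c ∈ b

end

/-- **CV/TYPB** -/
def StmTypB : Prop := ∀ (K L : Type) [Field K] [NumberField K] [Field L] [NumberField L]
  [Algebra K L] (m : ℕ) (β : Fin m → 𝓞 L) (i0 i1 : Fin m), β i0 ≠ 0 →
  IntermediateField.adjoin K {(β i1 : L) / β i0} = ⊤ →
  ∃ Bad : Finset (HeightOneSpectrum (𝓞 K)), ∀ v ∉ Bad,
    (∀ w : HeightOneSpectrum (𝓞 L), w.asIdeal.LiesOver v.asIdeal → β i0 ∉ w.asIdeal) ∧
    (∀ w : HeightOneSpectrum (𝓞 L), w.asIdeal.LiesOver v.asIdeal → ∀ (e : ℕ) (c : 𝓞 K),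
      algebraMap (𝓞 K) (𝓞 L) c ∈ w.asIdeal ^ e → c ∈ v.asIdeal ^ e) ∧
    (∀ p : ℕ, p.Prime → (p : 𝓞 K) ∈ v.asIdeal → ∀ (e : ℕ) (m : ℤ),
      (m : 𝓞 K) ∈ v.asIdeal ^ e → (p : ℤ) ^ e ∣ m) ∧
    (∀ w : HeightOneSpectrum (𝓞 L), w.asIdeal.LiesOver v.asIdeal → ∀ c0 c1 : 𝓞 K,
      algebraMap (𝓞 K) (𝓞 L) c0 * β i0 + algebraMap (𝓞 K) (𝓞 L) c1 * β i1 ∈ w.asIdeal →
      (Ideal.absNorm v.asIdeal < Ideal.absNorm w.asIdeal ∨
        ∃ w' : HeightOneSpectrum (𝓞 L), w'.asIdeal.LiesOver v.asIdeal ∧ w' ≠ w ∧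
          algebraMap (𝓞 K) (𝓞 L) c0 * β i0 + algebraMap (𝓞 K) (𝓞 L) c1 * β i1 ∈ w'.asIdeal) →
      c0 ∈ v.asIdeal ∧ c1 ∈ v.asIdeal) ∧
    (∀ b : Ideal (𝓞 L), IsTyp v b → ∀ (s : ℕ) (ι : Fin s → Fin m), Function.Injective ι →
      i0 ∈ Set.range ι → (i1 ∈ Set.range ι ∨ finrank K L = 1) →
      ((Submodule.toAddSubgroup b).comap (evB K (fun j => β (ι j)))).index ≠ 0 ∧
        Ideal.absNorm v.asIdeal ^ 2 ≤
          ((Submodule.toAddSubgroup b).comap (evB K (fun j => β (ι j)))).index) ∧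
    (∀ b : Ideal (𝓞 L), IsTyp v b → b ≠ ⊥ ∧ Ideal.absNorm v.asIdeal ^ 2 ≤ Ideal.absNorm b) ∧
    {b : Ideal (𝓞 L) | IsTyp v b}.Finite ∧
      {b : Ideal (𝓞 L) | IsTyp v b}.ncard ≤ 2 * finrank K L ^ 2

/-- **CV/LARGEB** -/
def StmLargeB : Prop := ∀ (K L : Type) [Field K] [NumberField K] [Field L] [NumberField L]
  [Algebra K L] (m : ℕ) (β : Fin m → 𝓞 L) (i0 i1 : Fin m), β i0 ≠ 0 →
  IntermediateField.adjoin K {(β i1 : L) / β i0} = ⊤ → ∀ (s : ℕ) (ι : Fin s → Fin m),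
  Function.Injective ι → i0 ∈ Set.range ι → (i1 ∈ Set.range ι ∨ finrank K L = 1) →
  LinearIndependent K (fun j => (β (ι j) : L)) →
  ∃ Bad : Finset (HeightOneSpectrum (𝓞 K)), ∀ δ : ℝ, 0 < δ → ∃ ν C : ℝ, 0 < ν ∧ ∀ B : ℕ, 1 ≤ B →
    ({c ∈ Bx K m B | ∃ v ∉ Bad, (B : ℝ) ^ δ ≤ Ideal.absNorm v.asIdeal ∧
      (Ideal.absNorm v.asIdeal : ℝ) ≤ (B : ℝ) ^ ((finrank ℚ K : ℝ) * s - δ) ∧
      NSB β c v}.ncard : ℝ) ≤ C * (B : ℝ) ^ ((finrank ℚ K : ℝ) * m - ν)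

/-- **CV/SMALLB** -/
def StmSmallB : Prop := ∀ (K L : Type) [Field K] [NumberField K] [Field L] [NumberField L]
  [Algebra K L] (m : ℕ) (β : Fin m → 𝓞 L) (i0 i1 : Fin m), β i0 ≠ 0 →
  IntermediateField.adjoin K {(β i1 : L) / β i0} = ⊤ →
  ∃ Bad : Finset (HeightOneSpectrum (𝓞 K)), ∀ κ : ℝ, 0 < κ → ∃ δ ν C : ℝ, 0 < δ ∧ 0 < ν ∧
    ∀ B : ℕ, 1 ≤ B →
    ({c ∈ Bx K m B | ∃ W : Finset (HeightOneSpectrum (𝓞 L)),
      (∀ w ∈ W, ∃ v ∉ Bad, w.asIdeal.LiesOver v.asIdeal ∧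
        (Ideal.absNorm v.asIdeal : ℝ) ≤ (B : ℝ) ^ δ ∧ NSB β c v) ∧
      ∃ e : HeightOneSpectrum (𝓞 L) → ℕ, (∀ w ∈ W, evB K β c ∈ w.asIdeal ^ e w) ∧
        κ * Real.log B ≤ ∑ w ∈ W, e w * lN w}.ncard : ℝ) ≤
      C * (B : ℝ) ^ ((finrank ℚ K : ℝ) * m - ν)

/-- **CV/PLACESB** -/
def StmPlacesB : Prop := ∀ (K L : Type) [Field K] [NumberField K] [Field L] [NumberField L]
  [Algebra K L] (m : ℕ) (β : Fin m → 𝓞 L) (i0 : Fin m), β i0 ≠ 0 → ∀ κ : ℝ, 0 < κ →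
  (∀ σ : L →+* ℂ, ∃ ν C : ℝ, 0 < ν ∧ ∀ B : ℕ, 1 ≤ B →
    ({c ∈ Bx K m B | ‖σ (evB K β c : L)‖ ≤ (B : ℝ) ^ (1 - κ)}.ncard : ℝ) ≤
      C * (B : ℝ) ^ ((finrank ℚ K : ℝ) * m - ν)) ∧
  (∀ w : HeightOneSpectrum (𝓞 L), ∃ ν C : ℝ, 0 < ν ∧ ∀ B : ℕ, 1 ≤ B →
    ({c ∈ Bx K m B | ∃ e : ℕ, evB K β c ∈ w.asIdeal ^ e ∧
      κ * Real.log B ≤ e * lN w ∧ 1 ≤ e}.ncard : ℝ) ≤
      C * (B : ℝ) ^ ((finrank ℚ K : ℝ) * m - ν))

/-- **CV/COREB** -/
def StmCoreB : Prop := ∀ (K L : Type) [Field K] [NumberField K] [Field L] [NumberField L]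
  [Algebra K L] (m : ℕ) (β : Fin m → 𝓞 L) (i0 i1 : Fin m), β i0 ≠ 0 →
  IntermediateField.adjoin K {(β i1 : L) / β i0} = ⊤ → ∀ (s : ℕ) (ι : Fin s → Fin m),
  Function.Injective ι → i0 ∈ Set.range ι → (i1 ∈ Set.range ι ∨ finrank K L = 1) →
  LinearIndependent K (fun j => (β (ι j) : L)) → finrank K L < 2 * s →
  ∃ Bad0 : Finset (HeightOneSpectrum (𝓞 K)), ∀ Bad : Finset (HeightOneSpectrum (𝓞 K)),
    Bad0 ⊆ Bad → ∀ κ : ℝ, 0 < κ → ∃ ν C : ℝ, 0 < ν ∧ ∀ B : ℕ, 1 ≤ B →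
    ({c ∈ Bx K m B | ∃ W : Finset (HeightOneSpectrum (𝓞 K)),
      (∀ v ∉ Bad, ∀ w : HeightOneSpectrum (𝓞 L), w.asIdeal.LiesOver v.asIdeal →
        evB K β c ∈ w.asIdeal → v ∈ W) ∧
      ∑ v ∈ W, lN v ≤ (finrank K L - κ) * ((finrank ℚ K : ℝ) * Real.log B)}.ncard : ℝ) ≤
      C * (B : ℝ) ^ ((finrank ℚ K : ℝ) * m - ν)

/-- the linear form with coefficients `γ` is an incomplete norm form of `L / K` in more than half
the number of variables: the ratios of the coefficients generate `L`, and the rank of `γ` is more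
than half of the degree -/
def Wide (K : Type) [Field K] {L : Type} [Field L] [Algebra K L] {m : ℕ} (γ : Fin m → L) : Prop :=
  (∃ i0, γ i0 ≠ 0 ∧ IntermediateField.adjoin K (Set.range fun i => γ i / γ i0) = ⊤) ∧
    finrank K L < 2 * finrank K (Submodule.span K (Set.range γ))

/-- **CV/COREV** incomplete norm forms -/
def StmCoreV : Prop := ∀ (K L : Type) [Field K] [NumberField K] [Field L] [NumberField L]
  [Algebra K L] (m : ℕ) (γ : Fin m → L), Wide K γ →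
  ∃ Bad0 : Finset (HeightOneSpectrum (𝓞 K)), ∀ Bad : Finset (HeightOneSpectrum (𝓞 K)),
    Bad0 ⊆ Bad → ∀ κ : ℝ, 0 < κ → ∃ ν C : ℝ, 0 < ν ∧ ∀ B : ℕ, 1 ≤ B →
    ({c ∈ Bx K m B | ∃ W : Finset (HeightOneSpectrum (𝓞 K)),
      (∀ v ∉ Bad, ∀ w : HeightOneSpectrum (𝓞 L), w.asIdeal.LiesOver v.asIdeal →
        w.valuation L (∑ i, algebraMap K L (c i : K) * γ i) < 1 → v ∈ W) ∧
      ∑ v ∈ W, lN v ≤ (finrank K L - κ) * ((finrank ℚ K : ℝ) * Real.log B)}.ncard : ℝ) ≤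
      C * (B : ℝ) ^ ((finrank ℚ K : ℝ) * m - ν)

/-- **CV/REDC** primitive integral coordinates of a point of projective space -/
def StmRedC : Prop := ∀ (K : Type) [Field K] [NumberField K] (m : ℕ),
  ∃ (Bad : Finset (HeightOneSpectrum (𝓞 K))) (C : ℝ), 0 < C ∧ ∀ x : Fin m → K, x ≠ 0 →
    ∃ (c : Fin m → 𝓞 K) (l : K), l ≠ 0 ∧ (∀ i, (c i : K) = l * x i) ∧
      (∀ v ∉ Bad, ∃ i, c i ∉ v.asIdeal) ∧
      ∀ i, (sz (c i) : ℝ) ≤ C * Real.exp (Height.logHeight x / finrank ℚ K)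

section

variable {K A : Type} [Field K] [CommRing A] [Algebra K A]

/-- the member `∑ c_i f_i` of the linear system -/
def mem {m : ℕ} (f : Fin m → A) (c : Fin m → K) : A := ∑ i, c i • f i

variable [Algebra K[X] A]

/-- the point `φ` meets the point with the equations `g` at the prime `w` -/
def NearC {M : Type} [Field M] [NumberField M] [Algebra K M] (S : Finset ℕ) {u : ℕ} (g : Fin u → A)
    (φ : A →ₐ[K] M) (w : HeightOneSpectrum (𝓞 M)) : Prop :=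
  (∀ p ∈ S, p ≠ 0 → (p : 𝓞 M) ∉ w.asIdeal) ∧ w.valuation M (φ (algebraMap K[X] A X)) ≤ 1 ∧
    ∀ i, w.valuation M (φ (g i)) < 1

variable [NumberField K]

/-- the closed point `∑ P_i f_i = 0` has a small truncated counting function -/
def BadC {m u : ℕ} (f : Fin m → A) (g : Fin u → A) (S : Finset ℕ) (d : ℝ)
    (P : ℙ K (Fin m → K)) : Prop :=
  ∃ (M : Type) (_ : Field M) (_ : NumberField M) (_ : Algebra K M) (φ : A →ₐ[K] M),
    Function.Surjective φ ∧ RingHom.ker φ = Ideal.span {mem f P.rep} ∧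
    ∃ W : Finset (HeightOneSpectrum (𝓞 M)), (∀ w, NearC S g φ w → w ∈ W) ∧
      ∑ w ∈ W, lN w < d * Height.logHeight P.rep

end

/-- **CV/LINKC** the member of the linear system vanishes at a point `ψ` modulo a prime of `L` only
if its zero `φ` meets `ψ` at a prime of `M` -/
def StmLinkC : Prop := ∀ (K A L : Type) [Field K] [NumberField K] [CommRing A] [IsDomain A]
  [Algebra K A] [Algebra K[X] A] [IsScalarTower K K[X] A] [Module.Finite K[X] A]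
  [FaithfulSMul K[X] A] [Field L] [NumberField L] [Algebra K L],
  IsDomain (TensorProduct K (AlgebraicClosure K) A) → ∀ (m u : ℕ) (f : Fin m → A),
  LinearIndependent K f → ∀ (ψ : A →ₐ[K] L) (g : Fin u → A), (∀ i, ψ (g i) = 0) →
  ∃ Bad : Finset (HeightOneSpectrum (𝓞 K)), ∀ (M : Type) [Field M] [NumberField M] [Algebra K M]
    (φ : A →ₐ[K] M) (c : Fin m → 𝓞 K), Function.Surjective φ →
    RingHom.ker φ = Ideal.span {mem f fun i => (c i : K)} → ∀ v ∉ Bad, (∃ i, c i ∉ v.asIdeal) →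
    ∀ w : HeightOneSpectrum (𝓞 L), w.asIdeal.LiesOver v.asIdeal →
      w.valuation L (ψ (mem f fun i => (c i : K))) < 1 →
    ∃ x : HeightOneSpectrum (𝓞 M), x.asIdeal.LiesOver v.asIdeal ∧
      x.valuation M (φ (algebraMap K[X] A X)) ≤ 1 ∧ ∀ i, x.valuation M (φ (g i)) < 1

/-- **CV/CNTC** few members have a small truncated counting function -/
def StmCntC : Prop := ∀ (K A L : Type) [Field K] [NumberField K] [CommRing A] [IsDomain A]
  [Algebra K A] [Algebra K[X] A] [IsScalarTower K K[X] A] [Module.Finite K[X] A]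
  [FaithfulSMul K[X] A] [Field L] [NumberField L] [Algebra K L],
  IsDomain (TensorProduct K (AlgebraicClosure K) A) → ∀ (m u : ℕ) (f : Fin m → A),
  LinearIndependent K f → ∀ (ψ : A →ₐ[K] L) (g : Fin u → A), (∀ i, ψ (g i) = 0) →
  Wide K (fun i => ψ (f i)) → ∀ (S : Finset ℕ) (κ : ℝ), 0 < κ → ∃ ν C : ℝ, 0 < ν ∧
  ∀ U : ℝ, 0 ≤ U →
    {P : ℙ K (Fin m → K) | BadC f g S (finrank K L - κ) P ∧ Height.logHeight P.rep ≤ U}.Finite ∧
    ({P : ℙ K (Fin m → K) | BadC f g S (finrank K L - κ) P ∧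
      Height.logHeight P.rep ≤ U}.ncard : ℝ) ≤ C * Real.exp ((m - ν) * U)

/-- **CV/HTC** the height of the zero of a member -/
def StmHtC : Prop := ∀ (K A : Type) [Field K] [NumberField K] [CommRing A] [IsDomain A]
  [Algebra K A] [Algebra K[X] A] [IsScalarTower K K[X] A] [Module.Finite K[X] A]
  [FaithfulSMul K[X] A] (m : ℕ) (f : Fin m → A), LinearIndependent K f → ∃ C : ℝ,
    ∀ (M : Type) [Field M] [NumberField M] [Algebra K M] (φ : A →ₐ[K] M) (c : Fin m → K),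
      Function.Surjective φ → RingHom.ker φ = Ideal.span {mem f c} → c ≠ 0 →
      Height.logHeight₁ (φ (algebraMap K[X] A X)) ≤
        finrank K[X] A * Height.logHeight c + C

/-- **CV/UNIC** for most members the zero determines the member, and its degree is fixed -/
def StmUniC : Prop := ∀ (K A : Type) [Field K] [NumberField K] [CommRing A] [IsDomain A]
  [Algebra K A] [Algebra K[X] A] [IsScalarTower K K[X] A] [Module.Finite K[X] A]
  [FaithfulSMul K[X] A], IsDomain (TensorProduct K (AlgebraicClosure K) A) →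
  ∀ (m : ℕ), 1 ≤ m → ∀ (f : Fin m → A), LinearIndependent K f →
  ∃ (Q : MvPolynomial (Fin m) K) (d r : ℕ), Q ≠ 0 ∧ Q.IsHomogeneous d ∧
    (∀ c c' : Fin m → K, MvPolynomial.eval c Q ≠ 0 →
      Ideal.span {mem f c} = Ideal.span {mem f c'} → ∃ l : K, l ≠ 0 ∧ c' = l • c) ∧
    ∀ c : Fin m → K, MvPolynomial.eval c Q ≠ 0 → finrank K (A ⧸ Ideal.span {mem f c}) = r

/-- **CV/ZEROC** few points of a hypersurface -/
def StmZeroC : Prop := ∀ (K : Type) [Field K] [NumberField K] (m : ℕ)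
  (Q : MvPolynomial (Fin m) K) (d : ℕ), Q ≠ 0 → Q.IsHomogeneous d → ∃ ν C : ℝ, 0 < ν ∧
  ∀ U : ℝ, 0 ≤ U →
    {P : ℙ K (Fin m → K) | Height.logHeight P.rep ≤ U}.Finite ∧
    ({P : ℙ K (Fin m → K) | MvPolynomial.eval P.rep Q = 0 ∧
      Height.logHeight P.rep ≤ U}.ncard : ℝ) ≤ C * Real.exp ((m - ν) * U)

section

variable {K A : Type} [Field K] [NumberField K] [CommRing A] [Algebra K A]

/-- the closed point `∑ P_i f_i = 0` has a small discriminant -/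
def SmD {m : ℕ} (f : Fin m → A) (G : ℝ) (P : ℙ K (Fin m → K)) : Prop :=
  ∃ (M : Type) (_ : Field M) (_ : NumberField M) (_ : Algebra K M) (φ : A →ₐ[K] M),
    Function.Surjective φ ∧ RingHom.ker φ = Ideal.span {mem f P.rep} ∧
    Real.log |(discr M : ℝ)| < G * Height.logHeight P.rep

end

/-- **CV/FLDC** few members have a zero with small discriminant -/
def StmFldC : Prop := ∃ e : ℕ → ℝ, (∀ c : ℝ, 1 / (8 * (Real.log 2) ^ 2) < c →
      ∀ᶠ n : ℕ in Filter.atTop, e n ≤ c * (Real.log n) ^ 2) ∧ (∀ n, 0 ≤ e n) ∧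
  ∀ (K A : Type) [Field K] [NumberField K] [CommRing A] [IsDomain A]
  [Algebra K A] [Algebra K[X] A] [IsScalarTower K K[X] A] [Module.Finite K[X] A]
  [FaithfulSMul K[X] A] (m : ℕ) (f : Fin m → A), LinearIndependent K f →
  ∀ (Q : MvPolynomial (Fin m) K) (r : ℕ),
    (∀ c c' : Fin m → K, MvPolynomial.eval c Q ≠ 0 →
      Ideal.span {mem f c} = Ideal.span {mem f c'} → ∃ l : K, l ≠ 0 ∧ c' = l • c) →
    (∀ c : Fin m → K, MvPolynomial.eval c Q ≠ 0 →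
      finrank K (A ⧸ Ideal.span {mem f c}) = r) →
  ∀ G : ℝ, 0 ≤ G → ∀ ν : ℝ, 0 < ν → ∃ C : ℝ, ∀ U : ℝ, 0 ≤ U →
    {P : ℙ K (Fin m → K) | MvPolynomial.eval P.rep Q ≠ 0 ∧ SmD f G P ∧
      Height.logHeight P.rep ≤ U}.Finite ∧
    ({P : ℙ K (Fin m → K) | MvPolynomial.eval P.rep Q ≠ 0 ∧ SmD f G P ∧
      Height.logHeight P.rep ≤ U}.ncard : ℝ) ≤
      C * Real.exp ((G * e r + 2 * finrank K[X] A + ν) * U)

/-- the functions `X ^ k • e_j`, `k ≤ n` -/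
noncomputable def Vn {K A : Type} [Field K] [CommRing A] [Algebra K[X] A] {N : ℕ} (e : Fin N → A)
    (n : ℕ) (i : Fin (N * (n + 1))) : A :=
  (X : K[X]) ^ ((finProdFinEquiv.symm i).2 : ℕ) • e (finProdFinEquiv.symm i).1

/-- **CV/VNC** the linear systems `V_n` -/
def StmVnC : Prop := ∀ (K A : Type) [Field K] [NumberField K] [CommRing A] [IsDomain A]
  [Algebra K A] [Algebra K[X] A] [IsScalarTower K K[X] A] [Module.Finite K[X] A]
  [FaithfulSMul K[X] A] (N : ℕ) (e : Basis (Fin N) K[X] A), (∃ i, e i = 1) → ∃ c₀ : ℕ,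
  ∀ n : ℕ, 1 ≤ n → LinearIndependent K (Vn (K := K) e n) ∧
    (∀ (L : Type) [Field L] [NumberField L] [Algebra K L] (ψ : A →ₐ[K] L), Function.Surjective ψ →
      finrank K L ≤ 2 * n + 1 → Wide K (fun i => ψ (Vn (K := K) e n i))) ∧
    ∀ c : Fin (N * (n + 1)) → K, mem (Vn (K := K) e n) c ≠ 0 →
      finrank K (A ⧸ Ideal.span {mem (Vn (K := K) e n) c}) ≤ N * n + c₀

/-- **CV/SEPC** a point meets at most one of several different closed points at a good prime -/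
def StmSepC : Prop := ∀ (K A : Type) [Field K] [NumberField K] [CommRing A] [IsDomain A]
  [Algebra K A] [Algebra K[X] A] [IsScalarTower K K[X] A] [Module.Finite K[X] A]
  [FaithfulSMul K[X] A] (q : ℕ) (u : Fin q → ℕ) (g : ∀ j, Fin (u j) → A),
  (∀ j, (Ideal.span (Set.range (g j))).IsMaximal) →
  (∀ i j, i ≠ j → Ideal.span (Set.range (g i)) ≠ Ideal.span (Set.range (g j))) →
  ∃ S : Finset ℕ, (∀ p ∈ S, p ≠ 0) ∧ ∀ (M : Type) [Field M] [NumberField M] [Algebra K M]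
    (φ : A →ₐ[K] M) (w : HeightOneSpectrum (𝓞 M)) (i j : Fin q),
    NearC S (g i) φ w → NearC S (g j) φ w → i = j

end Pool.Agent.N753.DR
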