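import Pool.Agent.N751.CV.Prox
import Pool.Agent.N572.DR.Diag
import Pool.Agent.N572.DR.KE
import Pool.Agent.N265.CV.Htc
import Pool.Agent.N415.DR.VK

/-!
# Project CV: the proximity part with one exceptional set
-/

set_option autoImplicit false

namespace Pool.Agent.N753.DR.ProxE

open NumberField IsDedekindDomain Module Polynomial Pool.Agent.N753.DR
open scoped LinearAlgebra.Projectivization
open Pool.Agent.N751.CV (prox BadP)

section

variable {M : Type} [Field M] [NumberField M]

theorem log_le {a b : ℝ} (d : ℕ) (hb : 0 < b) :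
    Real.log (max a 1 ^ d / b) ≤ d * Real.posLog a + Real.posLog b⁻¹ := by
  have h1 : (0 : ℝ) < max a 1 := lt_max_of_lt_right one_pos
  rw [Real.log_div (pow_pos h1 d).ne' hb.ne', Real.log_pow]
  have h2 : Real.log (max a 1) ≤ Real.posLog a := by
    rcases le_total a 1 with h | h
    · rw [max_eq_right h, Real.log_one]; exact Real.posLog_nonneg
    · rw [max_eq_left h]; exact le_max_right _ _
  have h3 : -Real.log b ≤ Real.posLog b⁻¹ := by
    rw [← Real.log_inv]; exact le_max_right _ _
  have h4 : (d : ℝ) * Real.log (max a 1) ≤ d * Real.posLog a :=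
    mul_le_mul_of_nonneg_left h2 (Nat.cast_nonneg _)
  linarith

theorem fin_supp (z : M) : (fun v : FinitePlace M => Real.posLog (v z)).HasFiniteSupport := by
  rcases eq_or_ne z 0 with rfl | hz
  · have : (fun v : FinitePlace M => Real.posLog (v 0)) = 0 := by
      funext v; simp
    rw [this]; exact (by simp [Function.HasFiniteSupport])
  · refine (FinitePlace.hasFiniteMulSupport hz).subset fun v hv => ?_
    rw [Function.mem_support] at hv
    rw [Function.mem_mulSupport]
    intro h
    apply hv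
    simp only [h, Real.posLog_one]

theorem prox_le {K : Type} [Field K] [Algebra K M] (S : Finset ℕ) (p : K[X]) (y : M)
    (h : aeval y p ≠ 0) : prox S p y ≤ p.natDegree * Height.logHeight₁ y +
      Height.logHeight₁ (aeval y p) := by
  classical
  rw [← Height.logHeight₁_inv (aeval y p), NumberField.logHeight₁_eq, NumberField.logHeight₁_eq]
  unfold prox
  have h1 : ∑ w : InfinitePlace M, (w.mult : ℝ) *
      Real.log (max (w y) 1 ^ p.natDegree / w (aeval y p)) ≤
      p.natDegree * (∑ w : InfinitePlace M, w.mult * Real.posLog (w y)) +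
        ∑ w : InfinitePlace M, w.mult * Real.posLog (w (aeval y p)⁻¹) := by
    rw [Finset.mul_sum, ← Finset.sum_add_distrib]
    refine Finset.sum_le_sum fun w _ => ?_
    have h2 := log_le (a := w y) (b := w (aeval y p)) p.natDegree (InfinitePlace.pos_iff.2 h)
    have h3 := mul_le_mul_of_nonneg_left h2 (Nat.cast_nonneg w.mult : (0 : ℝ) ≤ w.mult)
    rw [map_inv₀]
    linarith
  have h4 : (∑ᶠ v : HeightOneSpectrum (𝓞 M), if ∃ q ∈ S, (q : 𝓞 M) ∈ v.asIdeal then
      Real.log (max (FinitePlace.mk v y) 1 ^ p.natDegree / FinitePlace.mk v (aeval y p)) else 0) ≤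
      p.natDegree * (∑ᶠ w : FinitePlace M, Real.posLog (w y)) +
        ∑ᶠ w : FinitePlace M, Real.posLog (w (aeval y p)⁻¹) := by
    have e1 : (∑ᶠ w : FinitePlace M, Real.posLog (w y)) =
        ∑ᶠ v : HeightOneSpectrum (𝓞 M), Real.posLog (FinitePlace.mk v y) :=
      (finsum_comp_equiv FinitePlace.equivHeightOneSpectrum.symm).symm
    have e2 : (∑ᶠ w : FinitePlace M, Real.posLog (w (aeval y p)⁻¹)) =
        ∑ᶠ v : HeightOneSpectrum (𝓞 M), Real.posLog (FinitePlace.mk v (aeval y p)⁻¹) :=
      (finsum_comp_equiv FinitePlace.equivHeightOneSpectrum.symm).symm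
    have s1 : (fun v : HeightOneSpectrum (𝓞 M) => Real.posLog (FinitePlace.mk v y)).HasFiniteSupport :=
      (fin_supp y).preimage (FinitePlace.equivHeightOneSpectrum.symm.injective.injOn)
    have s2 : (fun v : HeightOneSpectrum (𝓞 M) =>
        Real.posLog (FinitePlace.mk v (aeval y p)⁻¹)).HasFiniteSupport :=
      (fin_supp (aeval y p)⁻¹).preimage (FinitePlace.equivHeightOneSpectrum.symm.injective.injOn)
    have s3 : (fun v : HeightOneSpectrum (𝓞 M) =>
        (p.natDegree : ℝ) * Real.posLog (FinitePlace.mk v y)).HasFiniteSupport :=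
      s1.subset fun v hv => by
        rw [Function.mem_support] at hv ⊢
        exact fun h => hv (by rw [h, mul_zero])
    rw [e1, e2, ← smul_eq_mul, smul_finsum' _ s1]
    simp only [smul_eq_mul]
    rw [← finsum_add_distrib s3 s2]
    have s4 : (fun v : HeightOneSpectrum (𝓞 M) =>
        (p.natDegree : ℝ) * Real.posLog (FinitePlace.mk v y) +
          Real.posLog (FinitePlace.mk v (aeval y p)⁻¹)).HasFiniteSupport :=
      (s3.union s2).subset (Function.support_add _ _)
    have hle : ∀ v : HeightOneSpectrum (𝓞 M), (if ∃ q ∈ S, (q : 𝓞 M) ∈ v.asIdeal then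
      Real.log (max (FinitePlace.mk v y) 1 ^ p.natDegree / FinitePlace.mk v (aeval y p)) else 0) ≤
        (p.natDegree : ℝ) * Real.posLog (FinitePlace.mk v y) +
          Real.posLog (FinitePlace.mk v (aeval y p)⁻¹) := by
      intro v
      have h5 := log_le (a := FinitePlace.mk v y) (b := FinitePlace.mk v (aeval y p)) p.natDegree
        (FinitePlace.pos_iff.2 h)
      split_ifs
      · rw [map_inv₀]
        exact h5
      · have h6 : (0 : ℝ) ≤ Real.posLog (FinitePlace.mk v y) := Real.posLog_nonneg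
        have h7 : (0 : ℝ) ≤ Real.posLog (FinitePlace.mk v (aeval y p)⁻¹) := Real.posLog_nonneg
        positivity
    by_cases hs : (Function.support fun v : HeightOneSpectrum (𝓞 M) =>
        if ∃ q ∈ S, (q : 𝓞 M) ∈ v.asIdeal then
      Real.log (max (FinitePlace.mk v y) 1 ^ p.natDegree / FinitePlace.mk v (aeval y p)) else 0).Finite
    · exact finsum_le_finsum' hs s4 hle
    · rw [finsum_of_infinite_support hs]
      exact finsum_nonneg fun v => by
        have h6 : (0 : ℝ) ≤ Real.posLog (FinitePlace.mk v y) := Real.posLog_nonneg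
        have h7 : (0 : ℝ) ≤ Real.posLog (FinitePlace.mk v (aeval y p)⁻¹) := Real.posLog_nonneg
        positivity
  linarith

end

theorem proxE (K A : Type) [Field K] [NumberField K] [CommRing A] [IsDomain A]
    [Algebra K A] [Algebra K[X] A] [IsScalarTower K K[X] A] [Module.Finite K[X] A]
    [FaithfulSMul K[X] A] (m : ℕ) (f : Fin m → A) (hm : 1 ≤ m) (hf : LinearIndependent K f)
    (htop : Ideal.span (Set.range f) = ⊤) : ∃ E : Set (ℙ K (Fin m → K)),
    (∀ U : ℝ, 0 ≤ U → {P : ℙ K (Fin m → K) | P ∈ E ∧ Height.logHeight P.rep ≤ U}.Finite ∧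
      ({P : ℙ K (Fin m → K) | P ∈ E ∧ Height.logHeight P.rep ≤ U}.ncard : ℝ) ≤
        Real.exp (m * U - √U)) ∧
    ∀ (p : K[X]), p.Monic → ∀ (S : Finset ℕ), (∀ q ∈ S, q.Prime) →
      ∀ κ : ℝ, 0 < κ → ∃ C : ℝ, ∀ (M : Type) [Field M] [NumberField M] [Algebra K M]
        (φ : A →ₐ[K] M) (P : ℙ K (Fin m → K)), P ∉ E → Function.Surjective φ →
        RingHom.ker φ = Ideal.span {mem f P.rep} → aeval (φ (algebraMap K[X] A X)) p ≠ 0 →
        prox S p (φ (algebraMap K[X] A X)) ≤ κ * Height.logHeight P.rep + C := by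
  classical
  have hcount := Pool.Agent.N572.DR.KE.countable_pol K
  obtain ⟨E, hE1, hE2⟩ := Pool.Agent.N572.DR.Diag.t (ℙ K (Fin m → K))
    ({p : K[X] // p.Monic} × {S : Finset ℕ // ∀ q ∈ S, q.Prime} × ℕ)
    (fun U P => Height.logHeight P.rep ≤ U) (fun U U' P h1 h2 => h2.trans h1)
    (fun j P => BadP f j.1.1 j.2.1.1 (1 / ((j.2.2 : ℝ) + 1)) P) (m : ℝ)
    (by exact_mod_cast hm) (by
      rintro ⟨⟨p, hp⟩, ⟨S, hS⟩, i⟩
      exact Pool.Agent.N751.CV.proxT K A m f hf htop p hp S hS (1 / ((i : ℝ) + 1)) (by positivity))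
  refine ⟨E, hE1, ?_⟩
  intro p hp S hS κ hκ
  obtain ⟨i, hi⟩ := exists_nat_one_div_lt hκ
  obtain ⟨U, hU0, hU⟩ := hE2 (⟨p, hp⟩, ⟨S, hS⟩, i)
  obtain ⟨C1, hC1⟩ := Pool.Agent.N265.CV.t K A m f hf
  obtain ⟨C2, hC20, hC2⟩ := Pool.Agent.N415.DRVK.ht_eval (k := K) p.natDegree p le_rfl
  obtain ⟨D, hD⟩ := Pool.Agent.N751.CV.finrank_le (K := K) f
  refine ⟨p.natDegree * |finrank K[X] A * U + C1| + (p.natDegree * |finrank K[X] A * U + C1| +
    D * C2), ?_⟩
  intro M _ _ _ φ P hPE hsurj hker hne
  have hh0 : 0 ≤ Height.logHeight P.rep := Height.logHeight_nonneg _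
  have hmem : mem f P.rep ≠ 0 := by
    intro h0
    have h1 : ∑ i, P.rep i • f i = 0 := h0
    exact P.rep_nonzero (funext (Fintype.linearIndependent_iff.1 hf P.rep h1))
  by_cases hbad : BadP f p S (1 / ((i : ℝ) + 1)) P
  · have hPU := hU P hPE hbad
    have h1 := hC1 M φ P.rep hsurj hker P.rep_nonzero
    have h2 : Height.logHeight₁ (φ (algebraMap K[X] A X)) ≤ |finrank K[X] A * U + C1| := by
      refine h1.trans (le_trans ?_ (le_abs_self _))
      have := mul_le_mul_of_nonneg_left hPU (Nat.cast_nonneg (finrank K[X] A) : (0 : ℝ) ≤ _)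
      linarith
    have h3 := hC2 M (φ (algebraMap K[X] A X))
    have h4 : finrank K M ≤ D := by
      have h5 := hD P.rep hmem
      rw [← hker] at h5
      have h6 : finrank K (A ⧸ RingHom.ker φ) = finrank K M :=
        (Ideal.quotientKerAlgEquivOfSurjective hsurj).toLinearEquiv.finrank_eq
      rwa [h6] at h5
    have h7 := prox_le S p (φ (algebraMap K[X] A X)) hne
    have h8 : (finrank K M : ℝ) * C2 ≤ D * C2 :=
      mul_le_mul_of_nonneg_right (by exact_mod_cast h4) hC20
    have h9 := mul_le_mul_of_nonneg_left h2 (Nat.cast_nonneg p.natDegree : (0 : ℝ) ≤ _)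
    have h10 := mul_nonneg hκ.le hh0
    linarith
  · have h1 : prox S p (φ (algebraMap K[X] A X)) ≤
        (1 / ((i : ℝ) + 1)) * Height.logHeight P.rep := by
      by_contra hlt
      exact hbad ⟨M, inferInstance, inferInstance, inferInstance, φ, hsurj, hker, hne,
        not_le.1 hlt⟩
    have h2 := mul_le_mul_of_nonneg_right hi.le hh0
    have h3 : 0 ≤ (p.natDegree : ℝ) * |finrank K[X] A * U + C1| := by positivity
    have h4 : 0 ≤ (D : ℝ) * C2 := by positivity
    linarith

end Pool.Agent.N753.DR.ProxE
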