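import Mathlib
import Pool.Agent.N753.DR.Stm6

/-!
# Project PC: statements on the proximity function of divisors over extensions of `K`
-/

set_option autoImplicit false

namespace Pool.Agent.N753.DR

open NumberField IsDedekindDomain Module Polynomial

section

open Classical in
/-- the sum of the local heights `log (∏ max(|x_i|, 1) ^ q_i / |g|)` over the infinite places (with
multiplicities) and the primes in `Z` -/
noncomputable def prZ {L : Type} [Field L] [NumberField L] {m : ℕ}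
    (Z : HeightOneSpectrum (𝓞 L) → Prop) (q : Fin m → ℕ) (x : Fin m → L) (g : L) : ℝ :=
  ∑ w : InfinitePlace L, (w.mult : ℝ) * Real.log ((∏ i, max (w (x i)) 1 ^ q i) / w g) +
    ∑ᶠ v : HeightOneSpectrum (𝓞 L), if Z v then
      Real.log ((∏ i, max (FinitePlace.mk v (x i)) 1 ^ q i) / FinitePlace.mk v g) else 0

end

/-- **PC/TRIV** the trivial bound -/
def StmTriv : Prop := ∀ (L : Type) [Field L] [NumberField L] (m : ℕ)
  (Z : HeightOneSpectrum (𝓞 L) → Prop) (q : Fin m → ℕ) (x : Fin m → L) (g : L), g ≠ 0 →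
  prZ Z q x g ≤ ∑ i, (q i : ℝ) * Height.logHeight₁ (x i) + Height.logHeight₁ g

/-- **PC/HTMV** the height of a value -/
def StmHtMv : Prop := ∀ (k : Type) [Field k] [NumberField k] (m : ℕ)
  (G : MvPolynomial (Fin m) k), ∃ C : ℝ, 0 ≤ C ∧ ∀ (L : Type) [Field L] [NumberField L]
    [Algebra k L] (x : Fin m → L), Height.logHeight₁ (MvPolynomial.aeval x G) ≤
      C * (∑ i, Height.logHeight₁ (x i) + finrank ℚ L)

/-- **PC/ZERO** few tuples lie on a given hypersurface -/
def StmZero : Prop := ∀ (K : Type) [Field K] [NumberField K] (m : ℕ) (r : Fin m → ℕ),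
  (∀ i, 1 ≤ r i) → ∀ G : MvPolynomial (Fin m) K, G ≠ 0 → ∃ ν C : ℝ, 0 < ν ∧ ∀ T : ℝ, 0 ≤ T →
    {P : Fin m → K[X] | (∃ (L : Type) (_ : Field L) (_ : NumberField L) (_ : Algebra K L)
      (x : Fin m → L), (∀ i, minpoly K (x i) = P i) ∧ MvPolynomial.aeval x G = 0) ∧
      HT r T P}.Finite ∧
    ({P : Fin m → K[X] | (∃ (L : Type) (_ : Field L) (_ : NumberField L) (_ : Algebra K L)
      (x : Fin m → L), (∀ i, minpoly K (x i) = P i) ∧ MvPolynomial.aeval x G = 0) ∧
      HT r T P}.ncard : ℝ) ≤ C * Real.exp ((∑ i, (r i : ℝ) * (r i + 1) - ν) * T)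

/-- outside `E` the tuples are not close to any divisor over `K` -/
def GoodProx {K : Type} [Field K] [NumberField K] {m : ℕ} (r : Fin m → ℕ)
    (E : Set (Fin m → K[X])) : Prop :=
  ∀ (q : Fin m → ℕ) (G : MvPolynomial (Fin m) K), G ≠ 0 → (∀ i, G.degreeOf i ≤ q i) →
    ∀ S : Finset ℕ, (∀ p ∈ S, p.Prime) → ∀ κ : ℝ, 0 < κ → ∃ C : ℝ, 0 ≤ C ∧
      ∀ (L : Type) [Field L] [NumberField L] [Algebra K L] (x : Fin m → L),
        (∀ i, (minpoly K (x i)).natDegree = r i) → (fun i => minpoly K (x i)) ∉ E →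
        (MvPolynomial.aeval x G ≠ 0 →
          proxM S q G x ≤ κ * ∑ i, Height.logHeight₁ (x i) + finrank ℚ L * C) ∧
        (MvPolynomial.aeval x G = 0 → ∑ i, Height.logHeight₁ (x i) ≤ finrank ℚ L * C)

/-- **PC/PRK** outside `E` the tuples are not close to any divisor over an extension `k` of `K` -/
def StmPrk : Prop := ∀ (K : Type) [Field K] [NumberField K] (m : ℕ) (r : Fin m → ℕ)
  (E : Set (Fin m → K[X])), GoodProx r E →
  ∀ (k : Type) [Field k] [NumberField k] [Algebra K k] (q : Fin m → ℕ)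
    (G : MvPolynomial (Fin m) k), G ≠ 0 → (∀ i, G.degreeOf i ≤ q i) →
    ∀ (S : Finset (HeightOneSpectrum (𝓞 k))) (κ : ℝ), 0 < κ → ∃ C : ℝ, 0 ≤ C ∧
      ∀ (L : Type) [Field L] [NumberField L] [Algebra K L] [Algebra k L] [IsScalarTower K k L]
        (x : Fin m → L), (∀ i, (minpoly K (x i)).natDegree = r i) →
        (fun i => minpoly K (x i)) ∉ E → MvPolynomial.aeval x G ≠ 0 →
        prZ (fun v => ∃ p ∈ S, v.asIdeal.comap (algebraMap (𝓞 k) (𝓞 L)) = p.asIdeal) q x
            (MvPolynomial.aeval x G) ≤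
          κ * ∑ i, Height.logHeight₁ (x i) + finrank ℚ L * C

end Pool.Agent.N753.DR
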