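import Mathlib
import Pool.Agent.N753.DR.Stm

/-!
# Project DR: coordinate changes
-/

set_option autoImplicit false

namespace Pool.Agent.N753.DR

open NumberField IsDedekindDomain Module Polynomial

/-- **DR/VKG** all coordinates `x = (al * t + be) / (ga * t + de)` over `K` -/
def StmVkG : Prop := ∀ (K : Type) [Field K] [NumberField K] (r : ℕ), 1 ≤ r → ∃ E : Set K[X],
  (∀ U : ℝ, 0 ≤ U → {p | p ∈ E ∧ AtH r U p}.Finite ∧
    ({p | p ∈ E ∧ AtH r U p}.ncard : ℝ) ≤ 2 * Real.exp ((r + 1) * U - √U)) ∧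
  ∀ (k : Type) [Field k] [NumberField k] [Algebra K k] (q : ℕ) (a : Fin q → k),
    Function.Injective a → (∀ j, (minpoly K (a j)).natDegree ≤ 2 * r + 1) →
    ∀ (al be ga de : K), al * de - be * ga ≠ 0 → ∀ (S : Finset ℕ)
    (κ : ℝ), 0 < κ → ∃ C : ℝ, ∀ (M : Type) [Field M] [NumberField M] [Algebra K M] [Algebra k M]
      [IsScalarTower K k M] (t x : M), IntermediateField.adjoin k {t} = ⊤ →
      x * (algebraMap K M ga * t + algebraMap K M de) =
        algebraMap K M al * t + algebraMap K M be →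
      algebraMap K M ga * t + algebraMap K M de ≠ 0 →
      (minpoly K x).natDegree = r → minpoly K x ∉ E → (∀ j, t ≠ algebraMap k M (a j)) →
      ∀ W : Finset (HeightOneSpectrum (𝓞 M)),
        (∀ w, (∀ p ∈ S, p ≠ 0 → (p : 𝓞 M) ∉ w.asIdeal) → w.valuation M t ≤ 1 →
          (∃ j, w.valuation M (t - algebraMap k M (a j)) < 1) → w ∈ W) →
        (q - κ) * Height.logHeight₁ t ≤ ∑ w ∈ W, lN w + C

end Pool.Agent.N753.DR
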