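import Mathlib
import Pool.Agent.N753.DR.Stm2

/-!
# Project CV: covers
-/

set_option autoImplicit false

namespace Pool.Agent.N753.DR

open NumberField IsDedekindDomain Module Polynomial

/-- **CV/KEYB** primes of `L` at which the point `P` of the cover `A'` of `A` meets the fibre over
one of the closed points of `A` with the equations `g_j`: either `P` meets `D_j` (with equations
`y_j`), or the prime is counted with the ideal `F_j`, where `D_j` and the zeros of `F_j` contain the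
fibre. -/
def StmKeyB : Prop := ∀ (K A A' : Type) [Field K] [NumberField K] [CommRing A] [Algebra K[X] A]
  [CommRing A'] [IsDedekindDomain A']
  [Algebra K A'] [Algebra K[X] A'] [IsScalarTower K K[X] A'] [Module.Finite K[X] A']
  [FaithfulSMul K[X] A'] (π : A →ₐ[K[X]] A') (q : ℕ) (u v : Fin q → ℕ) (g : ∀ j, Fin (u j) → A)
  (y : ∀ j, Fin (v j) → A') (F : Fin q → Ideal A'), (∀ j, F j ≠ ⊥) →
  (∀ j i, ∀ f ∈ F j, y j i * f ∈ (Ideal.span (Set.range fun l => π (g j l))).radical) →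
  ∀ ε : ℝ, 0 < ε → ∃ (T : ℕ) (C : ℝ) (G : ℚ[X]), T ≠ 0 ∧ 0 ≤ C ∧ G ≠ 0 ∧
    ∀ (S : Finset ℕ) (L : Type) [Field L] [NumberField L] [Algebra K L] (P : A' →ₐ[K] L),
      aeval (P (algebraMap K[X] A' X)) G ≠ 0 → (∀ j, ∃ l, P (π (g j l)) ≠ 0) →
      ∀ W W' : Finset (HeightOneSpectrum (𝓞 L)),
        (∀ w ∈ W, (T : 𝓞 L) ∉ w.asIdeal ∧ (∀ p ∈ S, (p : 𝓞 L) ∉ w.asIdeal) ∧
          w.valuation L (P (algebraMap K[X] A' X)) ≤ 1 ∧
          ∃ j, ∀ l, w.valuation L (P (π (g j l))) < 1) →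
        (∀ w, (∀ p ∈ S, (p : 𝓞 L) ∉ w.asIdeal) →
          w.valuation L (P (algebraMap K[X] A' X)) ≤ 1 →
          (∃ j, (∀ l, w.valuation L (P (π (g j l))) < 1) ∧
            ∀ i, w.valuation L (P (y j i)) < 1) → w ∈ W') →
        ∑ w ∈ W, lN w ≤ ∑ w ∈ W', lN w +
          ((∑ j, (finrank K (A' ⧸ F j) : ℝ)) / finrank K[X] A' + ε) *
            Height.logHeight₁ (P (algebraMap K[X] A' X)) + finrank ℚ L * C

end Pool.Agent.N753.DR
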