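import Pool.Agent.N753.DR.FinCV
import Pool.Agent.N753.DR.Stm5

/-!
# Project CV: points of covers
-/

set_option autoImplicit false

namespace Pool.Agent.N753.DR

open NumberField IsDedekindDomain Module Polynomial
open scoped LinearAlgebra.Projectivization

theorem val_lt_iff {K k : Type} [Field K] [NumberField K] [Field k] [NumberField k] [Algebra K k]
    (v : HeightOneSpectrum (𝓞 K)) (w : HeightOneSpectrum (𝓞 k)) [w.asIdeal.LiesOver v.asIdeal]
    (z : K) : w.valuation k (algebraMap K k z) < 1 ↔ v.valuation K z < 1 := by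
  have he : v.asIdeal.ramificationIdx' w.asIdeal ≠ 0 :=
    Ideal.IsDedekindDomain.ramificationIdx'_ne_zero_of_liesOver w.asIdeal v.ne_bot
  rw [← HeightOneSpectrum.valuation_liesOver k v w]
  exact pow_lt_one_iff_of_nonneg zero_le he

theorem val_le_iff {K k : Type} [Field K] [NumberField K] [Field k] [NumberField k] [Algebra K k]
    (v : HeightOneSpectrum (𝓞 K)) (w : HeightOneSpectrum (𝓞 k)) [w.asIdeal.LiesOver v.asIdeal]
    (z : K) : w.valuation k (algebraMap K k z) ≤ 1 ↔ v.valuation K z ≤ 1 := by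
  have he : v.asIdeal.ramificationIdx' w.asIdeal ≠ 0 :=
    Ideal.IsDedekindDomain.ramificationIdx'_ne_zero_of_liesOver w.asIdeal v.ne_bot
  rw [← HeightOneSpectrum.valuation_liesOver k v w]
  exact pow_le_one_iff_of_nonneg zero_le he

/-- **points of covers** -/
theorem cov (hKB : StmKeyB) {K A : Type} [Field K] [NumberField K] [CommRing A] [IsDomain A]
    [Algebra K A] [Algebra K[X] A] [IsScalarTower K K[X] A] [Module.Finite K[X] A]
    [FaithfulSMul K[X] A] (hN : 1 ≤ finrank K[X] A) {m : ℕ} (f : Fin m → A)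
    (E : Set (ℙ K (Fin m → K)))
    (A' : Type) [CommRing A'] [IsDedekindDomain A'] [Algebra K A'] [Algebra K[X] A']
    [IsScalarTower K K[X] A'] [Module.Finite K[X] A'] [FaithfulSMul K[X] A'] (π : A →ₐ[K[X]] A')
    (q : ℕ) (u v : Fin q → ℕ) (g : ∀ j, Fin (u j) → A) (y : ∀ j, Fin (v j) → A')
    (F : Fin q → Ideal A') (hF : ∀ j, F j ≠ ⊥)
    (hyF : ∀ j i, ∀ b ∈ F j, y j i * b ∈ (Ideal.span (Set.range fun l => π (g j l))).radical)
    (hmax : ∀ j, (Ideal.span (Set.range (g j))).IsMaximal)
    (S : Finset ℕ) (hS : ∀ l ∈ S, l.Prime) (D G CH : ℝ) (hG : 0 ≤ G)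
    (hT : ∀ (T : Finset ℕ) (κ : ℝ), 0 < κ → ∃ C : ℝ,
        ∀ (M : Type) [Field M] [NumberField M] [Algebra K M] (φ : A →ₐ[K] M)
          (P : ℙ K (Fin m → K)), P ∉ E → Function.Surjective φ →
          RingHom.ker φ = Ideal.span {mem f P.rep} →
          (∀ j, RingHom.ker φ ≠ Ideal.span (Set.range (g j))) →
          ∃ W : Finset (HeightOneSpectrum (𝓞 M)), (∀ w ∈ W, ∃ j, NearC T (g j) φ w) ∧
            (D - κ) * Height.logHeight P.rep ≤ ∑ w ∈ W, lN w + C)
    (hD : ∃ C : ℝ, ∀ (M : Type) [Field M] [NumberField M] [Algebra K M] (φ : A →ₐ[K] M)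
        (P : ℙ K (Fin m → K)), P ∉ E → Function.Surjective φ →
        RingHom.ker φ = Ideal.span {mem f P.rep} →
        G * Height.logHeight P.rep ≤ Real.log |(discr M : ℝ)| + C)
    (hH : ∀ (M : Type) [Field M] [NumberField M] [Algebra K M] (φ : A →ₐ[K] M)
        (P : ℙ K (Fin m → K)), Function.Surjective φ →
        RingHom.ker φ = Ideal.span {mem f P.rep} →
        Height.logHeight₁ (φ (algebraMap K[X] A X)) ≤
          finrank K[X] A * Height.logHeight P.rep + CH)
    (hD0 : 0 ≤ D) (ε : ℝ) (hε : 0 < ε) :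
    ∃ c : ℝ, ∀ (L : Type) [Field L] [NumberField L] [Algebra K L] (R : A' →ₐ[K] L)
      (P : ℙ K (Fin m → K)), P ∉ E →
      RingHom.ker ((R : A' →+* L).comp (π : A →+* A')) = Ideal.span {mem f P.rep} →
      (∀ j, RingHom.ker ((R : A' →+* L).comp (π : A →+* A')) ≠ Ideal.span (Set.range (g j))) →
      ∀ W' : Finset (HeightOneSpectrum (𝓞 L)),
        (∀ w, (∀ p ∈ S, (p : 𝓞 L) ∉ w.asIdeal) →
          w.valuation L (R (algebraMap K[X] A' X)) ≤ 1 →
          (∃ j, (∀ l, w.valuation L (R (π (g j l))) < 1) ∧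
            ∀ i, w.valuation L (R (y j i)) < 1) → w ∈ W') →
        (D + G - ((∑ j, (finrank K (A' ⧸ F j) : ℝ)) * finrank K[X] A / finrank K[X] A') - ε) *
            (Height.logHeight₁ (R (algebraMap K[X] A' X)) / finrank K[X] A) ≤
          ∑ w ∈ W', lN w + Real.log |(discr L : ℝ)| + finrank ℚ L * c := by
  classical
  have hN0 : (0 : ℝ) < finrank K[X] A := by exact_mod_cast hN
  obtain ⟨T, Ck, Gp, hT0, hCk, hGp, hkey⟩ := hKB K A A' π q u v g y F hF hyF
    (ε / (2 * finrank K[X] A)) (by positivity)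
  obtain ⟨C1, h1⟩ := hT (insert T S) (ε / 2) (half_pos hε)
  obtain ⟨C2, h2⟩ := hD
  obtain ⟨C3, hC3, hbdd⟩ := bdd (k := K) Gp hGp
  have hA'0 : 0 ≤ ((∑ j, (finrank K (A' ⧸ F j) : ℝ)) * finrank K[X] A / finrank K[X] A') := by
    positivity
  set a : ℝ := D + G - ε / 2 with ha
  refine ⟨max ((D + G) * (C3 / finrank K[X] A)) (Ck + max C1 0 + max C2 0 +
    |a| * (max CH 0 / finrank K[X] A)), ?_⟩
  intro L _ _ _ R P hP hker hne W' hW'
  set t := R (algebraMap K[X] A' X) with ht
  have hnL : (0 : ℝ) < finrank ℚ L := by exact_mod_cast finrank_pos (R := ℚ) (M := L)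
  have hfdK : FiniteDimensional K L := FiniteDimensional.right ℚ K L
  have hW'0 : 0 ≤ ∑ w ∈ W', lN w := Finset.sum_nonneg fun w _ => Real.log_natCast_nonneg _
  have hdL := ldiscr_nonneg L
  have hht := Height.zero_le_logHeight₁ t
  -- the point of the curve
  let x : A →ₐ[K] L :=
    { (R : A' →+* L).comp (π : A →+* A') with
      commutes' := fun c => by
        show R (π (algebraMap K A c)) = algebraMap K L c
        have e1 : algebraMap K A c = algebraMap K[X] A (Polynomial.C c) :=
          IsScalarTower.algebraMap_apply K K[X] A c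
        have e2 : algebraMap K[X] A' (Polynomial.C c) = algebraMap K A' c :=
          (IsScalarTower.algebraMap_apply K K[X] A' c).symm
        rw [e1, AlgHom.commutes, e2, AlgHom.commutes] }
  have hxker : RingHom.ker x = RingHom.ker ((R : A' →+* L).comp (π : A →+* A')) := rfl
  have hxt : x (algebraMap K[X] A X) = t := by
    show R (π (algebraMap K[X] A X)) = t
    rw [AlgHom.commutes]
  by_cases hGt : aeval t Gp ≠ 0
  · have hxmax := ker_max x
    obtain ⟨M, _, _, _, ψ, hψs, hψk, -, hψ⟩ := exists_field' (K := K) (RingHom.ker x) hxmax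
    obtain ⟨ι, hι⟩ := hψ L x rfl
    let _ : Algebra M L := ι.toRingHom.toAlgebra
    have halg : ∀ z : M, algebraMap M L z = ι z := fun z => rfl
    have htow : IsScalarTower K M L := IsScalarTower.of_algebraMap_eq fun c => (ι.commutes c).symm
    have hkM : RingHom.ker ψ = Ideal.span {mem f P.rep} := by rw [hψk, hxker, hker]
    have hneM : ∀ j, RingHom.ker ψ ≠ Ideal.span (Set.range (g j)) := by
      intro j
      rw [hψk, hxker]
      exact hne j
    obtain ⟨WM, hWM1, hWM2⟩ := h1 M ψ P hP hψs hkM hneM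
    have h3 := h2 M ψ P hP hψs hkM
    have h4 := hH M ψ P hψs hkM
    have hnz : ∀ j, ∃ l, R (π (g j l)) ≠ 0 := by
      intro j
      by_contra hcon
      push Not at hcon
      apply hne j
      refine ((hmax j).eq_of_le (RingHom.ker_ne_top _) ?_).symm
      rw [Ideal.span_le]
      rintro _ ⟨l, rfl⟩
      exact hcon l
    have hnz' := hnz
    choose l hl using hnz
    have hfin : {w : HeightOneSpectrum (𝓞 L) | (T : 𝓞 L) ∉ w.asIdeal ∧
        (∀ p ∈ S, (p : 𝓞 L) ∉ w.asIdeal) ∧ w.valuation L t ≤ 1 ∧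
        ∃ j, ∀ l, w.valuation L (R (π (g j l))) < 1}.Finite := by
      refine (Set.finite_iUnion fun j => Pool.Agent.Y729.RV.val_fin (hl j)).subset ?_
      rintro w ⟨-, -, -, j, hj⟩
      exact Set.mem_iUnion.2 ⟨j, hj (l j)⟩
    have h5 := Pool.Agent.Y729.RV.base_change (k := M) (L := L) WM hfin.toFinset (by
      intro w hw w' hlo
      rw [Set.Finite.mem_toFinset]
      obtain ⟨j, g1, g2, g3⟩ := hWM1 w hw
      have hcast : ∀ p : ℕ, (p : 𝓞 L) ∈ w'.asIdeal ↔ (p : 𝓞 M) ∈ w.asIdeal := by
        intro p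
        rw [Ideal.mem_of_liesOver w'.asIdeal w.asIdeal, map_natCast]
      refine ⟨?_, ?_, ?_, j, ?_⟩
      · rw [hcast]
        exact g1 T (Finset.mem_insert_self _ _) hT0
      · intro p hp
        rw [hcast]
        exact g1 p (Finset.mem_insert_of_mem hp) (hS p hp).ne_zero
      · rw [← hxt, ← hι, ← halg, val_le_iff w w']
        exact g2
      · intro i
        have e1 : R (π (g j i)) = algebraMap M L (ψ (g j i)) := by
          rw [halg, hι]
          rfl
        rw [e1, val_lt_iff w w']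
        exact g3 i)
    have h6 := hkey S L R hGt hnz' hfin.toFinset W' (by
      intro w hw
      rw [Set.Finite.mem_toFinset] at hw
      exact hw) hW'
    have h7 : Height.logHeight₁ t = finrank M L *
        Height.logHeight₁ (ψ (algebraMap K[X] A X)) := by
      rw [← hxt, ← hι, ← halg]
      exact Pool.Agent.N572.DR.Inv.ht_ext _
    have hfdM : FiniteDimensional M L := FiniteDimensional.right ℚ M L
    have hn0 : (0 : ℝ) < finrank M L := by exact_mod_cast finrank_pos (R := M) (M := L)
    have hnle : (finrank M L : ℝ) ≤ finrank ℚ L := by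
      have e1 := finrank_mul_finrank ℚ M L
      have e2 : 0 < finrank ℚ M := finrank_pos
      have e3 : finrank M L ≤ finrank ℚ L := by
        rw [← e1]
        exact Nat.le_mul_of_pos_left _ e2
      exact_mod_cast e3
    have hsum : ∑ w ∈ hfin.toFinset, Real.log (Ideal.absNorm w.asIdeal : ℝ) =
      ∑ w ∈ hfin.toFinset, lN w := rfl
    have hsumM : ∑ w ∈ WM, Real.log (Ideal.absNorm w.asIdeal : ℝ) = ∑ w ∈ WM, lN w := rfl
    rw [hsum, hsumM] at h5
    rw [← ht] at h6
    obtain ⟨X0, hX0⟩ : ∃ X0 : ℝ, X0 = (∑ j, (finrank K (A' ⧸ F j) : ℝ)) * finrank K[X] A /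
      finrank K[X] A' := ⟨_, rfl⟩
    rw [← hX0] at hA'0 ⊢
    obtain ⟨s, hs⟩ : ∃ s : ℝ, s = Height.logHeight₁ t / finrank K[X] A := ⟨_, rfl⟩
    have hs0 : 0 ≤ s := by rw [hs]; positivity
    rw [← hs]
    have h8 : ((∑ j, (finrank K (A' ⧸ F j) : ℝ)) / finrank K[X] A' +
        ε / (2 * finrank K[X] A)) * Height.logHeight₁ t = (X0 + ε / 2) * s := by
      rw [hs, hX0]
      field_simp
    rw [h8] at h6
    obtain ⟨h, hh⟩ : ∃ h : ℝ, h = Height.logHeight P.rep := ⟨_, rfl⟩
    rw [← hh] at hWM2 h3 h4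
    have hmain : a * s ≤ finrank M L * (∑ w ∈ WM, lN w + Real.log |(discr M : ℝ)|) +
        finrank ℚ L * (max C1 0 + max C2 0 + |a| * (max CH 0 / finrank K[X] A)) := by
      have hmx : 0 ≤ max C1 0 + max C2 0 + |a| * (max CH 0 / finrank K[X] A) := by positivity
      rcases le_or_gt 0 a with ha0 | ha0
      · have h9 : Height.logHeight₁ (ψ (algebraMap K[X] A X)) / finrank K[X] A ≤
            h + max CH 0 / finrank K[X] A := by
          rw [div_le_iff₀ hN0, add_mul, div_mul_cancel₀ _ hN0.ne']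
          have := le_max_left CH 0
          linarith
        have h10 : a * h ≤ ∑ w ∈ WM, lN w + Real.log |(discr M : ℝ)| + (C1 + C2) := by
          rw [ha]
          linarith
        have h11 : a * (Height.logHeight₁ (ψ (algebraMap K[X] A X)) / finrank K[X] A) ≤
            ∑ w ∈ WM, lN w + Real.log |(discr M : ℝ)| +
              (max C1 0 + max C2 0 + |a| * (max CH 0 / finrank K[X] A)) := by
          have e1 := mul_le_mul_of_nonneg_left h9 ha0
          have e2 := le_max_left C1 0
          have e3 := le_max_left C2 0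
          rw [abs_of_nonneg ha0]
          linarith
        have h12 := mul_le_mul_of_nonneg_left h11 hn0.le
        have h13 : a * s = finrank M L *
            (a * (Height.logHeight₁ (ψ (algebraMap K[X] A X)) / finrank K[X] A)) := by
          rw [hs, h7]
          ring
        rw [h13]
        have h14 := mul_le_mul_of_nonneg_right hnle hmx
        linarith
      · have h9 : a * s ≤ 0 := mul_nonpos_of_nonpos_of_nonneg ha0.le hs0
        have h10 : 0 ≤ ∑ w ∈ WM, lN w := Finset.sum_nonneg fun w _ => Real.log_natCast_nonneg _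
        have h11 := ldiscr_nonneg M
        have h12 : 0 ≤ (finrank M L : ℝ) * (∑ w ∈ WM, lN w + Real.log |(discr M : ℝ)|) := by
          positivity
        have h13 : 0 ≤ (finrank ℚ L : ℝ) *
          (max C1 0 + max C2 0 + |a| * (max CH 0 / finrank K[X] A)) := by positivity
        linarith
    have h15 : (finrank ℚ L : ℝ) * (Ck + max C1 0 + max C2 0 +
          |a| * (max CH 0 / finrank K[X] A)) ≤ finrank ℚ L *
        max ((D + G) * (C3 / finrank K[X] A)) (Ck + max C1 0 + max C2 0 +
          |a| * (max CH 0 / finrank K[X] A)) :=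
      mul_le_mul_of_nonneg_left (le_max_right _ _) hnL.le
    have h16 : (D + G - X0 - ε) * s = a * s - (X0 + ε / 2) * s := by rw [ha]; ring
    rw [h16]
    nlinarith
  · rw [not_not] at hGt
    have hfd' : FiniteDimensional K (IntermediateField.adjoin K {t}) :=
      FiniteDimensional.right ℚ K _
    have hg : aeval (IntermediateField.AdjoinSimple.gen K t) Gp = 0 := by
      apply (algebraMap (IntermediateField.adjoin K {t}) L).injective
      rw [map_zero, ← aeval_algebraMap_apply]
      exact hGt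
    have hdeg : (minpoly K (IntermediateField.AdjoinSimple.gen K t)).natDegree =
        finrank K (IntermediateField.adjoin K {t}) := by
      rw [IntermediateField.minpoly_gen,
        IntermediateField.adjoin.finrank (IsIntegral.of_finite K t)]
    obtain ⟨h1', -⟩ := hbdd (IntermediateField.adjoin K {t})
      (IntermediateField.AdjoinSimple.gen K t) hdeg hg
    have hFL : (finrank (IntermediateField.adjoin K {t}) L : ℝ) ≤ finrank ℚ L := by
      have e1 := finrank_mul_finrank ℚ (IntermediateField.adjoin K {t}) L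
      have e2 : 0 < finrank ℚ (IntermediateField.adjoin K {t}) := finrank_pos
      have e3 : finrank (IntermediateField.adjoin K {t}) L ≤ finrank ℚ L := by
        rw [← e1]
        exact Nat.le_mul_of_pos_left _ e2
      exact_mod_cast e3
    have h4 : Height.logHeight₁ t ≤ finrank ℚ L * C3 := by
      rw [gen_ht (k := K) t]
      calc (finrank (IntermediateField.adjoin K {t}) L : ℝ) *
            Height.logHeight₁ (IntermediateField.AdjoinSimple.gen K t) ≤
          finrank (IntermediateField.adjoin K {t}) L * C3 :=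
            mul_le_mul_of_nonneg_left h1' (Nat.cast_nonneg _)
        _ ≤ _ := mul_le_mul_of_nonneg_right hFL hC3
    have h5 : Height.logHeight₁ t / finrank K[X] A ≤ finrank ℚ L * (C3 / finrank K[X] A) := by
      rw [div_le_iff₀ hN0]
      have e1 : (finrank ℚ L : ℝ) * (C3 / finrank K[X] A) * finrank K[X] A = finrank ℚ L * C3 := by
        field_simp
      rw [e1]
      exact h4
    have h6 : 0 ≤ Height.logHeight₁ t / finrank K[X] A := div_nonneg hht hN0.le
    have h7 : (D + G - ((∑ j, (finrank K (A' ⧸ F j) : ℝ)) * finrank K[X] A / finrank K[X] A') -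
        ε) * (Height.logHeight₁ t / finrank K[X] A) ≤
        (D + G) * (finrank ℚ L * (C3 / finrank K[X] A)) := by
      calc _ ≤ (D + G) * (Height.logHeight₁ t / finrank K[X] A) :=
            mul_le_mul_of_nonneg_right (by linarith) h6
        _ ≤ _ := mul_le_mul_of_nonneg_left h5 (by positivity)
    have h8 : (finrank ℚ L : ℝ) * ((D + G) * (C3 / finrank K[X] A)) ≤ finrank ℚ L *
        max ((D + G) * (C3 / finrank K[X] A)) (Ck + max C1 0 + max C2 0 +
          |a| * (max CH 0 / finrank K[X] A)) :=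
      mul_le_mul_of_nonneg_left (le_max_left _ _) hnL.le
    linarith

section

variable {K A : Type} [Field K] [NumberField K] [CommRing A] [Algebra K A] [Algebra K[X] A]

/-- the clause of `StmMainC` on the discriminants -/
def DisC {m : ℕ} (f : Fin m → A) (E : Set (ℙ K (Fin m → K))) (G : ℝ) : Prop :=
  ∃ C : ℝ, ∀ (M : Type) [Field M] [NumberField M] [Algebra K M] (φ : A →ₐ[K] M)
        (P : ℙ K (Fin m → K)), P ∉ E → Function.Surjective φ →
        RingHom.ker φ = Ideal.span {mem f P.rep} →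
        G * Height.logHeight P.rep ≤ Real.log |(discr M : ℝ)| + C

/-- the clause of `StmMainC` on the heights -/
def HtC {m : ℕ} (f : Fin m → A) (C : ℝ) : Prop :=
  ∀ (M : Type) [Field M] [NumberField M] [Algebra K M] (φ : A →ₐ[K] M)
        (P : ℙ K (Fin m → K)), Function.Surjective φ →
        RingHom.ker φ = Ideal.span {mem f P.rep} →
        Height.logHeight₁ (φ (algebraMap K[X] A X)) ≤
          finrank K[X] A * Height.logHeight P.rep + C

theorem cov2 (hKB : StmKeyB) [IsDomain A] [IsScalarTower K K[X] A] [Module.Finite K[X] A]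
    [FaithfulSMul K[X] A] (hN : 1 ≤ finrank K[X] A) {m : ℕ} (f : Fin m → A)
    (E : Set (ℙ K (Fin m → K)))
    (A' : Type) [CommRing A'] [IsDedekindDomain A'] [Algebra K A'] [Algebra K[X] A']
    [IsScalarTower K K[X] A'] [Module.Finite K[X] A'] [FaithfulSMul K[X] A'] (π : A →ₐ[K[X]] A')
    (q : ℕ) (u v : Fin q → ℕ) (g : ∀ j, Fin (u j) → A) (y : ∀ j, Fin (v j) → A')
    (F : Fin q → Ideal A') (hF : ∀ j, F j ≠ ⊥)
    (hyF : ∀ j i, ∀ b ∈ F j, y j i * b ∈ (Ideal.span (Set.range fun l => π (g j l))).radical)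
    (hmax : ∀ j, (Ideal.span (Set.range (g j))).IsMaximal)
    (hdist : ∀ i j, i ≠ j → Ideal.span (Set.range (g i)) ≠ Ideal.span (Set.range (g j)))
    (d : ℕ) (hdeg : ∀ j, finrank K (A ⧸ Ideal.span (Set.range (g j))) ≤ d)
    (hw : ∀ (L : Type) [Field L] [NumberField L] [Algebra K L] (ψ : A →ₐ[K] L),
      Function.Surjective ψ → finrank K L ≤ d → Wide K (fun i => ψ (f i)))
    (S : Finset ℕ) (hS : ∀ l ∈ S, l.Prime) (G CH : ℝ) (hG : 0 ≤ G)
    (hT : TrC f E) (hD : DisC f E G) (hH : HtC (K := K) f CH) (ε : ℝ) (hε : 0 < ε) :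
    ∃ c : ℝ, ∀ (L : Type) [Field L] [NumberField L] [Algebra K L] (R : A' →ₐ[K] L)
      (P : ℙ K (Fin m → K)), P ∉ E →
      RingHom.ker ((R : A' →+* L).comp (π : A →+* A')) = Ideal.span {mem f P.rep} →
      (∀ j, RingHom.ker ((R : A' →+* L).comp (π : A →+* A')) ≠ Ideal.span (Set.range (g j))) →
      ∀ W' : Finset (HeightOneSpectrum (𝓞 L)),
        (∀ w, (∀ p ∈ S, (p : 𝓞 L) ∉ w.asIdeal) →
          w.valuation L (R (algebraMap K[X] A' X)) ≤ 1 →
          (∃ j, (∀ l, w.valuation L (R (π (g j l))) < 1) ∧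
            ∀ i, w.valuation L (R (y j i)) < 1) → w ∈ W') →
        (∑ j, (finrank K (A ⧸ Ideal.span (Set.range (g j))) : ℝ) + G -
            ((∑ j, (finrank K (A' ⧸ F j) : ℝ)) * finrank K[X] A / finrank K[X] A') - ε) *
            (Height.logHeight₁ (R (algebraMap K[X] A' X)) / finrank K[X] A) ≤
          ∑ w ∈ W', lN w + Real.log |(discr L : ℝ)| + finrank ℚ L * c := by
  refine cov hKB hN f E A' π q u v g y F hF hyF hmax S hS
    (∑ j, (finrank K (A ⧸ Ideal.span (Set.range (g j))) : ℝ)) G CH hG ?_ hD hH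
    (Finset.sum_nonneg fun j _ => Nat.cast_nonneg _) ε hε
  intro T κ hκ
  exact hT q u g hmax hdist (fun j => by
    obtain ⟨L, _, _, _, ψ, g1, g2, g3⟩ := exists_field (K := K) _ (hmax j)
    exact ⟨L, inferInstance, inferInstance, inferInstance, ψ, g1, g2,
      hw L ψ g1 (by rw [g3]; exact hdeg j)⟩) T κ hκ

end

end Pool.Agent.N753.DR
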