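import Pool.Agent.N753.DR.AllDR
import Pool.Agent.N753.DR.Stm4
import Pool.Agent.N394.CV.TypB
import Pool.Agent.N966.CV.LargeB
import Pool.Agent.N966.CV.SmallB
import Pool.Agent.N966.CV.PlacesB
import Pool.Agent.N490.CV.CoreB
import Pool.Agent.N328.CV.CoreV
import Pool.Agent.N488.CV.LinkC
import Pool.Agent.N498.CV.Redc
import Pool.Agent.N849.CV.CntC
import Pool.Agent.N265.CV.Htc
import Pool.Agent.N752.CV.UniC
import Pool.Agent.N752.CV.ZeroC
import Pool.Agent.N650.CV.FldC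
import Pool.Agent.N776.CV.VnC
import Pool.Agent.N776.CV.Sep
import Pool.Agent.N297.CV.MainC
import Pool.Agent.N868.CV.Grow

/-!
# Project CV: the parts together
-/

set_option autoImplicit false

namespace Pool.Agent.N753.DR

theorem coreV : StmCoreV :=
  Pool.Agent.N328.CV.t (Pool.Agent.N490.CV.CoreB.t Pool.Agent.N394.CV.t
    (Pool.Agent.N966.CV.LargeB.t Pool.Agent.N147.DR.t Pool.Agent.N394.CV.t)
    (Pool.Agent.N966.CV.SmallB.t Pool.Agent.N394.CV.t) Pool.Agent.N966.CV.PlacesB.t)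

theorem cntC : StmCntC :=
  Pool.Agent.N849.CVN.cntC coreV Pool.Agent.N488.CV.t Pool.Agent.N498.CV.t

theorem mainC : StmMainC :=
  Pool.Agent.N297.CV.MainC.t Pool.Agent.N572.DR.Diag.t cntC Pool.Agent.N265.CV.t
    Pool.Agent.N752.CV.t (Pool.Agent.N752.CV.t2 Pool.Agent.N498.CV.t)
    (Pool.Agent.N650.CV.FldC.t Pool.Agent.N265.CV.t) Pool.Agent.N776.CV.t

end Pool.Agent.N753.DR
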