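import Pool.Agent.N753.DR.Stm6
import Pool.Agent.N753.DR.AllDR

/-!
# Project PC: one exceptional set of tuples of points
-/

set_option autoImplicit false

namespace Pool.Agent.N753.DR

open NumberField IsDedekindDomain Module Polynomial Height

section ht

variable {K : Type} [Field K] [NumberField K]

theorem atH_mono {r : ℕ} {U U' : ℝ} {p : K[X]} (h : U ≤ U') (hp : AtH r U p) : AtH r U' p := by
  obtain ⟨M, i1, i2, i3, x, h3, h4, h5, h6⟩ := hp
  exact ⟨M, i1, i2, i3, x, h3, h4, h5, h6.trans h⟩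

theorem ht_mono {m : ℕ} (r : Fin m → ℕ) {U U' : ℝ} {P : Fin m → K[X]} (h : U ≤ U')
    (hP : HT r U P) : HT r U' P := fun i =>
  atH_mono (mul_le_mul_of_nonneg_left h (Nat.cast_nonneg _)) (hP i)

/-- the height of a number in terms of its minimal polynomial -/
theorem at_of {L : Type} [Field L] [NumberField L] [Algebra K L] (x : L) {r : ℕ}
    (hr : (minpoly K x).natDegree = r) :
    AtH r (r * (logHeight₁ x / finrank K L)) (minpoly K x) := by
  have hfd : FiniteDimensional K L := FiniteDimensional.right ℚ K L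
  have hint : IsIntegral K x := IsIntegral.of_finite K x
  have h1 : (minpoly K (IntermediateField.AdjoinSimple.gen K x)).natDegree =
      finrank K (IntermediateField.adjoin K {x}) := by
    rw [IntermediateField.minpoly_gen, IntermediateField.adjoin.finrank hint]
  have h2 : minpoly K (IntermediateField.AdjoinSimple.gen K x) = minpoly K x := by
    rw [IntermediateField.minpoly_gen]
  have h3 : finrank K (IntermediateField.adjoin K {x}) = r := by rw [← h1, h2, hr]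
  refine ⟨IntermediateField.adjoin K {x}, inferInstance, inferInstance, inferInstance,
    IntermediateField.AdjoinSimple.gen K x, h3, by rw [h2, hr], h2, ?_⟩
  have h4 := gen_ht (k := K) x
  have h5 : (0 : ℝ) < finrank K L := by exact_mod_cast finrank_pos (R := K) (M := L)
  have h6 : (finrank K L : ℝ) = r * finrank (IntermediateField.adjoin K {x}) L := by
    rw [← h3]
    exact_mod_cast (finrank_mul_finrank K (IntermediateField.adjoin K {x}) L).symm
  have h8 : (0 : ℝ) < (r : ℝ) * finrank (IntermediateField.adjoin K {x}) L := by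
    rw [← h6]; exact h5
  have h7 : (finrank (IntermediateField.adjoin K {x}) L : ℝ) ≠ 0 := by
    intro h0
    rw [h0, mul_zero] at h8
    exact lt_irrefl _ h8
  have h9 : (r : ℝ) ≠ 0 := by
    intro h0
    rw [h0, zero_mul] at h8
    exact lt_irrefl _ h8
  rw [h6, h4]
  apply le_of_eq
  field_simp

theorem le_of_at {L : Type} [Field L] [NumberField L] [Algebra K L] (x : L) {r : ℕ} {U : ℝ}
    (hU : AtH r (r * U) (minpoly K x)) : logHeight₁ x ≤ finrank K L * U := by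
  obtain ⟨M, i1, i2, i3, y, h3, h4, h5, h6⟩ := hU
  have hfd : FiniteDimensional K L := FiniteDimensional.right ℚ K L
  have hint : IsIntegral K x := IsIntegral.of_finite K x
  have h1 : (minpoly K (IntermediateField.AdjoinSimple.gen K x)).natDegree =
      finrank K (IntermediateField.adjoin K {x}) := by
    rw [IntermediateField.minpoly_gen, IntermediateField.adjoin.finrank hint]
  have h2 : minpoly K (IntermediateField.AdjoinSimple.gen K x) = minpoly K x := by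
    rw [IntermediateField.minpoly_gen]
  have h7 := Pool.Agent.N572.DR.Inv.ht_inv (IntermediateField.AdjoinSimple.gen K x) y h1
    (h4.trans h3.symm) (h2.trans h5.symm)
  have h8 := gen_ht (k := K) x
  have h9 : finrank K (IntermediateField.adjoin K {x}) = r := by
    rw [← h1, h2, ← h5, h4]
  have h6' : (finrank K L : ℝ) = r * finrank (IntermediateField.adjoin K {x}) L := by
    rw [← h9]
    exact_mod_cast (finrank_mul_finrank K (IntermediateField.adjoin K {x}) L).symm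
  rw [h8, h7, h6']
  calc (finrank (IntermediateField.adjoin K {x}) L : ℝ) * logHeight₁ y ≤
      finrank (IntermediateField.adjoin K {x}) L * (r * U) :=
        mul_le_mul_of_nonneg_left h6 (Nat.cast_nonneg _)
    _ = _ := by ring

/-- the number of tuples -/
theorem ht_count (hcnt : StmCntAll) {m : ℕ} (r : Fin m → ℕ) (hr : ∀ i, 1 ≤ r i) :
    ∃ C : ℝ, 0 < C ∧ ∀ T : ℝ, 0 ≤ T → {P : Fin m → K[X] | HT r T P}.Finite ∧
      ({P : Fin m → K[X] | HT r T P}.ncard : ℝ) ≤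
        C * Real.exp ((∑ i, (r i : ℝ) * (r i + 1)) * T) := by
  classical
  have h := fun i => hcnt K (r i) (hr i)
  choose C hC h using h
  refine ⟨∏ i, C i, Finset.prod_pos fun i _ => hC i, ?_⟩
  intro T hT
  have he : {P : Fin m → K[X] | HT r T P} =
      Set.pi Set.univ fun i => {p : K[X] | AtH (r i) (r i * T) p} := by
    ext P
    simp only [Set.mem_setOf_eq, Set.mem_pi, Set.mem_univ, true_implies]
    rfl
  have hf : ∀ i, {p : K[X] | AtH (r i) (r i * T) p}.Finite := fun i =>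
    (h i (r i * T) (by positivity)).1
  rw [he]
  refine ⟨Set.Finite.pi' hf |>.subset (by intro P hP i; exact hP i (Set.mem_univ _)), ?_⟩
  have h1 : (Set.pi Set.univ fun i => {p : K[X] | AtH (r i) (r i * T) p}).ncard =
      ∏ i, {p : K[X] | AtH (r i) (r i * T) p}.ncard := by
    have h2 : (Set.pi Set.univ fun i => {p : K[X] | AtH (r i) (r i * T) p}) =
        ↑(Fintype.piFinset fun i => (hf i).toFinset) := by
      ext P
      simp [Fintype.mem_piFinset]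
    rw [h2, Set.ncard_coe_finset, Fintype.card_piFinset]
    refine Finset.prod_congr rfl fun i _ => ?_
    rw [Set.ncard_eq_toFinset_card _ (hf i)]
  rw [h1]
  push_cast
  calc ∏ i, ({p : K[X] | AtH (r i) (r i * T) p}.ncard : ℝ) ≤
      ∏ i, (C i * Real.exp ((r i + 1) * (r i * T))) :=
        Finset.prod_le_prod (fun i _ => Nat.cast_nonneg _) fun i _ =>
          (h i (r i * T) (by positivity)).2
    _ = _ := by
        rw [Finset.prod_mul_distrib, ← Real.exp_sum, Finset.sum_mul]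
        congr 2
        refine Finset.sum_congr rfl fun i _ => ?_
        ring

end ht

/-- conditions on a quantity which depends on the height -/
theorem scale {Ω : Type} (H : ℝ → Ω → Prop) (hmono : ∀ U U' p, U ≤ U' → H U p → H U' p) (D C₀ : ℝ)
    (hD : 0 < D) (hcount : ∀ T : ℝ, 0 ≤ T → {p | H T p}.Finite ∧
      ({p | H T p}.ncard : ℝ) ≤ C₀ * Real.exp (D * T))
    (B : ℝ → Ω → Prop) (hB : ∀ s s' p, s ≤ s' → B s' p → B s p)
    (h : ∀ κ : ℝ, 0 < κ → ∃ ν C : ℝ, 0 < ν ∧ ∀ T : ℝ, 0 ≤ T → {p | B (κ * T) p ∧ H T p}.Finite ∧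
      ({p | B (κ * T) p ∧ H T p}.ncard : ℝ) ≤ C * Real.exp ((D - ν) * T)) (κ : ℝ) (hκ : 0 < κ) :
    ∃ ν C : ℝ, 0 < ν ∧ ∀ U : ℝ, 0 ≤ U →
      {p | (∃ T : ℝ, 0 ≤ T ∧ H T p ∧ B (κ * T) p) ∧ H U p}.Finite ∧
      ({p | (∃ T : ℝ, 0 ≤ T ∧ H T p ∧ B (κ * T) p) ∧ H U p}.ncard : ℝ) ≤
        C * Real.exp ((D - ν) * U) := by
  obtain ⟨ν, C, hν, h1⟩ := h (κ / 2) (half_pos hκ)
  refine ⟨min ν (D / 2), |C| + |C₀|, lt_min hν (half_pos hD), ?_⟩
  intro U hU
  obtain ⟨h2, h3⟩ := h1 U hU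
  obtain ⟨h4, h5⟩ := hcount (U / 2) (by positivity)
  have hsub : {p | (∃ T : ℝ, 0 ≤ T ∧ H T p ∧ B (κ * T) p) ∧ H U p} ⊆
      {p | B (κ / 2 * U) p ∧ H U p} ∪ {p | H (U / 2) p} := by
    rintro p ⟨⟨T, hT, hTp, hBp⟩, hUp⟩
    rcases le_or_gt (U / 2) T with hle | hlt
    · left
      refine ⟨hB _ _ p ?_ hBp, hUp⟩
      nlinarith
    · right
      exact hmono _ _ p hlt.le hTp
  refine ⟨(h2.union h4).subset hsub, ?_⟩
  have h6 : ({p | (∃ T : ℝ, 0 ≤ T ∧ H T p ∧ B (κ * T) p) ∧ H U p}.ncard : ℝ) ≤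
      {p | B (κ / 2 * U) p ∧ H U p}.ncard + {p | H (U / 2) p}.ncard := by
    exact_mod_cast (Set.ncard_le_ncard hsub (h2.union h4)).trans (Set.ncard_union_le _ _)
  have h7 : Real.exp ((D - ν) * U) ≤ Real.exp ((D - min ν (D / 2)) * U) :=
    Real.exp_le_exp.2 (mul_le_mul_of_nonneg_right (by linarith [min_le_left ν (D / 2)]) hU)
  have h8 : Real.exp (D * (U / 2)) ≤ Real.exp ((D - min ν (D / 2)) * U) := by
    refine Real.exp_le_exp.2 ?_
    have := mul_le_mul_of_nonneg_right (min_le_right ν (D / 2)) hU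
    nlinarith
  have h9 : C * Real.exp ((D - ν) * U) ≤ |C| * Real.exp ((D - min ν (D / 2)) * U) :=
    (mul_le_mul_of_nonneg_right (le_abs_self C) (Real.exp_pos _).le).trans
      (mul_le_mul_of_nonneg_left h7 (abs_nonneg C))
  have h10 : C₀ * Real.exp (D * (U / 2)) ≤ |C₀| * Real.exp ((D - min ν (D / 2)) * U) :=
    (mul_le_mul_of_nonneg_right (le_abs_self C₀) (Real.exp_pos _).le).trans
      (mul_le_mul_of_nonneg_left h8 (abs_nonneg C₀))
  linarith

section univ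

theorem countable_mv (K : Type) [Field K] [NumberField K] (m : ℕ) :
    Countable (MvPolynomial (Fin m) K) := by
  have := Pool.Agent.N572.DR.KE.countable_nf K
  rw [← Cardinal.mk_le_aleph0_iff]
  refine (MvPolynomial.cardinalMk_le_max).trans ?_
  exact max_le (max_le (Cardinal.mk_le_aleph0_iff.2 this) (Cardinal.mk_le_aleph0_iff.2 inferInstance))
    le_rfl

variable {K : Type} [Field K] [NumberField K] {m : ℕ}

/-- coincidences for the primes of a finite set -/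
def Bcoin (S : Finset ℕ) (i j : Fin m) (F F' : K[X]) (s : ℝ) (P : Fin m → K[X]) : Prop :=
  ∃ Q : Finset ℕ, (∀ p ∈ Q, p.Prime ∧ NearP S F (P i) p ∧ NearP S F' (P j) p) ∧
    s < ∑ p ∈ Q, Real.log p

/-- large proximity -/
def Bprox (S : Finset ℕ) (q : Fin m → ℕ) (G : MvPolynomial (Fin m) K) (s : ℝ)
    (P : Fin m → K[X]) : Prop :=
  ∃ (L : Type) (_ : Field L) (_ : NumberField L) (_ : Algebra K L)
      (x : Fin m → L), (∀ i, minpoly K (x i) = P i) ∧ MvPolynomial.aeval x G ≠ 0 ∧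
      s * finrank ℚ L < proxM S q G x

theorem bcoin_mono (S : Finset ℕ) (i j : Fin m) (F F' : K[X]) {s s' : ℝ} {P : Fin m → K[X]}
    (h : s ≤ s') (hB : Bcoin S i j F F' s' P) : Bcoin S i j F F' s P := by
  obtain ⟨Q, h1, h2⟩ := hB
  exact ⟨Q, h1, h.trans_lt h2⟩

theorem bprox_mono (S : Finset ℕ) (q : Fin m → ℕ) (G : MvPolynomial (Fin m) K) {s s' : ℝ}
    {P : Fin m → K[X]} (h : s ≤ s') (hB : Bprox S q G s' P) : Bprox S q G s P := by
  obtain ⟨L, i1, i2, i3, x, h1, h2, h3⟩ := hB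
  exact ⟨L, i1, i2, i3, x, h1, h2,
    (mul_le_mul_of_nonneg_right h (Nat.cast_nonneg _)).trans_lt h3⟩

/-- the exponent -/
def dimT (r : Fin m → ℕ) : ℝ := ∑ i, (r i : ℝ) * (r i + 1)

theorem dimT_pos (hm : 0 < m) (r : Fin m → ℕ) (hr : ∀ i, 1 ≤ r i) : 0 < dimT r := by
  unfold dimT
  have : Nonempty (Fin m) := ⟨⟨0, hm⟩⟩
  refine Finset.sum_pos (fun i _ => ?_) Finset.univ_nonempty
  have : (1 : ℝ) ≤ r i := by exact_mod_cast hr i
  positivity

theorem univCoin (hcnt : StmCntAll) (hcoin : StmCoin) (hm : 0 < m) (r : Fin m → ℕ)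
    (hr : ∀ i, 1 ≤ r i) : ∃ E : Set (Fin m → K[X]),
    (∀ T : ℝ, 0 ≤ T → {P | P ∈ E ∧ HT r T P}.Finite ∧
      ({P | P ∈ E ∧ HT r T P}.ncard : ℝ) ≤ Real.exp (dimT r * T - √T)) ∧
    ∀ i j : Fin m, i ≠ j → ∀ F F' : K[X], F ≠ 0 → F' ≠ 0 → ∃ S : Finset ℕ, (∀ p ∈ S, p ≠ 0) ∧
      ∀ κ : ℝ, 0 < κ → ∃ U : ℝ, 0 ≤ U ∧ ∀ P : Fin m → K[X], P ∉ E → ∀ T : ℝ, 0 ≤ T → HT r T P →
        HT r U P ∨ ∀ Q : Finset ℕ, (∀ p ∈ Q, p.Prime ∧ NearP S F (P i) p ∧ NearP S F' (P j) p) →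
          ∑ p ∈ Q, Real.log p ≤ κ * T := by
  classical
  obtain ⟨C₀, hC₀, hcount⟩ := ht_count (K := K) hcnt r hr
  have hco := hcoin K m r hr
  choose S hS hco using hco
  have := Pool.Agent.N572.DR.KE.countable_pol K
  obtain ⟨E, hE1, hE2⟩ := Pool.Agent.N572.DR.Diag.t (Fin m → K[X])
    ({j : Fin m × Fin m × K[X] × K[X] // j.1 ≠ j.2.1 ∧ j.2.2.1 ≠ 0 ∧ j.2.2.2 ≠ 0} × ℕ)
    (fun T P => HT r T P) (fun U U' P h1 h2 => ht_mono r h1 h2)
    (fun j P => ∃ T : ℝ, 0 ≤ T ∧ HT r T P ∧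
      Bcoin (S j.1.1.1 j.1.1.2.1 j.1.2.1 j.1.1.2.2.1 j.1.1.2.2.2 j.1.2.2.1 j.1.2.2.2)
        j.1.1.1 j.1.1.2.1 j.1.1.2.2.1 j.1.1.2.2.2 (1 / ((j.2 : ℝ) + 1) * T) P)
    (dimT r) (dimT_pos hm r hr) (by
      rintro ⟨⟨⟨i, j, F, F'⟩, hij, hF, hF'⟩, n⟩
      have h1 : ∀ κ : ℝ, 0 < κ → ∃ ν C : ℝ, 0 < ν ∧ ∀ T : ℝ, 0 ≤ T →
          {P : Fin m → K[X] | Bcoin (S i j hij F F' hF hF') i j F F' (κ * T) P ∧
            HT r T P}.Finite ∧
          ({P : Fin m → K[X] | Bcoin (S i j hij F F' hF hF') i j F F' (κ * T) P ∧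
            HT r T P}.ncard : ℝ) ≤ C * Real.exp ((dimT r - ν) * T) :=
        hco i j hij F F' hF hF'
      exact scale (fun T P => HT r T P) (fun U U' P h1 h2 => ht_mono r h1 h2) (dimT r) C₀
        (dimT_pos hm r hr) hcount (fun s P => Bcoin (S i j hij F F' hF hF') i j F F' s P)
        (fun s s' P h1 h2 => bcoin_mono _ _ _ _ _ h1 h2) h1 (1 / ((n : ℝ) + 1)) (by positivity))
  refine ⟨E, hE1, ?_⟩
  intro i j hij F F' hF hF'
  refine ⟨S i j hij F F' hF hF', hS i j hij F F' hF hF', ?_⟩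
  intro κ hκ
  obtain ⟨n, hn⟩ := exists_nat_one_div_lt hκ
  obtain ⟨U, hU0, hU⟩ := hE2 (⟨⟨i, j, F, F'⟩, hij, hF, hF'⟩, n)
  refine ⟨U, hU0, ?_⟩
  intro P hP T hT hTP
  by_cases hB : Bcoin (S i j hij F F' hF hF') i j F F' (1 / ((n : ℝ) + 1) * T) P
  · exact Or.inl (hU P hP ⟨T, hT, hTP, hB⟩)
  · refine Or.inr fun Q hQ => ?_
    by_contra hlt
    rw [not_le] at hlt
    exact hB ⟨Q, hQ, lt_of_le_of_lt (mul_le_mul_of_nonneg_right hn.le hT) hlt⟩

theorem univProx (hcnt : StmCntAll) (hprox : StmProxM) (hm : 0 < m) (r : Fin m → ℕ)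
    (hr : ∀ i, 1 ≤ r i) : ∃ E : Set (Fin m → K[X]),
    (∀ T : ℝ, 0 ≤ T → {P | P ∈ E ∧ HT r T P}.Finite ∧
      ({P | P ∈ E ∧ HT r T P}.ncard : ℝ) ≤ Real.exp (dimT r * T - √T)) ∧
    ∀ (q : Fin m → ℕ) (G : MvPolynomial (Fin m) K), G ≠ 0 → (∀ i, G.degreeOf i ≤ q i) →
      ∀ S : Finset ℕ, (∀ p ∈ S, p.Prime) → ∀ κ : ℝ, 0 < κ → ∃ U : ℝ, 0 ≤ U ∧
        ∀ P : Fin m → K[X], P ∉ E → ∀ T : ℝ, 0 ≤ T → HT r T P →
        HT r U P ∨ ∀ (L : Type) [Field L] [NumberField L] [Algebra K L] (x : Fin m → L),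
          (∀ i, minpoly K (x i) = P i) → MvPolynomial.aeval x G ≠ 0 →
          proxM S q G x ≤ κ * T * finrank ℚ L := by
  classical
  obtain ⟨C₀, hC₀, hcount⟩ := ht_count (K := K) hcnt r hr
  have := countable_mv K m
  obtain ⟨E, hE1, hE2⟩ := Pool.Agent.N572.DR.Diag.t (Fin m → K[X])
    ({j : (Fin m → ℕ) × MvPolynomial (Fin m) K × Finset ℕ // j.2.1 ≠ 0 ∧
      (∀ i, j.2.1.degreeOf i ≤ j.1 i) ∧ ∀ p ∈ j.2.2, p.Prime} × ℕ)
    (fun T P => HT r T P) (fun U U' P h1 h2 => ht_mono r h1 h2)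
    (fun j P => ∃ T : ℝ, 0 ≤ T ∧ HT r T P ∧
      Bprox j.1.1.2.2 j.1.1.1 j.1.1.2.1 (1 / ((j.2 : ℝ) + 1) * T) P)
    (dimT r) (dimT_pos hm r hr) (by
      rintro ⟨⟨⟨q, G, S⟩, hG, hq, hS⟩, n⟩
      have h1 : ∀ κ : ℝ, 0 < κ → ∃ ν C : ℝ, 0 < ν ∧ ∀ T : ℝ, 0 ≤ T →
          {P : Fin m → K[X] | Bprox S q G (κ * T) P ∧ HT r T P}.Finite ∧
          ({P : Fin m → K[X] | Bprox S q G (κ * T) P ∧ HT r T P}.ncard : ℝ) ≤
            C * Real.exp ((dimT r - ν) * T) :=
        hprox K m r q hr G hG hq S hS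
      exact scale (fun T P => HT r T P) (fun U U' P h1 h2 => ht_mono r h1 h2) (dimT r) C₀
        (dimT_pos hm r hr) hcount (fun s P => Bprox S q G s P)
        (fun s s' P h1 h2 => bprox_mono _ _ _ h1 h2) h1 (1 / ((n : ℝ) + 1)) (by positivity))
  refine ⟨E, hE1, ?_⟩
  intro q G hG hq S hS κ hκ
  obtain ⟨n, hn⟩ := exists_nat_one_div_lt hκ
  obtain ⟨U, hU0, hU⟩ := hE2 (⟨⟨q, G, S⟩, hG, hq, hS⟩, n)
  refine ⟨U, hU0, ?_⟩
  intro P hP T hT hTP
  by_cases hB : Bprox S q G (1 / ((n : ℝ) + 1) * T) P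
  · exact Or.inl (hU P hP ⟨T, hT, hTP, hB⟩)
  · refine Or.inr fun L _ _ _ x hx hGx => ?_
    by_contra hlt
    rw [not_le] at hlt
    refine hB ⟨L, inferInstance, inferInstance, inferInstance, x, hx, hGx, lt_of_le_of_lt ?_ hlt⟩
    exact mul_le_mul_of_nonneg_right (mul_le_mul_of_nonneg_right hn.le hT) (Nat.cast_nonneg _)

/-- the tuples with one coordinate in the exceptional set of the line -/
theorem univLine (hcnt : StmCntAll) (r : Fin m → ℕ) (hr : ∀ i, 1 ≤ r i) (i : Fin m)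
    (E : Set K[X]) (hE : ∀ U : ℝ, 0 ≤ U → {p | p ∈ E ∧ AtH (r i) U p}.Finite ∧
      ({p | p ∈ E ∧ AtH (r i) U p}.ncard : ℝ) ≤ Real.exp ((r i + 1) * U - √U)) :
    ∃ C : ℝ, 0 < C ∧ ∀ T : ℝ, 0 ≤ T → {P : Fin m → K[X] | P i ∈ E ∧ HT r T P}.Finite ∧
      ({P : Fin m → K[X] | P i ∈ E ∧ HT r T P}.ncard : ℝ) ≤ C * Real.exp (dimT r * T - √T) := by
  classical
  have h := fun i => hcnt K (r i) (hr i)
  choose C hC h using h
  refine ⟨∏ j ∈ Finset.univ.erase i, C j, Finset.prod_pos fun i _ => hC i, ?_⟩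
  intro T hT
  set Z : Fin m → Set K[X] := fun j => if j = i then {p | p ∈ E ∧ AtH (r i) (r i * T) p} else
    {p | AtH (r j) (r j * T) p} with hZ
  have hrT : ∀ j, 0 ≤ (r j : ℝ) * T := fun j => by positivity
  have hZf : ∀ j, (Z j).Finite := by
    intro j
    rw [hZ]
    beta_reduce
    split_ifs
    · exact (hE _ (hrT i)).1
    · exact (h j _ (hrT j)).1
  have hsub : {P : Fin m → K[X] | P i ∈ E ∧ HT r T P} ⊆
      ↑(Fintype.piFinset fun j => (hZf j).toFinset) := by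
    rintro P ⟨h1, h2⟩
    rw [Finset.mem_coe, Fintype.mem_piFinset]
    intro j
    rw [Set.Finite.mem_toFinset, hZ]
    beta_reduce
    split_ifs with hj
    · subst hj
      exact ⟨h1, h2 j⟩
    · exact h2 j
  refine ⟨(Finset.finite_toSet _).subset hsub, ?_⟩
  have h1 : ({P : Fin m → K[X] | P i ∈ E ∧ HT r T P}.ncard : ℝ) ≤ ∏ j, ((Z j).ncard : ℝ) := by
    have h2 := Set.ncard_le_ncard hsub (Finset.finite_toSet _)
    rw [Set.ncard_coe_finset, Fintype.card_piFinset] at h2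
    have h2' : ({P : Fin m → K[X] | P i ∈ E ∧ HT r T P}.ncard : ℝ) ≤
        ((∏ j, (hZf j).toFinset.card : ℕ) : ℝ) := by exact_mod_cast h2
    refine le_trans h2' (le_of_eq ?_)
    push_cast
    refine Finset.prod_congr rfl fun j _ => ?_
    rw [Set.ncard_eq_toFinset_card _ (hZf j)]
  rw [← Finset.mul_prod_erase _ _ (Finset.mem_univ i)] at h1
  have h3 : ((Z i).ncard : ℝ) ≤ Real.exp ((r i + 1) * (r i * T) - √(r i * T)) := by
    rw [hZ]
    beta_reduce
    rw [if_pos rfl]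
    exact (hE _ (hrT i)).2
  have h4 : ∏ j ∈ Finset.univ.erase i, ((Z j).ncard : ℝ) ≤
      ∏ j ∈ Finset.univ.erase i, (C j * Real.exp ((r j + 1) * (r j * T))) := by
    refine Finset.prod_le_prod (fun j _ => Nat.cast_nonneg _) fun j hj => ?_
    rw [hZ]
    beta_reduce
    rw [if_neg (Finset.ne_of_mem_erase hj)]
    exact (h j _ (hrT j)).2
  have h5 : Real.exp ((r i + 1) * (r i * T) - √(r i * T)) ≤
      Real.exp ((r i + 1) * (r i * T) - √T) := by
    refine Real.exp_le_exp.2 (sub_le_sub_left (Real.sqrt_le_sqrt ?_) _)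
    have : (1 : ℝ) ≤ r i := by exact_mod_cast hr i
    nlinarith
  refine h1.trans ((mul_le_mul (h3.trans h5) h4 (Finset.prod_nonneg fun j _ => Nat.cast_nonneg _)
    (Real.exp_pos _).le).trans (le_of_eq ?_))
  rw [Finset.prod_mul_distrib, ← Real.exp_sum, mul_left_comm, ← Real.exp_add]
  congr 2
  unfold dimT
  rw [Finset.sum_mul, ← Finset.add_sum_erase _ _ (Finset.mem_univ i)]
  have h6 : ∑ j ∈ Finset.univ.erase i, ((r j : ℝ) + 1) * (r j * T) =
      ∑ j ∈ Finset.univ.erase i, (r j : ℝ) * (r j + 1) * T :=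
    Finset.sum_congr rfl fun j _ => by ring
  rw [h6]
  ring

end univ

end Pool.Agent.N753.DR
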