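import Pool.Agent.N753.DR.PCb
import Pool.Agent.N753.DR.PCc
import Pool.Agent.N681.PC.Mod
import Pool.Agent.N130.PC.Cnt
import Pool.Agent.N225.PC.ProxM
import Pool.Agent.N199.PC.Coin
import Pool.Agent.N434.PC.Pxa
import Pool.Agent.N703.PC.PolyV
import Pool.Agent.N787.PC.Gcd2
import Pool.Agent.N93.PC.LOCW
import Pool.Agent.N935.PC.Elim
import Pool.Agent.N901.PC.Comb
import Pool.Agent.N79.PC.Near
import Pool.Agent.N364.PC.Lin
import Pool.Agent.N130.PC.Root
import Pool.Agent.N134.PC.Zero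
import Pool.Agent.N196.PC.Prk
import Pool.Agent.N490.PC.Triv
import Pool.Agent.N427.PC.HTMV

/-!
# Project PC: the parts together
-/

set_option autoImplicit false

namespace Pool.Agent.N753.DR

theorem pcCnt : StmCntAll := Pool.Agent.N130.PC.Cnt.t

theorem pcCoin : StmCoin :=
  Pool.Agent.N199.PC.t (Pool.Agent.N787.PC.Gcd.t Pool.Agent.N681.PC.t) Pool.Agent.N79.PC.t
    Pool.Agent.N459.DR.t pcCnt

theorem pcProx : StmProxM :=
  Pool.Agent.N225.PC.t (Pool.Agent.N434.PC.t Pool.Agent.N130.PC.Root.t Pool.Agent.N364.PC.t)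
    (Pool.Agent.N93.PC.t Pool.Agent.N935.PC.elim_) Pool.Agent.N703.PC.t Pool.Agent.N459.DR.t pcCnt

theorem pcComb : StmComb := Pool.Agent.N901.PC.Comb.t

theorem pcTriv : StmTriv := Pool.Agent.N490.PC.Triv.t

theorem pcHtMv : StmHtMv := Pool.Agent.N427.PC.HTMV.t

theorem pcPrk : StmPrk := Pool.Agent.N196.PC.t pcTriv pcHtMv

theorem pcZero : StmZero :=
  Pool.Agent.N134.PC.t Pool.Agent.N935.PC.elim_ Pool.Agent.N703.PC.t Pool.Agent.N459.DR.t pcCnt

theorem vk : StmVk := Pool.Agent.N415.DRVK.t ke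

end Pool.Agent.N753.DR
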