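import Mathlib
import Pool.Agent.N753.DR.Stm3
import Pool.Agent.N572.DR.Inv
import Pool.Agent.Y729.RV.Base
import Pool.Agent.Y729.RV.Crv
import Pool.Agent.Y557.OE.Key

/-!
# Project DR: curves over the line
-/

set_option autoImplicit false

namespace Pool.Agent.N753.DR

open NumberField IsDedekindDomain Module Polynomial Height
open Pool.Agent.Y729.RV (Nr cnt nr_fin cnt_eq base_cnt)
open IntermediateField (AdjoinSimple.gen)

section

variable {k L : Type} [Field k] [NumberField k] [Field L] [NumberField L] [Algebra k L]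

/-- `log |disc k(t)|` -/
noncomputable def ldOf (k : Type) {L : Type} [Field k] [NumberField k] [Field L] [NumberField L]
    [Algebra k L] (t : L) : ℝ :=
  Real.log |(discr (IntermediateField.adjoin k {t}) : ℝ)|

theorem ldiscr_nonneg (F : Type) [Field F] [NumberField F] : 0 ≤ Real.log |(discr F : ℝ)| := by
  refine Real.log_nonneg ?_
  have h : discr F ≠ 0 := discr_ne_zero F
  have h2 : (1 : ℤ) ≤ |discr F| := Int.one_le_abs h
  exact_mod_cast h2

theorem gen_top (t : L) : IntermediateField.adjoin k {AdjoinSimple.gen k t} = ⊤ := by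
  have hfd : FiniteDimensional k L := FiniteDimensional.right ℚ k L
  rw [Field.primitive_element_iff_minpoly_natDegree_eq, IntermediateField.minpoly_gen,
    IntermediateField.adjoin.finrank (IsIntegral.of_finite k t)]

theorem gen_ht (t : L) : logHeight₁ t =
    finrank (IntermediateField.adjoin k {t}) L * logHeight₁ (AdjoinSimple.gen k t) := by
  have h := Pool.Agent.N572.DR.Inv.ht_ext (M := L) (AdjoinSimple.gen k t)
  rw [← h]
  rfl

/-- the discriminant of `k(t)` depends only on the minimal polynomial -/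
theorem disc_inv {M M' : Type} [Field M] [NumberField M] [Field M']
    [NumberField M'] [Algebra k M] [Algebra k M'] (x : M) (x' : M')
    (h : (minpoly k x).natDegree = finrank k M) (h' : (minpoly k x').natDegree = finrank k M')
    (hxx : minpoly k x = minpoly k x') : discr M = discr M' := by
  have : FiniteDimensional k M := FiniteDimensional.right ℚ k M
  have : FiniteDimensional k M' := FiniteDimensional.right ℚ k M'
  obtain ⟨φ, hφ⟩ := Pool.Agent.N572.DR.Inv.exists_hom x x' h hxx
  have h2 : finrank k M = finrank k M' := by rw [← h, ← h', hxx]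
  have hb : Function.Bijective φ := by
    refine ⟨φ.toRingHom.injective, ?_⟩
    have h3 := (LinearMap.injective_iff_surjective_of_finrank_eq_finrank
      (f := φ.toLinearMap) h2).1 φ.toRingHom.injective
    exact h3
  let e : M ≃ₐ[k] M' := AlgEquiv.ofBijective φ hb
  exact discr_eq_discr_of_algEquiv M (AlgEquiv.ofRingEquiv (f := e.toRingEquiv)
    (fun q => by simp) : M ≃ₐ[ℚ] M')

/-- the roots of a given polynomial have bounded height, and generate fields with bounded
discriminant -/
theorem bdd (G : ℚ[X]) (hG : G ≠ 0) : ∃ C : ℝ, 0 ≤ C ∧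
    ∀ (M : Type) [Field M] [NumberField M] [Algebra k M] (t : M),
      (minpoly k t).natDegree = finrank k M → aeval t G = 0 →
      logHeight₁ t ≤ C ∧ Real.log |(discr M : ℝ)| ≤ C := by
  classical
  have key : ∀ p : k[X], ∃ C : ℝ, 0 ≤ C ∧
    ∀ (M : Type) [Field M] [NumberField M] [Algebra k M] (t : M),
      (minpoly k t).natDegree = finrank k M → minpoly k t = p →
      logHeight₁ t ≤ C ∧ Real.log |(discr M : ℝ)| ≤ C := by
    intro p
    by_cases hp : ∃ (M : Type) (_ : Field M) (_ : NumberField M) (_ : Algebra k M) (t : M),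
        (minpoly k t).natDegree = finrank k M ∧ minpoly k t = p
    · obtain ⟨M, _, _, _, t, h1, h2⟩ := hp
      refine ⟨max (logHeight₁ t) (Real.log |(discr M : ℝ)|),
        (zero_le_logHeight₁ t).trans (le_max_left _ _), ?_⟩
      intro M' _ _ _ t' h3 h4
      rw [Pool.Agent.N572.DR.Inv.ht_inv t' t h3 h1 (h4.trans h2.symm),
        disc_inv t' t h3 h1 (h4.trans h2.symm)]
      exact ⟨le_max_left _ _, le_max_right _ _⟩
    · refine ⟨0, le_rfl, ?_⟩
      intro M _ _ _ t h1 h2
      exact absurd ⟨M, inferInstance, inferInstance, inferInstance, t, h1, h2⟩ hp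
  choose c hc0 hc using key
  have hG' : G.map (algebraMap ℚ k) ≠ 0 := by
    rwa [Ne, Polynomial.map_eq_zero]
  set T := (UniqueFactorizationMonoid.normalizedFactors (G.map (algebraMap ℚ k))).toFinset with hT
  refine ⟨∑ p ∈ T, c p, Finset.sum_nonneg fun p _ => hc0 p, ?_⟩
  intro M _ _ _ t h1 h2
  have hfd : FiniteDimensional k M := FiniteDimensional.right ℚ k M
  have hint : IsIntegral k t := IsIntegral.of_finite k t
  have hmem : minpoly k t ∈ T := by
    rw [hT, Multiset.mem_toFinset, Polynomial.mem_normalizedFactors_iff hG']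
    refine ⟨minpoly.irreducible hint, minpoly.monic hint, ?_⟩
    refine minpoly.dvd k t ?_
    rw [aeval_map_algebraMap]
    exact h2
  have h3 := Finset.single_le_sum (fun p (_ : p ∈ T) => hc0 p) hmem
  obtain ⟨h4, h5⟩ := hc (minpoly k t) M t h1 rfl
  exact ⟨h4.trans h3, h5.trans h3⟩

/-- **points above a given point of the line** -/
theorem step (k A : Type) [Field k] [NumberField k] [CommRing A] [IsDedekindDomain A] [Algebra k A]
    [Algebra k[X] A] [IsScalarTower k k[X] A] [Module.Finite k[X] A] [FaithfulSMul k[X] A]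
    {q : ℕ} (hq : 1 ≤ q) (a : Fin q → k) (u : Fin q → ℕ) (y : ∀ j, Fin (u j) → A)
    (E : Fin q → Ideal A) (hE : ∀ j, E j ≠ ⊥)
    (hyE : ∀ j i, ∀ e ∈ E j,
      y j i * e ∈ (Ideal.span {algebraMap k[X] A X - algebraMap k A (a j)}).radical)
    (S : Finset ℕ) (hS : ∀ p ∈ S, p ≠ 0) (ε : ℝ) (hε : 0 < ε) :
    ∃ (T : Finset ℕ) (C : ℝ), (∀ p ∈ T, p ≠ 0) ∧ 0 ≤ C ∧
      ∀ (L : Type) [Field L] [NumberField L] [Algebra k L] (φ : A →ₐ[k] L) (c : ℝ), 0 ≤ c →
        (∀ j, φ (algebraMap k[X] A X) ≠ algebraMap k L (a j)) →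
        (∀ W : Finset (HeightOneSpectrum
            (𝓞 (IntermediateField.adjoin k {φ (algebraMap k[X] A X)}))),
          (∀ w, (∀ p ∈ T, p ≠ 0 → (p : 𝓞 (IntermediateField.adjoin k {φ (algebraMap k[X] A X)})) ∉
            w.asIdeal) →
            w.valuation (IntermediateField.adjoin k {φ (algebraMap k[X] A X)})
              (AdjoinSimple.gen k (φ (algebraMap k[X] A X))) ≤ 1 →
            (∃ j, w.valuation (IntermediateField.adjoin k {φ (algebraMap k[X] A X)})
              (AdjoinSimple.gen k (φ (algebraMap k[X] A X)) - algebraMap k _ (a j)) < 1) →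
            w ∈ W) →
          (q - ε) * logHeight₁ (AdjoinSimple.gen k (φ (algebraMap k[X] A X))) ≤
            ∑ w ∈ W, lN w + c) →
        (q - (∑ j, (finrank k (A ⧸ E j) : ℝ)) / finrank k[X] A - 2 * ε) *
            logHeight₁ (φ (algebraMap k[X] A X)) +
          finrank (IntermediateField.adjoin k {φ (algebraMap k[X] A X)}) L *
            ldOf k (φ (algebraMap k[X] A X)) ≤
          Pool.Agent.W223.CV.cc S (fun v : HeightOneSpectrum (𝓞 L) =>
            v.valuation L (φ (algebraMap k[X] A X)) ≤ 1 ∧
            ∃ j, v.valuation L (φ (algebraMap k[X] A X) - algebraMap k L (a j)) < 1 ∧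
              ∀ i, v.valuation L (φ (y j i)) < 1) +
          Real.log |(discr L : ℝ)| + finrank ℚ L * (C + c) := by
  classical
  obtain ⟨M, C, G, hM, hC, hG, hkey⟩ := Pool.Agent.Y729.RV.keyK Pool.Agent.Y728.MN.partNB
    Pool.Agent.W460.AC.t Pool.Agent.W989.AC.MULT.t Pool.Agent.W597.AC.t k A hq a u y E hE hyE ε hε
  obtain ⟨C3, hC3, hbdd⟩ := bdd (k := k) G hG
  refine ⟨S ∪ M.primeFactors, C + (q + 1) * C3, ?_, by positivity, ?_⟩
  · intro p hp
    rcases Finset.mem_union.1 hp with h | h
    · exact hS p h
    · exact (Nat.prime_of_mem_primeFactors h).ne_zero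
  intro L _ _ _ φ c hc hne hline
  set t := φ (algebraMap k[X] A X) with ht
  have hT : ∀ p ∈ S ∪ M.primeFactors, p ≠ 0 := by
    intro p hp
    rcases Finset.mem_union.1 hp with h | h
    · exact hS p h
    · exact (Nat.prime_of_mem_primeFactors h).ne_zero
  have hnL : (0 : ℝ) < finrank ℚ L := by exact_mod_cast finrank_pos (R := ℚ) (M := L)
  have hfd : FiniteDimensional k L := FiniteDimensional.right ℚ k L
  have hF0 : (0 : ℝ) < finrank (IntermediateField.adjoin k {t}) L := by
    have : FiniteDimensional (IntermediateField.adjoin k {t}) L :=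
      FiniteDimensional.right ℚ (IntermediateField.adjoin k {t}) L
    exact_mod_cast finrank_pos (R := IntermediateField.adjoin k {t}) (M := L)
  have hFL : (finrank (IntermediateField.adjoin k {t}) L : ℝ) ≤ finrank ℚ L := by
    have h1 := finrank_mul_finrank ℚ (IntermediateField.adjoin k {t}) L
    have h2 : 0 < finrank ℚ (IntermediateField.adjoin k {t}) := finrank_pos
    have h3 : finrank (IntermediateField.adjoin k {t}) L ≤ finrank ℚ L := by
      rw [← h1]
      exact Nat.le_mul_of_pos_left _ h2
    exact_mod_cast h3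
  have hcc0 : 0 ≤ Pool.Agent.W223.CV.cc S (fun v : HeightOneSpectrum (𝓞 L) =>
            v.valuation L t ≤ 1 ∧ ∃ j, v.valuation L (t - algebraMap k L (a j)) < 1 ∧
              ∀ i, v.valuation L (φ (y j i)) < 1) := by
    unfold Pool.Agent.W223.CV.cc
    exact finsum_nonneg fun v => Pool.Agent.W223.CV.ct_nonneg _ _ v
  have hD0 := ldiscr_nonneg L
  have hgen : ((AdjoinSimple.gen k t : IntermediateField.adjoin k {t}) : L) = t := rfl
  by_cases hGt : aeval t G ≠ 0
  · have h1 := hkey S L φ hGt hne
    rw [← ht] at h1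
    have hy : ∀ j, AdjoinSimple.gen k t ≠
        algebraMap k (IntermediateField.adjoin k {t}) (a j) := by
      intro j h
      apply hne j
      have h2 := congrArg (algebraMap (IntermediateField.adjoin k {t}) L) h
      rw [← IsScalarTower.algebraMap_apply] at h2
      exact h2
    have h2 := base_cnt (K := k) (F := IntermediateField.adjoin k {t}) (L := L)
      (S ∪ M.primeFactors) a (AdjoinSimple.gen k t) hy
    have h3 := hline (nr_fin (S ∪ M.primeFactors) hy).toFinset (by
      intro w hw1 hw2 hw3
      rw [Set.Finite.mem_toFinset]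
      exact ⟨fun p hp => hw1 p hp (hT p hp), hw2, hw3⟩)
    have h4 : cnt (S ∪ M.primeFactors) a (AdjoinSimple.gen k t) =
        ∑ w ∈ (nr_fin (S ∪ M.primeFactors) hy).toFinset, lN w := cnt_eq _ hy
    rw [← h4] at h3
    have h5 : algebraMap (IntermediateField.adjoin k {t}) L (AdjoinSimple.gen k t) = t := rfl
    rw [h5] at h2
    have h6 := gen_ht (k := k) t
    have h7 : Real.log (mulHeight₁ t) = logHeight₁ t := rfl
    rw [h7] at h1
    have h8 := mul_le_mul_of_nonneg_left h3 hF0.le
    have h9 : (q - ε) * logHeight₁ t ≤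
        finrank (IntermediateField.adjoin k {t}) L *
          cnt (S ∪ M.primeFactors) a (AdjoinSimple.gen k t) +
        finrank (IntermediateField.adjoin k {t}) L * c := by
      rw [h6]
      nlinarith
    have h10 : (finrank (IntermediateField.adjoin k {t}) L : ℝ) * c ≤ finrank ℚ L * c :=
      mul_le_mul_of_nonneg_right hFL hc
    have h11 : ldOf k t = Real.log |(discr (IntermediateField.adjoin k {t}) : ℝ)| := rfl
    have h12 : 0 ≤ (finrank ℚ L : ℝ) * ((q + 1) * C3) := by positivity
    rw [h11]
    nlinarith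
  · rw [not_not] at hGt
    have hfd' : FiniteDimensional k (IntermediateField.adjoin k {t}) :=
      FiniteDimensional.right ℚ k _
    have hg : aeval (AdjoinSimple.gen k t) G = 0 := by
      apply (algebraMap (IntermediateField.adjoin k {t}) L).injective
      rw [map_zero, ← aeval_algebraMap_apply]
      exact hGt
    have hdeg : (minpoly k (AdjoinSimple.gen k t)).natDegree =
        finrank k (IntermediateField.adjoin k {t}) := by
      rw [IntermediateField.minpoly_gen,
        IntermediateField.adjoin.finrank (IsIntegral.of_finite k t)]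
    obtain ⟨h1, h2⟩ := hbdd (IntermediateField.adjoin k {t}) (AdjoinSimple.gen k t) hdeg hg
    have h3 := gen_ht (k := k) t
    have h4 : logHeight₁ t ≤ finrank ℚ L * C3 := by
      rw [h3]
      calc (finrank (IntermediateField.adjoin k {t}) L : ℝ) * logHeight₁ (AdjoinSimple.gen k t) ≤
          finrank (IntermediateField.adjoin k {t}) L * C3 :=
            mul_le_mul_of_nonneg_left h1 hF0.le
        _ ≤ _ := mul_le_mul_of_nonneg_right hFL hC3
    have h5 : finrank (IntermediateField.adjoin k {t}) L * ldOf k t ≤ finrank ℚ L * C3 := by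
      have h6 : ldOf k t ≤ C3 := h2
      have h7 : 0 ≤ ldOf k t := ldiscr_nonneg _
      calc finrank (IntermediateField.adjoin k {t}) L * ldOf k t ≤
          finrank (IntermediateField.adjoin k {t}) L * C3 :=
            mul_le_mul_of_nonneg_left h6 hF0.le
        _ ≤ _ := mul_le_mul_of_nonneg_right hFL hC3
    have h6 : (q - (∑ j, (finrank k (A ⧸ E j) : ℝ)) / finrank k[X] A - 2 * ε) * logHeight₁ t ≤
        q * (finrank ℚ L * C3) := by
      have h7 : 0 ≤ (∑ j, (finrank k (A ⧸ E j) : ℝ)) / finrank k[X] A := by positivity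
      have h8 := zero_le_logHeight₁ t
      calc (q - (∑ j, (finrank k (A ⧸ E j) : ℝ)) / finrank k[X] A - 2 * ε) * logHeight₁ t ≤
          q * logHeight₁ t := mul_le_mul_of_nonneg_right (by linarith) h8
        _ ≤ _ := mul_le_mul_of_nonneg_left h4 (Nat.cast_nonneg _)
    have h7 : 0 ≤ (finrank ℚ L : ℝ) * (C + c) := by positivity
    have h8 : (q : ℝ) * (finrank ℚ L * C3) + finrank ℚ L * C3 =
      finrank ℚ L * ((q + 1) * C3) := by ring
    nlinarith

end

end Pool.Agent.N753.DR
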