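import Pool.Agent.N753.DR.AllCV

/-!
# Project CV: auxiliary results for the final statement
-/

set_option autoImplicit false

namespace Pool.Agent.N753.DR

open NumberField IsDedekindDomain Module Polynomial
open scoped LinearAlgebra.Projectivization

section

variable {K A : Type} [Field K] [NumberField K] [CommRing A] [Algebra K A] [Algebra K[X] A]
  [IsScalarTower K K[X] A] [Module.Finite K[X] A]

/-- the residue field of a maximal ideal -/
theorem exists_field' (I : Ideal A) (hI : I.IsMaximal) :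
    ∃ (L : Type) (_ : Field L) (_ : NumberField L) (_ : Algebra K L) (ψ : A →ₐ[K] L),
      Function.Surjective ψ ∧ RingHom.ker ψ = I ∧ finrank K L = finrank K (A ⧸ I) ∧
      ∀ (F : Type) [Field F] [Algebra K F] (x : A →ₐ[K] F), RingHom.ker x = I →
        ∃ ι : L →ₐ[K] F, ∀ a, ι (ψ a) = x a := by
  have hft : Algebra.FiniteType K A :=
    Algebra.FiniteType.trans (S := K[X]) inferInstance inferInstance
  let _ : Field (A ⧸ I) := Ideal.Quotient.field I
  have hft2 : Algebra.FiniteType K (A ⧸ I) := inferInstance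
  have hfin : Module.Finite K (A ⧸ I) := finite_of_finite_type_of_isJacobsonRing K (A ⧸ I)
  have hch : CharZero (A ⧸ I) := charZero_of_injective_algebraMap (algebraMap K (A ⧸ I)).injective
  have hQ : FiniteDimensional ℚ (A ⧸ I) := Module.Finite.trans K (A ⧸ I)
  have hNF : NumberField (A ⧸ I) := ⟨⟩
  refine ⟨A ⧸ I, inferInstance, hNF, inferInstance, Ideal.Quotient.mkₐ K I,
    Ideal.Quotient.mkₐ_surjective K I, Ideal.Quotient.mkₐ_ker K I, rfl, ?_⟩
  intro F _ _ x hx
  exact ⟨Ideal.Quotient.liftₐ I x (fun a ha => by rw [← hx] at ha; exact ha), fun a => rfl⟩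

theorem exists_field (I : Ideal A) (hI : I.IsMaximal) :
    ∃ (L : Type) (_ : Field L) (_ : NumberField L) (_ : Algebra K L) (ψ : A →ₐ[K] L),
      Function.Surjective ψ ∧ RingHom.ker ψ = I ∧ finrank K L = finrank K (A ⧸ I) := by
  obtain ⟨L, h1, h2, h3, ψ, h4, h5, h6, -⟩ := exists_field' (K := K) I hI
  exact ⟨L, h1, h2, h3, ψ, h4, h5, h6⟩

omit [NumberField K] [Algebra K[X] A] [IsScalarTower K K[X] A] [Module.Finite K[X] A] in
/-- the kernel of a point is a maximal ideal -/
theorem ker_max {F : Type} [Field F] [Algebra K F] [FiniteDimensional K F] (x : A →ₐ[K] F) :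
    (RingHom.ker x).IsMaximal := by
  have hp : (RingHom.ker x).IsPrime := RingHom.ker_isPrime _
  have hinj : Function.Injective (Ideal.kerLiftAlg x) := Ideal.kerLiftAlg_injective x
  have hfin : Module.Finite K (A ⧸ RingHom.ker x) :=
    Module.Finite.of_injective (Ideal.kerLiftAlg x).toLinearMap hinj
  have hart : IsArtinianRing (A ⧸ RingHom.ker x) := IsArtinianRing.of_finite K _
  exact Ideal.Quotient.maximal_of_isField _ (IsArtinianRing.isField_of_isDomain _)

variable [IsDomain A] [FaithfulSMul K[X] A]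

/-- a closed point above `a` -/
theorem exists_above (N : ℕ) (e : Basis (Fin N) K[X] A) (hN : 1 ≤ N) (a : K) :
    ∃ (u : ℕ) (g : Fin u → A), (Ideal.span (Set.range g)).IsMaximal ∧
      (∃ i, g i = algebraMap K[X] A (X - C a)) ∧
      finrank K (A ⧸ Ideal.span (Set.range g)) ≤ N ∧
      1 ≤ finrank K (A ⧸ Ideal.span (Set.range g)) := by
  classical
  set b := algebraMap K[X] A (X - C a) with hb
  have hb0 : b ≠ 0 := by
    rw [hb, Ne, FaithfulSMul.algebraMap_eq_zero_iff]
    exact X_sub_C_ne_zero a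
  have hnorm : Algebra.norm K[X] b = (X - C a) ^ N := by
    rw [hb, Algebra.norm_algebraMap_of_basis e, Fintype.card_fin]
  have hfr : finrank K (A ⧸ Ideal.span {b}) = N := by
    rw [finrank_quotient_span_eq_natDegree_norm e hb0, hnorm, natDegree_pow, natDegree_X_sub_C,
      mul_one]
  have hne : Ideal.span {b} ≠ ⊤ := by
    intro h
    rw [h] at hfr
    have : Subsingleton (A ⧸ (⊤ : Ideal A)) := Ideal.Quotient.subsingleton_iff.2 rfl
    rw [finrank_zero_of_subsingleton] at hfr
    omega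
  obtain ⟨I, hI, hle⟩ := Ideal.exists_le_maximal _ hne
  have hNoeth : IsNoetherianRing A := IsNoetherianRing.of_finite K[X] A
  obtain ⟨u, g, hg⟩ := Submodule.fg_iff_exists_fin_generating_family.mp (hNoeth.noetherian I)
  have hbI : b ∈ I := hle (Ideal.mem_span_singleton_self b)
  have hsp : Ideal.span (Set.range (Fin.cons b g : Fin (u + 1) → A)) = I := by
    apply le_antisymm
    · rw [Ideal.span_le]
      rintro _ ⟨i, rfl⟩
      refine Fin.cases ?_ (fun j => ?_) i
      · exact hbI
      · rw [← hg]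
        exact Ideal.subset_span ⟨j, rfl⟩
    · rw [← hg]
      apply Ideal.span_le.2
      rintro _ ⟨j, rfl⟩
      exact Ideal.subset_span ⟨j.succ, rfl⟩
  have hfinb : Module.Finite K (A ⧸ Ideal.span {b}) :=
    Module.finite_of_finrank_pos (by rw [hfr]; exact hN)
  have hft : Algebra.FiniteType K A :=
    Algebra.FiniteType.trans (S := K[X]) inferInstance inferInstance
  refine ⟨u + 1, Fin.cons b g, by rw [hsp]; exact hI, ⟨0, rfl⟩, ?_, ?_⟩
  · rw [hsp, ← hfr]
    exact LinearMap.finrank_le_finrank_of_surjective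
      (f := (Ideal.Quotient.factorₐ K hle).toLinearMap) (Ideal.Quotient.factor_surjective hle)
  · rw [hsp]
    obtain ⟨L, _, _, _, ψ, h1, h2, h3⟩ := exists_field (K := K) I hI
    rw [← h3]
    have : FiniteDimensional K L := FiniteDimensional.right ℚ K L
    exact finrank_pos

omit [IsScalarTower K K[X] A] [Module.Finite K[X] A] [IsDomain A] [FaithfulSMul K[X] A] in
/-- the clause of `StmMainC` on the truncated counting functions -/
def TrC {m : ℕ} (f : Fin m → A) (E : Set (ℙ K (Fin m → K))) : Prop :=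
  ∀ (q : ℕ) (u : Fin q → ℕ) (g : ∀ j, Fin (u j) → A),
      (∀ j, (Ideal.span (Set.range (g j))).IsMaximal) →
      (∀ i j, i ≠ j → Ideal.span (Set.range (g i)) ≠ Ideal.span (Set.range (g j))) →
      (∀ j, ∃ (L : Type) (_ : Field L) (_ : NumberField L) (_ : Algebra K L) (ψ : A →ₐ[K] L),
        Function.Surjective ψ ∧ RingHom.ker ψ = Ideal.span (Set.range (g j)) ∧
          Wide K (fun i => ψ (f i))) →
      ∀ (S : Finset ℕ) (κ : ℝ), 0 < κ → ∃ C : ℝ,
        ∀ (M : Type) [Field M] [NumberField M] [Algebra K M] (φ : A →ₐ[K] M)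
          (P : ℙ K (Fin m → K)), P ∉ E → Function.Surjective φ →
          RingHom.ker φ = Ideal.span {mem f P.rep} →
          (∀ j, RingHom.ker φ ≠ Ideal.span (Set.range (g j))) →
          ∃ W : Finset (HeightOneSpectrum (𝓞 M)), (∀ w ∈ W, ∃ j, NearC S (g j) φ w) ∧
            (∑ j, (finrank K (A ⧸ Ideal.span (Set.range (g j))) : ℝ) - κ) *
              Height.logHeight P.rep ≤ ∑ w ∈ W, lN w + C

theorem ht_low1 {m : ℕ} (f : Fin m → A) (E : Set (ℙ K (Fin m → K))) (hT : TrC f E) (N : ℕ)
    (e : Basis (Fin N) K[X] A) (hN : 1 ≤ N)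
    (hw : ∀ (L : Type) [Field L] [NumberField L] [Algebra K L] (ψ : A →ₐ[K] L),
      Function.Surjective ψ → finrank K L ≤ N → Wide K (fun i => ψ (f i))) (a : K) :
    ∃ C : ℝ, ∀ (M : Type) [Field M] [NumberField M] [Algebra K M] (φ : A →ₐ[K] M)
      (P : ℙ K (Fin m → K)), P ∉ E → Function.Surjective φ →
      RingHom.ker φ = Ideal.span {mem f P.rep} →
      φ (algebraMap K[X] A X) - algebraMap K M a ≠ 0 →
      Height.logHeight P.rep ≤
        2 * Height.logHeight₁ (φ (algebraMap K[X] A X) - algebraMap K M a) + C := by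
  classical
  obtain ⟨u, g, hmax, ⟨i, hi⟩, h1, h2⟩ := exists_above N e hN a
  obtain ⟨C, hC⟩ := hT 1 (fun _ => u) (fun _ => g) (fun _ => hmax)
    (fun i j hij => absurd (Subsingleton.elim i j) hij) (fun _ => by
      obtain ⟨L, _, _, _, ψ, g1, g2, g3⟩ := exists_field (K := K) _ hmax
      exact ⟨L, inferInstance, inferInstance, inferInstance, ψ, g1, g2, hw L ψ g1 (by rw [g3]; exact h1)⟩)
    ∅ (1 / 2) (by norm_num)
  refine ⟨2 * C, ?_⟩
  intro M _ _ _ φ P hP hs hk hne
  have hφ : φ (algebraMap K[X] A (X - Polynomial.C a)) =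
      φ (algebraMap K[X] A X) - algebraMap K M a := by
    rw [map_sub, map_sub]
    congr 1
    have e1 : algebraMap K[X] A (Polynomial.C a) = algebraMap K A a :=
      (IsScalarTower.algebraMap_apply K K[X] A a).symm
    rw [e1, AlgHom.commutes]
  have hgi : φ (g i) ≠ 0 := by rw [hi, hφ]; exact hne
  obtain ⟨W, hW1, hW2⟩ := hC M φ P hP hs hk (fun _ h => by
    have h3 : g i ∈ RingHom.ker φ := by
      rw [h]
      exact Ideal.subset_span ⟨i, rfl⟩
    exact hgi h3)
  have h3 : ∑ w ∈ W, lN w ≤ Height.logHeight₁ (φ (g i)) := by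
    refine Pool.Agent.N415.DRVK.wt_le hgi W fun w hw => ?_
    obtain ⟨j, -, -, h4⟩ := hW1 w hw
    exact h4 i
  rw [hi, hφ] at h3
  have h4 : (1 : ℝ) ≤ finrank K (A ⧸ Ideal.span (Set.range g)) := by exact_mod_cast h2
  have h5 : 0 ≤ Height.logHeight P.rep := Height.logHeight_nonneg _
  rw [Fin.sum_univ_one] at hW2
  nlinarith

theorem ht_low {m : ℕ} (f : Fin m → A) (E : Set (ℙ K (Fin m → K))) (hT : TrC f E) (N : ℕ)
    (e : Basis (Fin N) K[X] A) (hN : 1 ≤ N)
    (hw : ∀ (L : Type) [Field L] [NumberField L] [Algebra K L] (ψ : A →ₐ[K] L),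
      Function.Surjective ψ → finrank K L ≤ N → Wide K (fun i => ψ (f i))) :
    ∃ C : ℝ, 0 ≤ C ∧ ∀ (M : Type) [Field M] [NumberField M] [Algebra K M] (φ : A →ₐ[K] M)
      (P : ℙ K (Fin m → K)), P ∉ E → Function.Surjective φ →
      RingHom.ker φ = Ideal.span {mem f P.rep} →
      Height.logHeight P.rep ≤ 2 * Height.logHeight₁ (φ (algebraMap K[X] A X)) + C := by
  obtain ⟨C0, h0⟩ := ht_low1 f E hT N e hN hw 0
  obtain ⟨C1, h1⟩ := ht_low1 f E hT N e hN hw 1
  refine ⟨max (max C0 C1) 0, le_max_right _ _, ?_⟩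
  intro M _ _ _ φ P hP hs hk
  by_cases hz : φ (algebraMap K[X] A X) = 0
  · have h2 := h1 M φ P hP hs hk (by rw [hz, map_one]; simp)
    rw [hz, map_one, zero_sub, Height.logHeight₁_neg, Height.logHeight₁_one] at h2
    have h3 : C1 ≤ max (max C0 C1) 0 := (le_max_right _ _).trans (le_max_left _ _)
    have h4 := Height.zero_le_logHeight₁ (φ (algebraMap K[X] A X))
    linarith
  · have h2 := h0 M φ P hP hs hk (by rw [map_zero, sub_zero]; exact hz)
    rw [map_zero, sub_zero] at h2
    have h3 : C0 ≤ max (max C0 C1) 0 := (le_max_left _ _).trans (le_max_left _ _)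
    linarith

end

end Pool.Agent.N753.DR
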