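import Pool.Agent.N753.DR.Stm6
import Pool.Agent.N753.DR.AllDR

/-!
# Project PC: the step for products of curves
-/

set_option autoImplicit false

namespace Pool.Agent.N753.DR

open NumberField IsDedekindDomain Module Polynomial Height
open Pool.Agent.Y729.RV (Nr cnt nr_fin cnt_eq)
open IntermediateField (AdjoinSimple.gen)

section above

variable {F : Type} [Field F] [NumberField F]

theorem lN0 (w : HeightOneSpectrum (𝓞 F)) : 0 ≤ lN w := Real.log_natCast_nonneg _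

/-- the primes above `p` -/
theorem sum_above_one {p : ℕ} (hp : p.Prime) (W : Finset (HeightOneSpectrum (𝓞 F)))
    (hW : ∀ w ∈ W, (p : 𝓞 F) ∈ w.asIdeal) : ∑ w ∈ W, lN w ≤ finrank ℚ F * Real.log p := by
  classical
  have h1 : ∏ w ∈ W, w.asIdeal ∣ Ideal.span {(p : 𝓞 F)} := by
    refine Finset.prod_dvd_of_coprime ?_ fun w hw => ?_
    · intro w _ w' _ hne
      exact w.isCoprime_of_ne w' hne
    · rw [Ideal.dvd_span_singleton]
      exact hW w hw
  have h2 : (∏ w ∈ W, Ideal.absNorm w.asIdeal) ∣ p ^ finrank ℚ F := by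
    have h3 := map_dvd (Ideal.absNorm (S := 𝓞 F)) h1
    rw [map_prod, Ideal.absNorm_span_singleton] at h3
    have h4 : (Algebra.norm ℤ (p : 𝓞 F)).natAbs = p ^ finrank ℚ F := by
      have h5 : (p : 𝓞 F) = algebraMap ℤ (𝓞 F) (p : ℤ) := by simp
      rw [h5, Algebra.norm_algebraMap, RingOfIntegers.rank F, Int.natAbs_pow, Int.natAbs_natCast]
    rwa [h4] at h3
  have h3 : ((∏ w ∈ W, Ideal.absNorm w.asIdeal : ℕ) : ℝ) ≤ (p : ℝ) ^ finrank ℚ F := by
    exact_mod_cast Nat.le_of_dvd (pow_pos hp.pos _) h2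
  have h4 : ∑ w ∈ W, lN w = Real.log ((∏ w ∈ W, Ideal.absNorm w.asIdeal : ℕ) : ℝ) := by
    push_cast
    rw [Real.log_prod]
    · rfl
    · intro w _ h0
      have h5 : Ideal.absNorm w.asIdeal ≠ 0 := fun h => w.ne_bot (Ideal.absNorm_eq_zero_iff.1 h)
      exact h5 (by exact_mod_cast h0)
  rw [h4, ← Real.log_pow]
  refine Real.log_le_log ?_ h3
  have h5 : (∏ w ∈ W, Ideal.absNorm w.asIdeal : ℕ) ≠ 0 := Finset.prod_ne_zero_iff.2 fun w _ h =>
    w.ne_bot (Ideal.absNorm_eq_zero_iff.1 h)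
  exact_mod_cast Nat.pos_of_ne_zero h5

/-- the primes above the primes of `Q` -/
theorem sum_above (Q : Finset ℕ) (hQ : ∀ p ∈ Q, p.Prime) (W : Finset (HeightOneSpectrum (𝓞 F)))
    (hW : ∀ w ∈ W, ∃ p ∈ Q, (p : 𝓞 F) ∈ w.asIdeal) :
    ∑ w ∈ W, lN w ≤ finrank ℚ F * ∑ p ∈ Q, Real.log p := by
  classical
  calc ∑ w ∈ W, lN w ≤ ∑ w ∈ W, ∑ p ∈ Q, (if (p : 𝓞 F) ∈ w.asIdeal then lN w else 0) := by
        refine Finset.sum_le_sum fun w hw => ?_
        obtain ⟨p, hp, hpw⟩ := hW w hw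
        have h1 := Finset.single_le_sum (f := fun p : ℕ => if (p : 𝓞 F) ∈ w.asIdeal then lN w else 0)
          (fun p _ => by split_ifs; exacts [lN0 w, le_rfl]) hp
        simpa [hpw] using h1
    _ = ∑ p ∈ Q, ∑ w ∈ W, (if (p : 𝓞 F) ∈ w.asIdeal then lN w else 0) := Finset.sum_comm
    _ = ∑ p ∈ Q, ∑ w ∈ W.filter fun w => (p : 𝓞 F) ∈ w.asIdeal, lN w := by
        refine Finset.sum_congr rfl fun p _ => ?_
        rw [Finset.sum_filter]
    _ ≤ ∑ p ∈ Q, (finrank ℚ F : ℝ) * Real.log p := Finset.sum_le_sum fun p hp =>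
        sum_above_one (hQ p hp) _ fun w hw => (Finset.mem_filter.1 hw).2
    _ = _ := by rw [Finset.mul_sum]

/-- several counting functions -/
theorem overlap {m : ℕ} (S : Finset ℕ) (A : Fin m → HeightOneSpectrum (𝓞 F) → Prop)
    (hA : ∀ i, {v | A i v}.Finite) (R : Finset ℕ) (hR : ∀ p ∈ R, p.Prime)
    (h : ∀ i i', i ≠ i' → ∀ v, (∀ p ∈ S, (p : 𝓞 F) ∉ v.asIdeal) → A i v → A i' v →
      ∃ p ∈ R, (p : 𝓞 F) ∈ v.asIdeal) :
    ∑ i, Pool.Agent.W223.CV.cc S (A i) ≤ Pool.Agent.W223.CV.cc S (fun v => ∃ i, A i v) +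
      m * (finrank ℚ F * ∑ p ∈ R, Real.log p) := by
  classical
  open Pool.Agent.W223.CV in
  set Z : Finset (HeightOneSpectrum (𝓞 F)) := Finset.univ.biUnion fun i => (hA i).toFinset with hZ
  have hZm : ∀ i v, A i v → v ∈ Z := fun i v hv => by
    rw [hZ, Finset.mem_biUnion]
    exact ⟨i, Finset.mem_univ _, (hA i).mem_toFinset.2 hv⟩
  have h1 : ∀ i, Pool.Agent.W223.CV.cc S (A i) = ∑ v ∈ Z, Pool.Agent.W223.CV.ct S (A i) v := by
    intro i
    unfold Pool.Agent.W223.CV.cc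
    refine finsum_eq_sum_of_support_subset _ fun v hv => ?_
    rw [Function.mem_support] at hv
    by_contra hcon
    exact hv (Pool.Agent.W223.CV.ct_neg fun h2 => hcon (hZm i v h2.2))
  have h2 : Pool.Agent.W223.CV.cc S (fun v => ∃ i, A i v) =
      ∑ v ∈ Z, Pool.Agent.W223.CV.ct S (fun v => ∃ i, A i v) v := by
    unfold Pool.Agent.W223.CV.cc
    refine finsum_eq_sum_of_support_subset _ fun v hv => ?_
    rw [Function.mem_support] at hv
    by_contra hcon
    exact hv (Pool.Agent.W223.CV.ct_neg fun h2 => hcon (hZm h2.2.choose v h2.2.choose_spec))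
  have h3 : ∀ v ∈ Z, ∑ i, Pool.Agent.W223.CV.ct S (A i) v ≤
      Pool.Agent.W223.CV.ct S (fun v => ∃ i, A i v) v +
        m * (if ∃ p ∈ R, (p : 𝓞 F) ∈ v.asIdeal then lN v else 0) := by
    intro v _
    have h0 := Pool.Agent.W223.CV.ct_nonneg S (fun v => ∃ i, A i v) v
    by_cases hR : ∃ p ∈ R, (p : 𝓞 F) ∈ v.asIdeal
    · rw [if_pos hR]
      have h4 : ∑ i, Pool.Agent.W223.CV.ct S (A i) v ≤ ∑ _i : Fin m, lN v := by
        refine Finset.sum_le_sum fun i _ => ?_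
        unfold Pool.Agent.W223.CV.ct
        split_ifs
        · exact le_rfl
        · exact lN0 v
      rw [Finset.sum_const, Finset.card_univ, Fintype.card_fin, nsmul_eq_mul] at h4
      linarith
    · rw [if_neg hR, mul_zero, add_zero]
      by_cases hS : ∀ p ∈ S, (p : 𝓞 F) ∉ v.asIdeal
      · by_cases hi : ∃ i, A i v
        · obtain ⟨i, hi'⟩ := hi
          rw [Finset.sum_eq_single i]
          · rw [Pool.Agent.W223.CV.ct_pos ⟨hS, hi'⟩,
              Pool.Agent.W223.CV.ct_pos (A := fun v => ∃ i, A i v) ⟨hS, i, hi'⟩]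
          · intro i' _ hne
            refine Pool.Agent.W223.CV.ct_neg fun h5 => hR ?_
            exact h i' i hne v hS h5.2 hi'
          · intro h5
            exact absurd (Finset.mem_univ i) h5
        · refine le_trans (le_of_eq ?_) h0
          refine Finset.sum_eq_zero fun i _ => Pool.Agent.W223.CV.ct_neg fun h5 => hi ⟨i, h5.2⟩
      · refine le_trans (le_of_eq ?_) h0
        exact Finset.sum_eq_zero fun i _ => Pool.Agent.W223.CV.ct_neg fun h5 => hS h5.1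
  have h4 : ∑ v ∈ Z, (if ∃ p ∈ R, (p : 𝓞 F) ∈ v.asIdeal then lN v else 0) ≤
      finrank ℚ F * ∑ p ∈ R, Real.log p := by
    rw [← Finset.sum_filter]
    exact sum_above R hR _ fun w hw => (Finset.mem_filter.1 hw).2
  calc ∑ i, Pool.Agent.W223.CV.cc S (A i) = ∑ v ∈ Z, ∑ i, Pool.Agent.W223.CV.ct S (A i) v := by
        rw [Finset.sum_comm]
        exact Finset.sum_congr rfl fun i _ => h1 i
    _ ≤ ∑ v ∈ Z, (Pool.Agent.W223.CV.ct S (fun v => ∃ i, A i v) v +
        m * (if ∃ p ∈ R, (p : 𝓞 F) ∈ v.asIdeal then lN v else 0)) := Finset.sum_le_sum h3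
    _ ≤ _ := by
        rw [Finset.sum_add_distrib, ← Finset.mul_sum, h2]
        have := mul_le_mul_of_nonneg_left h4 (Nat.cast_nonneg m : (0 : ℝ) ≤ m)
        linarith

end above

end Pool.Agent.N753.DR
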