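import Pool.Agent.N753.DR.PCa

/-!
# Project PC: the step for products of curves
-/

set_option autoImplicit false

namespace Pool.Agent.N753.DR

open NumberField IsDedekindDomain Module Polynomial Height
open Pool.Agent.Y729.RV (Nr cnt nr_fin cnt_eq nr_iff)
open IntermediateField (AdjoinSimple.gen)

/-- the conditions at one factor: all near primes are in `W` -/
def LineH {k L : Type} [Field k] [NumberField k] [Field L] [NumberField L] [Algebra k L]
    {q : ℕ} (T : Finset ℕ) (a : Fin q → k) (t : L) (ε c : ℝ) : Prop :=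
  ∀ W : Finset (HeightOneSpectrum (𝓞 (IntermediateField.adjoin k {t}))),
    (∀ w, (∀ p ∈ T, p ≠ 0 → (p : 𝓞 (IntermediateField.adjoin k {t})) ∉ w.asIdeal) →
      w.valuation (IntermediateField.adjoin k {t}) (AdjoinSimple.gen k t) ≤ 1 →
      (∃ j, w.valuation (IntermediateField.adjoin k {t})
        (AdjoinSimple.gen k t - algebraMap k _ (a j)) < 1) → w ∈ W) →
    (q - ε) * logHeight₁ (AdjoinSimple.gen k t) ≤ ∑ w ∈ W, lN w + c

/-- one factor -/
theorem pone (k A : Type) [Field k] [NumberField k] [CommRing A] [IsDedekindDomain A] [Algebra k A]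
    [Algebra k[X] A] [IsScalarTower k k[X] A] [Module.Finite k[X] A] [FaithfulSMul k[X] A]
    {q : ℕ} (hq : 1 ≤ q) (a : Fin q → k) (u : Fin q → ℕ) (y : ∀ j, Fin (u j) → A)
    (E : Fin q → Ideal A) (hE : ∀ j, E j ≠ ⊥)
    (hyE : ∀ j i, ∀ e ∈ E j,
      y j i * e ∈ (Ideal.span {algebraMap k[X] A X - algebraMap k A (a j)}).radical)
    (ε : ℝ) (hε : 0 < ε) :
    ∃ (M : ℕ) (C : ℝ), M ≠ 0 ∧ 0 ≤ C ∧ ∀ (S T : Finset ℕ), S ⊆ T → M.primeFactors ⊆ T →
      (∀ p ∈ T, p ≠ 0) →
      ∀ (L : Type) [Field L] [NumberField L] [Algebra k L] (φ : A →ₐ[k] L) (c : ℝ), 0 ≤ c →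
        (∀ j, φ (algebraMap k[X] A X) ≠ algebraMap k L (a j)) →
        ∀ Q : Finset ℕ, (∀ p ∈ Q, p.Prime) → LineH T a (φ (algebraMap k[X] A X)) ε c →
        ∃ (W : Finset (HeightOneSpectrum
            (𝓞 (IntermediateField.adjoin k {φ (algebraMap k[X] A X)}))))
          (V : Finset (HeightOneSpectrum (𝓞 L))),
          (∀ u : HeightOneSpectrum (𝓞 L), u ∈ V ↔ ∃ w ∈ W, u.asIdeal.LiesOver w.asIdeal) ∧
          (∀ u ∈ V, Nr T a (φ (algebraMap k[X] A X)) u ∧ ∀ p ∈ Q, (p : 𝓞 L) ∉ u.asIdeal) ∧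
          (q - (∑ j, (finrank k (A ⧸ E j) : ℝ)) / finrank k[X] A - 2 * ε) *
              logHeight₁ (φ (algebraMap k[X] A X)) + ∑ u ∈ V, lN u ≤
            Pool.Agent.W223.CV.cc S (fun v : HeightOneSpectrum (𝓞 L) =>
              v.valuation L (φ (algebraMap k[X] A X)) ≤ 1 ∧
              ∃ j, v.valuation L (φ (algebraMap k[X] A X) - algebraMap k L (a j)) < 1 ∧
                ∀ i, v.valuation L (φ (y j i)) < 1) +
            finrank (IntermediateField.adjoin k {φ (algebraMap k[X] A X)}) L * ∑ w ∈ W, lN w +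
            finrank ℚ L * (C + c + ∑ p ∈ Q, Real.log p) := by
  classical
  obtain ⟨M, C, G, hM, hC, hG, hkey⟩ := Pool.Agent.Y729.RV.keyK Pool.Agent.Y728.MN.partNB
    Pool.Agent.W460.AC.t Pool.Agent.W989.AC.MULT.t Pool.Agent.W597.AC.t k A hq a u y E hE hyE ε hε
  obtain ⟨C3, hC3, hbdd⟩ := bdd (k := k) G hG
  refine ⟨M, C + q * C3, hM, by positivity, ?_⟩
  intro S T hST hMT hT L _ _ _ φ c hc hne Q hQ hline
  set t := φ (algebraMap k[X] A X) with ht
  have hnL : (0 : ℝ) < finrank ℚ L := by exact_mod_cast finrank_pos (R := ℚ) (M := L)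
  have hfd : FiniteDimensional k L := FiniteDimensional.right ℚ k L
  have hFpos : 0 < finrank (IntermediateField.adjoin k {t}) L := by
    have : FiniteDimensional (IntermediateField.adjoin k {t}) L :=
      FiniteDimensional.right ℚ (IntermediateField.adjoin k {t}) L
    exact finrank_pos (R := IntermediateField.adjoin k {t}) (M := L)
  have hF0 : (0 : ℝ) < finrank (IntermediateField.adjoin k {t}) L := by exact_mod_cast hFpos
  have hmulQ : (finrank (IntermediateField.adjoin k {t}) L : ℝ) *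
      finrank ℚ (IntermediateField.adjoin k {t}) = finrank ℚ L := by
    have h1 := finrank_mul_finrank ℚ (IntermediateField.adjoin k {t}) L
    rw [← h1]
    push_cast
    ring
  have hFL : (finrank (IntermediateField.adjoin k {t}) L : ℝ) ≤ finrank ℚ L := by
    have h2 : (1 : ℝ) ≤ finrank ℚ (IntermediateField.adjoin k {t}) := by
      exact_mod_cast (finrank_pos : 0 < finrank ℚ (IntermediateField.adjoin k {t}))
    rw [← hmulQ]
    nlinarith
  have hlogQ : 0 ≤ ∑ p ∈ Q, Real.log p := Finset.sum_nonneg fun p _ => Real.log_natCast_nonneg p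
  have hcc0 : 0 ≤ Pool.Agent.W223.CV.cc S (fun v : HeightOneSpectrum (𝓞 L) =>
            v.valuation L t ≤ 1 ∧ ∃ j, v.valuation L (t - algebraMap k L (a j)) < 1 ∧
              ∀ i, v.valuation L (φ (y j i)) < 1) := by
    unfold Pool.Agent.W223.CV.cc
    exact finsum_nonneg fun v => Pool.Agent.W223.CV.ct_nonneg _ _ v
  have hDD : 0 ≤ (∑ j, (finrank k (A ⧸ E j) : ℝ)) / finrank k[X] A := by positivity
  by_cases hGt : aeval t G ≠ 0
  · have h1 := hkey S L φ hGt hne
    rw [← ht] at h1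
    have hy : ∀ j, AdjoinSimple.gen k t ≠
        algebraMap k (IntermediateField.adjoin k {t}) (a j) := by
      intro j h
      apply hne j
      have h2 := congrArg (algebraMap (IntermediateField.adjoin k {t}) L) h
      rw [← IsScalarTower.algebraMap_apply] at h2
      exact h2
    have hgen : algebraMap (IntermediateField.adjoin k {t}) L (AdjoinSimple.gen k t) = t := rfl
    -- the near primes of `k(t)` and of `L`
    set W0 := (nr_fin T hy).toFinset with hW0
    set V0 := (nr_fin T (L := L) (y := t) hne).toFinset with hV0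
    set W := W0.filter fun w => ∀ p ∈ Q, (p : 𝓞 (IntermediateField.adjoin k {t})) ∉ w.asIdeal
      with hW
    set V := V0.filter fun v => ∀ p ∈ Q, (p : 𝓞 L) ∉ v.asIdeal with hV
    have hmemp : ∀ (w : HeightOneSpectrum (𝓞 (IntermediateField.adjoin k {t})))
        (v : HeightOneSpectrum (𝓞 L)), v.asIdeal.LiesOver w.asIdeal → ∀ p : ℕ,
        ((p : 𝓞 L) ∈ v.asIdeal ↔ (p : 𝓞 (IntermediateField.adjoin k {t})) ∈ w.asIdeal) := by
      intro w v hvw p
      rw [Ideal.mem_of_liesOver v.asIdeal w.asIdeal, map_natCast]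
    refine ⟨W, V, ?_, ?_, ?_⟩
    · intro v
      constructor
      · intro hv
        rw [hV, Finset.mem_filter, hV0, Set.Finite.mem_toFinset] at hv
        let w : HeightOneSpectrum (𝓞 (IntermediateField.adjoin k {t})) := v.under _
        have hvw : v.asIdeal.LiesOver w.asIdeal := ⟨rfl⟩
        refine ⟨w, ?_, hvw⟩
        rw [hW, Finset.mem_filter, hW0, Set.Finite.mem_toFinset]
        refine ⟨(nr_iff T a (AdjoinSimple.gen k t) w v).1 hv.1, fun p hp h2 => ?_⟩
        exact hv.2 p hp ((hmemp w v hvw p).2 h2)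
      · rintro ⟨w, hw, hvw⟩
        rw [hW, Finset.mem_filter, hW0, Set.Finite.mem_toFinset] at hw
        rw [hV, Finset.mem_filter, hV0, Set.Finite.mem_toFinset]
        refine ⟨(nr_iff T a (AdjoinSimple.gen k t) w v).2 hw.1, fun p hp h2 => ?_⟩
        exact hw.2 p hp ((hmemp w v hvw p).1 h2)
    · intro v hv
      rw [hV, Finset.mem_filter, hV0, Set.Finite.mem_toFinset] at hv
      exact hv
    · have h3 := hline W0 (by
        intro w hw1 hw2 hw3
        rw [hW0, Set.Finite.mem_toFinset]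
        exact ⟨fun p hp => hw1 p hp (hT p hp), hw2, hw3⟩)
      have h4 : ∑ w ∈ W0, lN w ≤ ∑ w ∈ W, lN w +
          finrank ℚ (IntermediateField.adjoin k {t}) * ∑ p ∈ Q, Real.log p := by
        rw [← Finset.sum_filter_add_sum_filter_not W0 fun w => ∀ p ∈ Q,
          (p : 𝓞 (IntermediateField.adjoin k {t})) ∉ w.asIdeal]
        refine add_le_add le_rfl (sum_above Q hQ _ fun w hw => ?_)
        have h5 := (Finset.mem_filter.1 hw).2
        push Not at h5
        exact h5
      -- the counting function of `L`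
      have h5 : ∑ u ∈ V, lN u ≤ cnt (S ∪ M.primeFactors) a t := by
        rw [cnt_eq (S ∪ M.primeFactors) hne]
        refine Finset.sum_le_sum_of_subset_of_nonneg ?_ fun v _ _ => lN0 v
        intro v hv
        rw [hV, Finset.mem_filter, hV0, Set.Finite.mem_toFinset] at hv
        rw [Set.Finite.mem_toFinset]
        refine ⟨fun p hp => hv.1.1 p ?_, hv.1.2⟩
        exact Finset.union_subset hST hMT hp
      have h6 := gen_ht (k := k) t
      have h7 : Real.log (mulHeight₁ t) = logHeight₁ t := rfl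
      rw [h7] at h1
      have h8 := mul_le_mul_of_nonneg_left (h3.trans (add_le_add_left h4 c)) hF0.le
      have h9 : (q - ε) * logHeight₁ t ≤
          finrank (IntermediateField.adjoin k {t}) L * ∑ w ∈ W, lN w +
          finrank ℚ L * ∑ p ∈ Q, Real.log p +
          finrank (IntermediateField.adjoin k {t}) L * c := by
        rw [h6, ← hmulQ]
        nlinarith
      have h10 : (finrank (IntermediateField.adjoin k {t}) L : ℝ) * c ≤ finrank ℚ L * c :=
        mul_le_mul_of_nonneg_right hFL hc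
      have h12 : 0 ≤ (finrank ℚ L : ℝ) * (q * C3) := by positivity
      nlinarith
  · rw [not_not] at hGt
    have hfd' : FiniteDimensional k (IntermediateField.adjoin k {t}) :=
      FiniteDimensional.right ℚ k _
    have hg : aeval (AdjoinSimple.gen k t) G = 0 := by
      apply (algebraMap (IntermediateField.adjoin k {t}) L).injective
      rw [map_zero, ← aeval_algebraMap_apply]
      exact hGt
    have hdeg : (minpoly k (AdjoinSimple.gen k t)).natDegree =
        finrank k (IntermediateField.adjoin k {t}) := by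
      rw [IntermediateField.minpoly_gen,
        IntermediateField.adjoin.finrank (IsIntegral.of_finite k t)]
    obtain ⟨h1, h2⟩ := hbdd (IntermediateField.adjoin k {t}) (AdjoinSimple.gen k t) hdeg hg
    have h3 := gen_ht (k := k) t
    have h4 : logHeight₁ t ≤ finrank ℚ L * C3 := by
      rw [h3]
      calc (finrank (IntermediateField.adjoin k {t}) L : ℝ) * logHeight₁ (AdjoinSimple.gen k t) ≤
          finrank (IntermediateField.adjoin k {t}) L * C3 :=
            mul_le_mul_of_nonneg_left h1 hF0.le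
        _ ≤ _ := mul_le_mul_of_nonneg_right hFL hC3
    refine ⟨∅, ∅, by simp, by simp, ?_⟩
    have h6 : (q - (∑ j, (finrank k (A ⧸ E j) : ℝ)) / finrank k[X] A - 2 * ε) * logHeight₁ t ≤
        q * (finrank ℚ L * C3) := by
      have h8 := zero_le_logHeight₁ t
      calc (q - (∑ j, (finrank k (A ⧸ E j) : ℝ)) / finrank k[X] A - 2 * ε) * logHeight₁ t ≤
          q * logHeight₁ t := mul_le_mul_of_nonneg_right (by linarith) h8
        _ ≤ _ := mul_le_mul_of_nonneg_left h4 (Nat.cast_nonneg _)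
    have h7 : 0 ≤ (finrank ℚ L : ℝ) * (C + c + ∑ p ∈ Q, Real.log p) := by positivity
    have h8 : (q : ℝ) * (finrank ℚ L * C3) = finrank ℚ L * (q * C3) := by ring
    rw [Finset.sum_empty, Finset.sum_empty]
    nlinarith

/-- **points above a tuple of points of the line** -/
theorem pstep (hcomb : StmComb) (k : Type) [Field k] [NumberField k] (m : ℕ)
    (A : Fin m → Type) [∀ i, CommRing (A i)] [∀ i, IsDedekindDomain (A i)] [∀ i, Algebra k (A i)]
    [∀ i, Algebra k[X] (A i)] [∀ i, IsScalarTower k k[X] (A i)]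
    [∀ i, Module.Finite k[X] (A i)] [∀ i, FaithfulSMul k[X] (A i)]
    (q : Fin m → ℕ) (hq : ∀ i, 1 ≤ q i) (a : ∀ i, Fin (q i) → k) (u : ∀ i, Fin (q i) → ℕ)
    (y : ∀ i j, Fin (u i j) → A i) (E : ∀ i, Fin (q i) → Ideal (A i)) (hE : ∀ i j, E i j ≠ ⊥)
    (hyE : ∀ i j l, ∀ e ∈ E i j,
      y i j l * e ∈ (Ideal.span {algebraMap k[X] (A i) X - algebraMap k (A i) (a i j)}).radical)
    (S : Finset ℕ) (ε : ℝ) (hε : 0 < ε) :
    ∃ (T : Finset ℕ) (C : ℝ), S ⊆ T ∧ (∀ p ∈ T, p ∉ S → p.Prime) ∧ 0 ≤ C ∧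
      ∀ T' : Finset ℕ, T ⊆ T' →
      (∀ p ∈ T', p ∉ S → p.Prime) → (∀ p ∈ T', p ≠ 0) →
      ∀ (L : Type) [Field L] [NumberField L] [Algebra k L] (φ : ∀ i, A i →ₐ[k] L) (c : ℝ), 0 ≤ c →
        (∀ i j, φ i (algebraMap k[X] (A i) X) ≠ algebraMap k L (a i j)) →
        ∀ Q : Finset ℕ, (∀ p ∈ Q, p.Prime) →
        (∀ i i', i ≠ i' → ∀ v : HeightOneSpectrum (𝓞 L),
          Nr T' (a i) (φ i (algebraMap k[X] (A i) X)) v →
          Nr T' (a i') (φ i' (algebraMap k[X] (A i') X)) v → ∃ p ∈ Q, (p : 𝓞 L) ∈ v.asIdeal) →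
        (∀ i, LineH T' (a i) (φ i (algebraMap k[X] (A i) X)) ε c) →
        ∑ i, (q i - (∑ j, (finrank k (A i ⧸ E i j) : ℝ)) / finrank k[X] (A i) - 2 * ε) *
            logHeight₁ (φ i (algebraMap k[X] (A i) X)) ≤
          Pool.Agent.W223.CV.cc S (fun v : HeightOneSpectrum (𝓞 L) => ∃ i,
            v.valuation L (φ i (algebraMap k[X] (A i) X)) ≤ 1 ∧
            ∃ j, v.valuation L (φ i (algebraMap k[X] (A i) X) - algebraMap k L (a i j)) < 1 ∧
              ∀ l, v.valuation L (φ i (y i j l)) < 1) +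
          Real.log |(discr L : ℝ)| + finrank ℚ L * (C + m * ∑ p ∈ T', Real.log p + m * c +
            2 * m * ∑ p ∈ Q, Real.log p) := by
  classical
  have hp := fun i => pone k (A i) (hq i) (a i) (u i) (y i) (E i) (hE i) (hyE i) ε hε
  choose M C hM hC hp using hp
  set T : Finset ℕ := S ∪ Finset.univ.biUnion fun i => (M i).primeFactors with hTdef
  refine ⟨T, ∑ i, C i, Finset.subset_union_left, ?_, Finset.sum_nonneg fun i _ => hC i, ?_⟩
  · intro p hp hpS
    rcases Finset.mem_union.1 hp with h | h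
    · exact absurd h hpS
    · obtain ⟨i, -, hi⟩ := Finset.mem_biUnion.1 h
      exact Nat.prime_of_mem_primeFactors hi
  intro T' hTT' hT'p hT' L _ _ _ φ c hc hne Q hQ hcoin hline
  have hMT : ∀ i, (M i).primeFactors ⊆ T' := fun i p hp => hTT' (by
    rw [hTdef]
    exact Finset.mem_union_right _ (Finset.mem_biUnion.2 ⟨i, Finset.mem_univ _, hp⟩))
  have hST : S ⊆ T' := Finset.subset_union_left.trans hTT'
  have h1 := fun i => hp i S T' hST (hMT i) hT' L (φ i) c hc (hne i) Q hQ (hline i)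
  choose W V hWV hV h1 using h1
  have h2 := hcomb k L m (fun i => IntermediateField.adjoin k {φ i (algebraMap k[X] (A i) X)})
    W V hWV (by
      intro i i' hii
      rw [Finset.disjoint_left]
      intro v hv hv'
      obtain ⟨p, hp, hpv⟩ := hcoin i i' hii v (hV i v hv).1 (hV i' v hv').1
      exact (hV i v hv).2 p hp hpv)
  have hfin : ∀ i, {v : HeightOneSpectrum (𝓞 L) |
      v.valuation L (φ i (algebraMap k[X] (A i) X)) ≤ 1 ∧
      ∃ j, v.valuation L (φ i (algebraMap k[X] (A i) X) - algebraMap k L (a i j)) < 1 ∧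
        ∀ l, v.valuation L (φ i (y i j l)) < 1}.Finite := by
    intro i
    refine (Set.finite_iUnion fun j =>
      Pool.Agent.W223.AC.val_finite _ (sub_ne_zero.2 (hne i j))).subset ?_
    rintro v ⟨-, j, hv, -⟩
    exact Set.mem_iUnion.mpr ⟨j, hv⟩
  have h3 := overlap S _ hfin (Q ∪ T'.filter fun p => p ∉ S) (by
      intro p hp
      rcases Finset.mem_union.1 hp with h | h
      · exact hQ p h
      · exact hT'p p (Finset.mem_filter.1 h).1 (Finset.mem_filter.1 h).2) (by
      rintro i i' hii v hvS ⟨ha1, j, ha2, -⟩ ⟨hb1, j', hb2, -⟩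
      by_cases hT1 : ∀ p ∈ T', (p : 𝓞 L) ∉ v.asIdeal
      · obtain ⟨p, hp, hpv⟩ := hcoin i i' hii v ⟨hT1, ha1, j, ha2⟩ ⟨hT1, hb1, j', hb2⟩
        exact ⟨p, Finset.mem_union_left _ hp, hpv⟩
      · push Not at hT1
        obtain ⟨p, hp, hpv⟩ := hT1
        exact ⟨p, Finset.mem_union_right _ (Finset.mem_filter.2
          ⟨hp, fun h => hvS p h hpv⟩), hpv⟩)
  have h4 : ∑ p ∈ Q ∪ T'.filter (fun p => p ∉ S), Real.log p ≤
      ∑ p ∈ Q, Real.log p + ∑ p ∈ T', Real.log p := by
    have h5 := Finset.sum_union_inter (s₁ := Q) (s₂ := T'.filter (fun p => p ∉ S))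
      (f := fun p : ℕ => Real.log p)
    have h6 : 0 ≤ ∑ p ∈ Q ∩ T'.filter (fun p => p ∉ S), Real.log p :=
      Finset.sum_nonneg fun p _ => Real.log_natCast_nonneg p
    have h7 : ∑ p ∈ T'.filter (fun p => p ∉ S), Real.log p ≤ ∑ p ∈ T', Real.log p :=
      Finset.sum_le_sum_of_subset_of_nonneg (Finset.filter_subset _ _)
        fun p _ _ => Real.log_natCast_nonneg p
    linarith
  have hnL : (0 : ℝ) ≤ finrank ℚ L := Nat.cast_nonneg _
  have hm0 : (0 : ℝ) ≤ m := Nat.cast_nonneg _
  have h5 := mul_le_mul_of_nonneg_left (mul_le_mul_of_nonneg_left h4 hnL) hm0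
  have h6 := Finset.sum_le_sum fun i (_ : i ∈ (Finset.univ : Finset (Fin m))) => h1 i
  rw [Finset.sum_add_distrib, Finset.sum_add_distrib, Finset.sum_add_distrib,
    ← Finset.mul_sum, Finset.sum_add_distrib, Finset.sum_add_distrib, Finset.sum_const,
    Finset.sum_const, Finset.card_univ, Fintype.card_fin, nsmul_eq_mul, nsmul_eq_mul] at h6
  nlinarith

end Pool.Agent.N753.DR
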