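import Pool.Agent.N753.DR.AllPC
import Pool.Agent.N753.DR.Stm7
import Pool.Agent.N951.PX.Val

/-!
# Project PC: the main inequality
-/

set_option autoImplicit false

namespace Pool.Agent.N753.DR

open NumberField IsDedekindDomain Module Polynomial Height
open Pool.Agent.Y729.RV (Nr)
open IntermediateField (AdjoinSimple.gen)

/-- integral outside finitely many primes -/
theorem int_out {k : Type} [Field k] [NumberField k] (H : k[X]) : ∃ N : ℕ, N ≠ 0 ∧
    ∀ (L : Type) [Field L] [NumberField L] [Algebra k L] (v : HeightOneSpectrum (𝓞 L)) (t : L),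
      (N : 𝓞 L) ∉ v.asIdeal → v.valuation L t ≤ 1 → v.valuation L (aeval t H) ≤ 1 := by
  induction H using Polynomial.induction_on with
  | C a =>
    obtain ⟨x, y, hy, rfl⟩ := IsFractionRing.div_surjective (A := 𝓞 k) a
    have hy0 : y ≠ 0 := nonZeroDivisors.ne_zero hy
    obtain ⟨N, hN, s, hs⟩ := Pool.Agent.N415.DRVK.exists_mult hy0
    refine ⟨N, hN, ?_⟩
    intro L _ _ _ v t hv _
    rw [aeval_C, map_div₀, map_div₀]
    have h1 : v.valuation L (algebraMap k L (algebraMap (𝓞 k) k x)) ≤ 1 := by
      rw [← IsScalarTower.algebraMap_apply (𝓞 k) k L,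
        IsScalarTower.algebraMap_apply (𝓞 k) (𝓞 L) L]
      exact v.valuation_le_one _
    have h2 : v.valuation L (algebraMap k L (algebraMap (𝓞 k) k y)) = 1 := by
      rw [← IsScalarTower.algebraMap_apply (𝓞 k) k L,
        IsScalarTower.algebraMap_apply (𝓞 k) (𝓞 L) L]
      refine le_antisymm (v.valuation_le_one _) (not_lt.1 fun hlt => ?_)
      rw [HeightOneSpectrum.valuation_lt_one_iff_mem] at hlt
      apply hv
      have h3 : (N : 𝓞 L) = algebraMap (𝓞 k) (𝓞 L) y * algebraMap (𝓞 k) (𝓞 L) s := by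
        rw [← map_mul, ← hs, map_natCast]
      rw [h3]
      exact Ideal.mul_mem_right _ _ hlt
    rw [h2, div_one]
    exact h1
  | add p q hp hq =>
    obtain ⟨N, hN, h1⟩ := hp
    obtain ⟨N', hN', h2⟩ := hq
    refine ⟨N * N', mul_ne_zero hN hN', ?_⟩
    intro L _ _ _ v t hv ht
    rw [map_add]
    refine (Valuation.map_add _ _ _).trans (max_le (h1 L v t ?_ ht) (h2 L v t ?_ ht))
    · intro h
      apply hv
      push_cast
      exact Ideal.mul_mem_right _ _ h
    · intro h
      apply hv
      push_cast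
      exact Ideal.mul_mem_left _ _ h
  | monomial n a h =>
    obtain ⟨N, hN, h1⟩ := h
    refine ⟨N, hN, ?_⟩
    intro L _ _ _ v t hv ht
    rw [pow_succ, ← mul_assoc, map_mul, aeval_X, map_mul]
    exact mul_le_one' (h1 L v t hv ht) ht

/-- the polynomial over `K` with the zeros `a_j` -/
noncomputable def prodMin (K : Type) {k : Type} [Field K] [Field k] [Algebra K k] {q : ℕ}
    (a : Fin q → k) : K[X] :=
  ∏ j, minpoly K (a j)

theorem prodMin_ne {K k : Type} [Field K] [NumberField K] [Field k] [NumberField k] [Algebra K k]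
    {q : ℕ} (a : Fin q → k) : prodMin K a ≠ 0 := by
  have hfd : FiniteDimensional K k := FiniteDimensional.right ℚ K k
  exact Finset.prod_ne_zero_iff.2 fun j _ => minpoly.ne_zero (IsIntegral.of_finite K (a j))

/-- points near `a_j` are near a zero of the polynomial -/
theorem near_prod {K k : Type} [Field K] [NumberField K] [Field k] [NumberField k] [Algebra K k]
    {q : ℕ} (a : Fin q → k) : ∃ N : ℕ, N ≠ 0 ∧
    ∀ (L : Type) [Field L] [NumberField L] [Algebra K L] [Algebra k L] [IsScalarTower K k L]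
      (v : HeightOneSpectrum (𝓞 L)) (t : L),
      (N : 𝓞 L) ∉ v.asIdeal → v.valuation L t ≤ 1 →
      (∃ j, v.valuation L (t - algebraMap k L (a j)) < 1) →
      v.valuation L (aeval t (prodMin K a)) < 1 := by
  have h1 : ∀ j, ∃ H : k[X], (prodMin K a).map (algebraMap K k) = (X - C (a j)) * H := by
    intro j
    have h2 : (X - C (a j)) ∣ (prodMin K a).map (algebraMap K k) := by
      rw [dvd_iff_isRoot, IsRoot.def, eval_map_algebraMap]
      unfold prodMin
      rw [map_prod]
      exact Finset.prod_eq_zero (Finset.mem_univ j) (minpoly.aeval K (a j))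
    exact h2
  choose H hH using h1
  have h3 := fun j => int_out (H j)
  choose N hN h3 using h3
  refine ⟨∏ j, N j, Finset.prod_ne_zero_iff.2 fun j _ => hN j, ?_⟩
  rintro L _ _ _ _ _ v t hv ht ⟨j, hj⟩
  have h4 : (N j : 𝓞 L) ∉ v.asIdeal := by
    intro h
    apply hv
    rw [← Finset.mul_prod_erase _ _ (Finset.mem_univ j)]
    push_cast
    exact Ideal.mul_mem_right _ _ h
  have h5 : aeval t (prodMin K a) = (t - algebraMap k L (a j)) * aeval t (H j) := by
    rw [← aeval_map_algebraMap k t (prodMin K a), hH j, map_mul, map_sub, aeval_X, aeval_C]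
  rw [h5, map_mul]
  exact lt_of_le_of_lt (mul_le_mul' le_rfl (h3 j L v t h4 ht)) (by rwa [mul_one])

end Pool.Agent.N753.DR
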