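import Pool.Agent.N753.DR.PCd

/-!
# Project PC: the main inequality
-/

set_option autoImplicit false

namespace Pool.Agent.N753.DR

open NumberField IsDedekindDomain Module Polynomial Height
open Pool.Agent.Y729.RV (Nr)
open IntermediateField (AdjoinSimple.gen)

/-- the inequality on the line outside `E` -/
def GoodLine {K : Type} [Field K] [NumberField K] {m : ℕ} (r : Fin m → ℕ)
    (E : Set (Fin m → K[X])) : Prop :=
  ∀ (i : Fin m) (k : Type) [Field k] [NumberField k] [Algebra K k] (q : ℕ) (a : Fin q → k),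
    Function.Injective a → (∀ j, (minpoly K (a j)).natDegree ≤ 2 * r i + 1) → ∀ (S : Finset ℕ)
    (κ : ℝ), 0 < κ → ∃ C : ℝ, 0 ≤ C ∧ ∀ (L : Type) [Field L] [NumberField L] [Algebra K L]
      [Algebra k L] [IsScalarTower K k L] (x : Fin m → L),
      (∀ i, (minpoly K (x i)).natDegree = r i) → (fun i => minpoly K (x i)) ∉ E →
      (∀ j, x i ≠ algebraMap k L (a j)) → LineH S a (x i) κ C

/-- coincidences outside `E` -/
def GoodCoin {K : Type} [Field K] [NumberField K] {m : ℕ} (r : Fin m → ℕ)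
    (E : Set (Fin m → K[X])) : Prop :=
  ∀ i j : Fin m, i ≠ j → ∀ F F' : K[X], F ≠ 0 → F' ≠ 0 → ∃ S : Finset ℕ, (∀ p ∈ S, p ≠ 0) ∧
      ∀ κ : ℝ, 0 < κ → ∃ U : ℝ, 0 ≤ U ∧ ∀ P : Fin m → K[X], P ∉ E → ∀ T : ℝ, 0 ≤ T → HT r T P →
        HT r U P ∨ ∀ Q : Finset ℕ, (∀ p ∈ Q, p.Prime ∧ NearP S F (P i) p ∧ NearP S F' (P j) p) →
          ∑ p ∈ Q, Real.log p ≤ κ * T

theorem sum_biUnion_le' {ι : Type} [Fintype ι] (Q : ι → Finset ℕ) (f : ℕ → ℝ)
    (hf : ∀ p, 0 ≤ f p) : ∑ p ∈ Finset.univ.biUnion Q, f p ≤ ∑ e, ∑ p ∈ Q e, f p := by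
  classical
  calc ∑ p ∈ Finset.univ.biUnion Q, f p ≤
      ∑ p ∈ Finset.univ.biUnion Q, ∑ e, (if p ∈ Q e then f p else 0) := by
        refine Finset.sum_le_sum fun p hp => ?_
        obtain ⟨e, -, he⟩ := Finset.mem_biUnion.1 hp
        have h1 := Finset.single_le_sum (f := fun e => if p ∈ Q e then f p else 0)
          (fun e _ => by split_ifs; exacts [hf p, le_rfl]) (Finset.mem_univ e)
        simpa [he] using h1
    _ = ∑ e, ∑ p ∈ Finset.univ.biUnion Q, (if p ∈ Q e then f p else 0) := Finset.sum_comm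
    _ = ∑ e, ∑ p ∈ Q e, f p := by
        refine Finset.sum_congr rfl fun e _ => ?_
        rw [← Finset.sum_filter]
        congr 1
        ext p
        rw [Finset.mem_filter, Finset.mem_biUnion]
        exact ⟨fun h => h.2, fun h => ⟨⟨e, Finset.mem_univ _, h⟩, h⟩⟩

theorem ht_of {K L : Type} [Field K] [NumberField K] [Field L] [NumberField L] [Algebra K L]
    {m : ℕ} {r : Fin m → ℕ} (x : Fin m → L) (hr : ∀ i, (minpoly K (x i)).natDegree = r i) :
    HT r ((∑ i, logHeight₁ (x i)) / finrank K L) (fun i => minpoly K (x i)) := by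
  intro i
  refine atH_mono ?_ (at_of (K := K) (x i) (hr i))
  refine mul_le_mul_of_nonneg_left ?_ (Nat.cast_nonneg _)
  refine div_le_div_of_nonneg_right ?_ (Nat.cast_nonneg _)
  exact Finset.single_le_sum (f := fun i => logHeight₁ (x i))
    (fun i _ => zero_le_logHeight₁ _) (Finset.mem_univ i)

theorem pmain {K : Type} [Field K] [NumberField K] {m : ℕ} {r : Fin m → ℕ}
    {E : Set (Fin m → K[X])} (hE1 : GoodLine r E) (hE2 : GoodCoin r E)
    (k : Type) [Field k] [NumberField k] [Algebra K k]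
    (q : Fin m → ℕ) (a : ∀ i, Fin (q i) → k) (hq : ∀ i, 1 ≤ q i)
    (ha : ∀ i, Function.Injective (a i))
    (hdeg : ∀ i j, (minpoly K (a i j)).natDegree ≤ 2 * r i + 1)
    (A : Fin m → Type) [∀ i, CommRing (A i)] [∀ i, IsDedekindDomain (A i)] [∀ i, Algebra k (A i)]
    [∀ i, Algebra k[X] (A i)] [∀ i, IsScalarTower k k[X] (A i)]
    [∀ i, Module.Finite k[X] (A i)] [∀ i, FaithfulSMul k[X] (A i)]
    (u : ∀ i, Fin (q i) → ℕ)
    (y : ∀ i j, Fin (u i j) → A i) (F : ∀ i, Fin (q i) → Ideal (A i)) (hF : ∀ i j, F i j ≠ ⊥)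
    (hyF : ∀ i j l, ∀ e ∈ F i j,
      y i j l * e ∈ (Ideal.span {algebraMap k[X] (A i) X - algebraMap k (A i) (a i j)}).radical)
    (S : Finset ℕ) (hS : ∀ p ∈ S, p ≠ 0) (ε : ℝ) (hε : 0 < ε) :
    ∃ C : ℝ, 0 ≤ C ∧ ∀ (L : Type) [Field L] [NumberField L] [Algebra K L] [Algebra k L]
      [IsScalarTower K k L] (φ : ∀ i, A i →ₐ[k] L),
      (∀ i, (minpoly K (φ i (algebraMap k[X] (A i) X))).natDegree = r i) →
      (fun i => minpoly K (φ i (algebraMap k[X] (A i) X))) ∉ E →
      (∀ i j, φ i (algebraMap k[X] (A i) X) ≠ algebraMap k L (a i j)) →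
        ∑ i, (q i - (∑ j, (finrank k (A i ⧸ F i j) : ℝ)) / finrank k[X] (A i) - ε) *
            logHeight₁ (φ i (algebraMap k[X] (A i) X)) ≤
          Pool.Agent.W223.CV.cc S (fun v : HeightOneSpectrum (𝓞 L) => ∃ i,
            v.valuation L (φ i (algebraMap k[X] (A i) X)) ≤ 1 ∧
            ∃ j, v.valuation L (φ i (algebraMap k[X] (A i) X) - algebraMap k L (a i j)) < 1 ∧
              ∀ l, v.valuation L (φ i (y i j l)) < 1) +
          Real.log |(discr L : ℝ)| + finrank ℚ L * C := by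
  classical
  obtain ⟨T, C1, hST, hT, hC1, hstep⟩ := pstep pcComb k m A q hq a u y F hF hyF S (ε / 4)
    (by positivity)
  -- the polynomials over `K`
  have hnp := fun i => near_prod (K := K) (a i)
  choose N hN hnp using hnp
  have hco : ∀ e : {e : Fin m × Fin m // e.1 ≠ e.2}, _ := fun e =>
    hE2 e.1.1 e.1.2 e.2 (prodMin K (a e.1.1)) (prodMin K (a e.1.2)) (prodMin_ne _) (prodMin_ne _)
  choose Sc hSc hco using hco
  set κ : ℝ := ε / (4 * ((m : ℝ) ^ 3 + 1) * finrank ℚ K) with hκ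
  have hnK : (0 : ℝ) < finrank ℚ K := by exact_mod_cast finrank_pos (R := ℚ) (M := K)
  have hκ0 : 0 < κ := by rw [hκ]; positivity
  have hco' := fun e => hco e κ hκ0
  choose U hU hco' using hco'
  -- the primes
  set T' : Finset ℕ := T ∪ (Finset.univ.biUnion fun e => (Sc e).biUnion Nat.primeFactors) ∪
    Finset.univ.biUnion fun i => (N i).primeFactors with hT'
  have hTT' : T ⊆ T' := by
    intro p hp
    rw [hT']
    exact Finset.mem_union_left _ (Finset.mem_union_left _ hp)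
  have hT'p : ∀ p ∈ T', p ∉ S → p.Prime := by
    intro p hp hpS
    rw [hT', Finset.mem_union, Finset.mem_union] at hp
    rcases hp with (hp | hp) | hp
    · exact hT p hp hpS
    · obtain ⟨e, -, he⟩ := Finset.mem_biUnion.1 hp
      obtain ⟨s, -, hs⟩ := Finset.mem_biUnion.1 he
      exact Nat.prime_of_mem_primeFactors hs
    · obtain ⟨i, -, hi⟩ := Finset.mem_biUnion.1 hp
      exact Nat.prime_of_mem_primeFactors hi
  have hT'0 : ∀ p ∈ T', p ≠ 0 := by
    intro p hp
    by_cases hpS : p ∈ S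
    · exact hS p hpS
    · exact (hT'p p hp hpS).ne_zero
  -- primes which are not above `T'` are not above `n`
  have hout : ∀ (L : Type) [Field L] [NumberField L] (v : HeightOneSpectrum (𝓞 L)) (n : ℕ),
      n ≠ 0 → n.primeFactors ⊆ T' → (∀ p ∈ T', (p : 𝓞 L) ∉ v.asIdeal) → (n : 𝓞 L) ∉ v.asIdeal := by
    intro L _ _ v n hn hnT hv hmem
    obtain ⟨p, hp, hpv⟩ := Pool.Agent.N951.PX.exists_prime_mem v
    have hpn : p ∣ n := by
      by_contra hcon
      have h1 : IsCoprime (p : ℤ) (n : ℤ) :=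
        Nat.isCoprime_iff_coprime.2 ((Nat.Prime.coprime_iff_not_dvd hp).2 hcon)
      obtain ⟨s, t, hst⟩ := h1
      apply v.isPrime.ne_top
      rw [Ideal.eq_top_iff_one]
      have h2 := congrArg (Int.cast (R := 𝓞 L)) hst
      push_cast at h2
      rw [← h2]
      exact v.asIdeal.add_mem (Ideal.mul_mem_left _ _ hpv) (Ideal.mul_mem_left _ _ hmem)
    exact hv p (hnT (Nat.mem_primeFactors.2 ⟨hp, hpn, hn⟩)) hpv
  -- the line
  have hli := fun i => hE1 i k (q i) (a i) (ha i) (hdeg i) T' (ε / 4) (by positivity)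
  choose C2 hC2 hli using hli
  set c : ℝ := ∑ i, C2 i with hc
  have hc0 : 0 ≤ c := Finset.sum_nonneg fun i _ => hC2 i
  have hc1 : ∀ i, C2 i ≤ c := fun i =>
    Finset.single_le_sum (f := C2) (fun i _ => hC2 i) (Finset.mem_univ i)
  have hlogT : 0 ≤ ∑ p ∈ T', Real.log p := Finset.sum_nonneg fun p _ => Real.log_natCast_nonneg p
  refine ⟨C1 + m * ∑ p ∈ T', Real.log p + m * c + (∑ i, (q i : ℝ)) * ∑ e, U e, ?_, ?_⟩
  · have h1 : 0 ≤ ∑ e, U e := Finset.sum_nonneg fun e _ => hU e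
    positivity
  intro L _ _ _ _ _ φ hr hEx hne
  set t : Fin m → L := fun i => φ i (algebraMap k[X] (A i) X) with ht
  set P : Fin m → K[X] := fun i => minpoly K (t i) with hP
  have hht := ht_of (K := K) t hr
  set T0 : ℝ := (∑ i, logHeight₁ (t i)) / finrank K L with hT0
  have hH0 : 0 ≤ ∑ i, logHeight₁ (t i) := Finset.sum_nonneg fun i _ => zero_le_logHeight₁ _
  have hnL : (0 : ℝ) < finrank ℚ L := by exact_mod_cast finrank_pos (R := ℚ) (M := L)
  have hfd : FiniteDimensional K L := FiniteDimensional.right ℚ K L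
  have hnKL : (0 : ℝ) < finrank K L := by exact_mod_cast finrank_pos (R := K) (M := L)
  have hmul : (finrank ℚ K : ℝ) * finrank K L = finrank ℚ L := by
    exact_mod_cast finrank_mul_finrank ℚ K L
  have hT00 : 0 ≤ T0 := by positivity
  have hcc0 : 0 ≤ Pool.Agent.W223.CV.cc S (fun v : HeightOneSpectrum (𝓞 L) => ∃ i,
            v.valuation L (t i) ≤ 1 ∧
            ∃ j, v.valuation L (t i - algebraMap k L (a i j)) < 1 ∧
              ∀ l, v.valuation L (φ i (y i j l)) < 1) := by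
    unfold Pool.Agent.W223.CV.cc
    exact finsum_nonneg fun v => Pool.Agent.W223.CV.ct_nonneg _ _ v
  have hDD : ∀ i, 0 ≤ (∑ j, (finrank k (A i ⧸ F i j) : ℝ)) / finrank k[X] (A i) :=
    fun i => by positivity
  by_cases hbd : ∃ e, HT r (U e) P
  · -- bounded height
    obtain ⟨e, he⟩ := hbd
    have h1 : ∀ i, logHeight₁ (t i) ≤ finrank ℚ L * ∑ e, U e := by
      intro i
      have h2 := le_of_at (K := K) (t i) (he i)
      have h3 : U e ≤ ∑ e, U e := Finset.single_le_sum (f := U) (fun e _ => hU e) (Finset.mem_univ e)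
      have h4 : (finrank K L : ℝ) ≤ finrank ℚ L := by
        rw [← hmul]
        have : (1 : ℝ) ≤ finrank ℚ K := by exact_mod_cast (finrank_pos : 0 < finrank ℚ K)
        nlinarith
      exact h2.trans ((mul_le_mul_of_nonneg_left h3 hnKL.le).trans
        (mul_le_mul_of_nonneg_right h4 ((hU e).trans h3)))
    have h5 : ∑ i, (q i - (∑ j, (finrank k (A i ⧸ F i j) : ℝ)) / finrank k[X] (A i) - ε) *
            logHeight₁ (t i) ≤ ∑ i, (q i : ℝ) * (finrank ℚ L * ∑ e, U e) := by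
      refine Finset.sum_le_sum fun i _ => ?_
      have h6 := zero_le_logHeight₁ (t i)
      have h7 := hDD i
      calc _ ≤ (q i : ℝ) * logHeight₁ (t i) := mul_le_mul_of_nonneg_right (by linarith) h6
        _ ≤ _ := mul_le_mul_of_nonneg_left (h1 i) (Nat.cast_nonneg _)
    rw [← Finset.sum_mul] at h5
    have h6 := ldiscr_nonneg L
    have h7 : 0 ≤ (finrank ℚ L : ℝ) * (C1 + m * ∑ p ∈ T', Real.log p + m * c) := by positivity
    refine h5.trans ?_
    have h8 : (finrank ℚ L : ℝ) * (C1 + m * ∑ p ∈ T', Real.log p + m * c +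
        (∑ i, (q i : ℝ)) * ∑ e, U e) =
        finrank ℚ L * (C1 + m * ∑ p ∈ T', Real.log p + m * c) +
        (∑ i, (q i : ℝ)) * (finrank ℚ L * ∑ e, U e) := by ring
    rw [h8]
    linarith
  · push Not at hbd
    have hQe : ∀ e, ∀ Q : Finset ℕ, (∀ p ∈ Q, p.Prime ∧ NearP (Sc e) (prodMin K (a e.1.1))
        (P e.1.1) p ∧ NearP (Sc e) (prodMin K (a e.1.2)) (P e.1.2) p) →
          ∑ p ∈ Q, Real.log p ≤ κ * T0 := by
      intro e
      rcases hco' e P hEx T0 hT00 hht with h | h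
      · exact absurd h (hbd e)
      · exact h
    -- the primes below the coincidences
    have hnrf : ∀ i, {v : HeightOneSpectrum (𝓞 L) | Nr T' (a i) (t i) v}.Finite := fun i =>
      Pool.Agent.Y729.RV.nr_fin T' (hne i)
    choose pr hpr hprv using fun v : HeightOneSpectrum (𝓞 L) =>
      Pool.Agent.N951.PX.exists_prime_mem v
    set Qe : {e : Fin m × Fin m // e.1 ≠ e.2} → Finset ℕ := fun e =>
      ((hnrf e.1.1).toFinset ∩ (hnrf e.1.2).toFinset).image pr with hQe'
    set Q : Finset ℕ := Finset.univ.biUnion Qe with hQ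
    have hQp : ∀ p ∈ Q, p.Prime := by
      intro p hp
      obtain ⟨e, -, he⟩ := Finset.mem_biUnion.1 hp
      obtain ⟨v, -, rfl⟩ := Finset.mem_image.1 he
      exact hpr v
    have hsub : ∀ e, ∀ s ∈ Sc e, s.primeFactors ⊆ T' := by
      intro e s hs p hp
      rw [hT']
      exact Finset.mem_union_left _ (Finset.mem_union_right _ (Finset.mem_biUnion.2
        ⟨e, Finset.mem_univ _, Finset.mem_biUnion.2 ⟨s, hs, hp⟩⟩))
    have hNT : ∀ i, (N i).primeFactors ⊆ T' := by
      intro i p hp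
      rw [hT']
      exact Finset.mem_union_right _ (Finset.mem_biUnion.2 ⟨i, Finset.mem_univ _, hp⟩)
    have hnear : ∀ e i v, Nr T' (a i) (t i) v → NearP (Sc e) (prodMin K (a i)) (P i) (pr v) := by
      intro e i v hv
      refine ⟨L, inferInstance, inferInstance, inferInstance, t i, v, rfl, ⟨?_, hv.2.1, ?_⟩, hprv v⟩
      · intro p hp hp0
        exact hout L v p hp0 (hsub e p hp) hv.1
      · exact hnp i L v (t i) (hout L v (N i) (hN i) (hNT i) hv.1) hv.2.1 hv.2.2
    have hQs : ∀ e, ∑ p ∈ Qe e, Real.log p ≤ κ * T0 := by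
      intro e
      refine hQe e _ fun p hp => ?_
      obtain ⟨v, hv, rfl⟩ := Finset.mem_image.1 hp
      rw [Finset.mem_inter, Set.Finite.mem_toFinset, Set.Finite.mem_toFinset] at hv
      exact ⟨hpr v, hnear e _ v hv.1, hnear e _ v hv.2⟩
    have hQlog : ∑ p ∈ Q, Real.log p ≤ (m : ℝ) ^ 2 * (κ * T0) := by
      have h1 : ∑ p ∈ Q, Real.log p ≤ ∑ e, ∑ p ∈ Qe e, Real.log p := by
        rw [hQ]
        exact sum_biUnion_le' Qe (fun p : ℕ => Real.log p) fun p => Real.log_natCast_nonneg p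
      have h2 : ∑ e, ∑ p ∈ Qe e, Real.log p ≤
          ∑ _e : {e : Fin m × Fin m // e.1 ≠ e.2}, κ * T0 := Finset.sum_le_sum fun e _ => hQs e
      rw [Finset.sum_const, Finset.card_univ, nsmul_eq_mul] at h2
      have h3 : (Fintype.card {e : Fin m × Fin m // e.1 ≠ e.2} : ℝ) ≤ (m : ℝ) ^ 2 := by
        have h4 := Fintype.card_subtype_le fun e : Fin m × Fin m => e.1 ≠ e.2
        rw [Fintype.card_prod, Fintype.card_fin] at h4
        have h5 : ((Fintype.card {e : Fin m × Fin m // e.1 ≠ e.2} : ℕ) : ℝ) ≤ ((m * m : ℕ) : ℝ) := by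
          exact_mod_cast h4
        rw [pow_two]
        exact_mod_cast h5
      exact h1.trans (h2.trans (mul_le_mul_of_nonneg_right h3 (by positivity)))
    have h1 := hstep T' hTT' hT'p hT'0 L φ c hc0 hne Q hQp (by
      intro i i' hii v hv hv'
      refine ⟨pr v, ?_, hprv v⟩
      rw [hQ, Finset.mem_biUnion]
      refine ⟨⟨(i, i'), hii⟩, Finset.mem_univ _, ?_⟩
      rw [hQe']
      beta_reduce
      refine Finset.mem_image.2 ⟨v, ?_, rfl⟩
      rw [Finset.mem_inter, Set.Finite.mem_toFinset, Set.Finite.mem_toFinset]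
      exact ⟨hv, hv'⟩) (by
      intro i W hW
      exact (hli i L t hr hEx (hne i) W hW).trans (add_le_add le_rfl (hc1 i)))
    have h2 : (finrank ℚ L : ℝ) * (2 * m * ∑ p ∈ Q, Real.log p) ≤
        ε / 2 * ∑ i, logHeight₁ (t i) := by
      have h3 := mul_le_mul_of_nonneg_left hQlog (show (0 : ℝ) ≤ finrank ℚ L * (2 * m) by positivity)
      have h4 : (finrank ℚ L : ℝ) * (2 * m) * ((m : ℝ) ^ 2 * (κ * T0)) =
          ε / 2 * (∑ i, logHeight₁ (t i)) * ((m : ℝ) ^ 3 / ((m : ℝ) ^ 3 + 1)) := by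
        rw [hκ, hT0, ← hmul]
        field_simp
        ring
      have h5 : (m : ℝ) ^ 3 / ((m : ℝ) ^ 3 + 1) ≤ 1 := by
        rw [div_le_one (by positivity)]
        linarith
      have h6 := mul_le_mul_of_nonneg_left h5 (show 0 ≤ ε / 2 * (∑ i, logHeight₁ (t i)) by
        positivity)
      nlinarith
    have h3 : ∑ i, (q i - (∑ j, (finrank k (A i ⧸ F i j) : ℝ)) / finrank k[X] (A i) - ε) *
            logHeight₁ (t i) = ∑ i, (q i - (∑ j, (finrank k (A i ⧸ F i j) : ℝ)) /
            finrank k[X] (A i) - 2 * (ε / 4)) * logHeight₁ (t i) -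
            ε / 2 * ∑ i, logHeight₁ (t i) := by
      rw [Finset.mul_sum, ← Finset.sum_sub_distrib]
      refine Finset.sum_congr rfl fun i _ => ?_
      ring
    have h4 : 0 ≤ (finrank ℚ L : ℝ) * ((∑ i, (q i : ℝ)) * ∑ e, U e) := by
      have h1 : 0 ≤ ∑ e, U e := Finset.sum_nonneg fun e _ => hU e
      positivity
    have h5 : (finrank ℚ L : ℝ) * (C1 + m * ∑ p ∈ T', Real.log p + m * c +
        2 * m * ∑ p ∈ Q, Real.log p) = finrank ℚ L * (C1 + m * ∑ p ∈ T', Real.log p + m * c) +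
        finrank ℚ L * (2 * m * ∑ p ∈ Q, Real.log p) := by ring
    have h6 : (finrank ℚ L : ℝ) * (C1 + m * ∑ p ∈ T', Real.log p + m * c +
        (∑ i, (q i : ℝ)) * ∑ e, U e) =
        finrank ℚ L * (C1 + m * ∑ p ∈ T', Real.log p + m * c) +
        finrank ℚ L * ((∑ i, (q i : ℝ)) * ∑ e, U e) := by ring
    rw [h5] at h1
    rw [h3, h6]
    linarith

end Pool.Agent.N753.DR
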