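import Pool.Agent.N753.DR.PCe

/-!
# Project PC: the exceptional set
-/

set_option autoImplicit false

namespace Pool.Agent.N753.DR

open NumberField IsDedekindDomain Module Polynomial Height

section

variable {K : Type} [Field K] [NumberField K] {m : ℕ}

/-- few tuples on hypersurfaces: one exceptional set -/
theorem univZero (hzero : StmZero) (hm : 0 < m) (r : Fin m → ℕ) (hr : ∀ i, 1 ≤ r i) :
    ∃ E : Set (Fin m → K[X]),
    (∀ T : ℝ, 0 ≤ T → {P | P ∈ E ∧ HT r T P}.Finite ∧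
      ({P | P ∈ E ∧ HT r T P}.ncard : ℝ) ≤ Real.exp (dimT r * T - √T)) ∧
    ∀ G : MvPolynomial (Fin m) K, G ≠ 0 → ∃ U : ℝ, 0 ≤ U ∧ ∀ P : Fin m → K[X], P ∉ E →
      (∃ (L : Type) (_ : Field L) (_ : NumberField L) (_ : Algebra K L)
        (x : Fin m → L), (∀ i, minpoly K (x i) = P i) ∧ MvPolynomial.aeval x G = 0) →
      HT r U P := by
  classical
  have := countable_mv K m
  obtain ⟨E, hE1, hE2⟩ := Pool.Agent.N572.DR.Diag.t (Fin m → K[X])
    {G : MvPolynomial (Fin m) K // G ≠ 0}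
    (fun T P => HT r T P) (fun U U' P h1 h2 => ht_mono r h1 h2)
    (fun G P => ∃ (L : Type) (_ : Field L) (_ : NumberField L) (_ : Algebra K L)
        (x : Fin m → L), (∀ i, minpoly K (x i) = P i) ∧ MvPolynomial.aeval x G.1 = 0)
    (dimT r) (dimT_pos hm r hr) (fun G => hzero K m r hr G.1 G.2)
  exact ⟨E, hE1, fun G hG => hE2 ⟨G, hG⟩⟩

theorem proxM_eq {L : Type} [Field L] [NumberField L] [Algebra K L] (S : Finset ℕ)
    (q : Fin m → ℕ) (G : MvPolynomial (Fin m) K) (x : Fin m → L) : proxM S q G x =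
      prZ (fun v : HeightOneSpectrum (𝓞 L) => ∃ p ∈ S, (p : 𝓞 L) ∈ v.asIdeal) q x
        (MvPolynomial.aeval x G) := by
  unfold proxM prZ
  congr 1
  refine finsum_congr fun v => ?_
  by_cases h : ∃ p ∈ S, (p : 𝓞 L) ∈ v.asIdeal
  · rw [if_pos h, if_pos h]
  · rw [if_neg h, if_neg h]

theorem good_prox (r : Fin m → ℕ) (E : Set (Fin m → K[X]))
    (h1 : ∀ (q : Fin m → ℕ) (G : MvPolynomial (Fin m) K), G ≠ 0 → (∀ i, G.degreeOf i ≤ q i) →
      ∀ S : Finset ℕ, (∀ p ∈ S, p.Prime) → ∀ κ : ℝ, 0 < κ → ∃ U : ℝ, 0 ≤ U ∧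
        ∀ P : Fin m → K[X], P ∉ E → ∀ T : ℝ, 0 ≤ T → HT r T P →
        HT r U P ∨ ∀ (L : Type) [Field L] [NumberField L] [Algebra K L] (x : Fin m → L),
          (∀ i, minpoly K (x i) = P i) → MvPolynomial.aeval x G ≠ 0 →
          proxM S q G x ≤ κ * T * finrank ℚ L)
    (h2 : ∀ G : MvPolynomial (Fin m) K, G ≠ 0 → ∃ U : ℝ, 0 ≤ U ∧ ∀ P : Fin m → K[X], P ∉ E →
      (∃ (L : Type) (_ : Field L) (_ : NumberField L) (_ : Algebra K L)
        (x : Fin m → L), (∀ i, minpoly K (x i) = P i) ∧ MvPolynomial.aeval x G = 0) →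
      HT r U P) : GoodProx r E := by
  intro q G hG hq S hS κ hκ
  have hnK : (0 : ℝ) < finrank ℚ K := by exact_mod_cast finrank_pos (R := ℚ) (M := K)
  obtain ⟨U1, hU1, h1⟩ := h1 q G hG hq S hS (κ / finrank ℚ K) (by positivity)
  obtain ⟨U2, hU2, h2⟩ := h2 G hG
  obtain ⟨C1, hC1, hht⟩ := pcHtMv K m G
  refine ⟨(∑ i, (q i : ℝ)) * U1 + C1 * (m * U1 + 1) + m * U2, by positivity, ?_⟩
  intro L _ _ _ x hr hE
  have hnL : (0 : ℝ) < finrank ℚ L := by exact_mod_cast finrank_pos (R := ℚ) (M := L)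
  have hfd : FiniteDimensional K L := FiniteDimensional.right ℚ K L
  have hnKL : (0 : ℝ) < finrank K L := by exact_mod_cast finrank_pos (R := K) (M := L)
  have hmul : (finrank ℚ K : ℝ) * finrank K L = finrank ℚ L := by
    exact_mod_cast finrank_mul_finrank ℚ K L
  have hle : (finrank K L : ℝ) ≤ finrank ℚ L := by
    rw [← hmul]
    have : (1 : ℝ) ≤ finrank ℚ K := by exact_mod_cast (finrank_pos : 0 < finrank ℚ K)
    nlinarith
  have hbd : ∀ U : ℝ, 0 ≤ U → HT r U (fun i => minpoly K (x i)) →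
      ∀ i, logHeight₁ (x i) ≤ finrank ℚ L * U := fun U hU h i =>
    (le_of_at (K := K) (x i) (h i)).trans (mul_le_mul_of_nonneg_right hle hU)
  have hH0 : 0 ≤ ∑ i, logHeight₁ (x i) := Finset.sum_nonneg fun i _ => zero_le_logHeight₁ _
  refine ⟨fun hx => ?_, fun hx => ?_⟩
  · rcases h1 _ hE _ (div_nonneg hH0 hnKL.le) (ht_of (K := K) x hr) with h | h
    · have h3 := hbd U1 hU1 h
      have h4 : proxM S q G x ≤ ∑ i, (q i : ℝ) * logHeight₁ (x i) +
          logHeight₁ (MvPolynomial.aeval x G) := by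
        rw [proxM_eq]
        exact pcTriv L m (fun v => ∃ p ∈ S, (p : 𝓞 L) ∈ v.asIdeal) q x (MvPolynomial.aeval x G) hx
      have h5 := hht L x
      have h6 : ∑ i, (q i : ℝ) * logHeight₁ (x i) ≤ (∑ i, (q i : ℝ)) * (finrank ℚ L * U1) := by
        rw [Finset.sum_mul]
        exact Finset.sum_le_sum fun i _ => mul_le_mul_of_nonneg_left (h3 i) (Nat.cast_nonneg _)
      have h7 : ∑ i, logHeight₁ (x i) ≤ m * (finrank ℚ L * U1) := by
        have h8 := Finset.sum_le_sum fun i (_ : i ∈ (Finset.univ : Finset (Fin m))) => h3 i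
        rwa [Finset.sum_const, Finset.card_univ, Fintype.card_fin, nsmul_eq_mul] at h8
      have h8 := mul_le_mul_of_nonneg_left (add_le_add_left h7 (finrank ℚ L : ℝ)) hC1
      have h9 : 0 ≤ κ * ∑ i, logHeight₁ (x i) := by positivity
      have h10 : 0 ≤ (finrank ℚ L : ℝ) * (m * U2) := by positivity
      nlinarith
    · have h3 := h L x (fun i => rfl) hx
      have h4 : κ / finrank ℚ K * ((∑ i, logHeight₁ (x i)) / finrank K L) * finrank ℚ L =
          κ * ∑ i, logHeight₁ (x i) := by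
        rw [← hmul]
        field_simp
      rw [h4] at h3
      have h5 : 0 ≤ (finrank ℚ L : ℝ) * ((∑ i, (q i : ℝ)) * U1 + C1 * (m * U1 + 1) + m * U2) := by
        positivity
      linarith
  · have h3 := h2 _ hE ⟨L, inferInstance, inferInstance, inferInstance, x, fun i => rfl, hx⟩
    have h4 := hbd U2 hU2 h3
    have h5 := Finset.sum_le_sum fun i (_ : i ∈ (Finset.univ : Finset (Fin m))) => h4 i
    rw [Finset.sum_const, Finset.card_univ, Fintype.card_fin, nsmul_eq_mul] at h5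
    have h6 : 0 ≤ (finrank ℚ L : ℝ) * ((∑ i, (q i : ℝ)) * U1 + C1 * (m * U1 + 1)) := by
      positivity
    nlinarith

/-- **one exceptional set** -/
theorem univ (K : Type) [Field K] [NumberField K] {m : ℕ} (hm : 0 < m) (r : Fin m → ℕ)
    (hr : ∀ i, 1 ≤ r i) :
    ∃ (E : Set (Fin m → K[X])) (c₀ : ℝ), 0 < c₀ ∧
    (∀ T : ℝ, 0 ≤ T → {P | P ∈ E ∧ HT r T P}.Finite ∧
      ({P | P ∈ E ∧ HT r T P}.ncard : ℝ) ≤ c₀ * Real.exp (dimT r * T - √T)) ∧
    GoodLine r E ∧ GoodCoin r E ∧ GoodProx r E := by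
  classical
  obtain ⟨Ec, hc1, hc2⟩ := univCoin (K := K) pcCnt pcCoin hm r hr
  obtain ⟨Ep, hp1, hp2⟩ := univProx (K := K) pcCnt pcProx hm r hr
  obtain ⟨Ez, hz1, hz2⟩ := univZero (K := K) pcZero hm r hr
  have hl := fun i => vk K (r i) (hr i)
  choose El hl1 hl2 using hl
  have hl3 := fun i => univLine (K := K) pcCnt r hr i (El i) (hl1 i)
  choose Cl hCl hl3 using hl3
  set E : Set (Fin m → K[X]) := ((Ec ∪ Ep) ∪ Ez) ∪ {P | ∃ i, P i ∈ El i} with hE
  refine ⟨E, 3 + ∑ i, Cl i, by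
    have : 0 ≤ ∑ i, Cl i := Finset.sum_nonneg fun i _ => (hCl i).le
    linarith, ?_, ?_, ?_, ?_⟩
  · intro T hT
    obtain ⟨fc, nc⟩ := hc1 T hT
    obtain ⟨fp, np⟩ := hp1 T hT
    obtain ⟨fz, nz⟩ := hz1 T hT
    have fl := fun i => (hl3 i T hT).1
    have nl := fun i => (hl3 i T hT).2
    have hsub : {P | P ∈ E ∧ HT r T P} ⊆ (({P | P ∈ Ec ∧ HT r T P} ∪ {P | P ∈ Ep ∧ HT r T P}) ∪
        {P | P ∈ Ez ∧ HT r T P}) ∪ ⋃ i ∈ (Finset.univ : Finset (Fin m)),
          {P : Fin m → K[X] | P i ∈ El i ∧ HT r T P} := by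
      rintro P ⟨h, h'⟩
      rcases h with ((h | h) | h) | ⟨i, h⟩
      · exact Or.inl (Or.inl (Or.inl ⟨h, h'⟩))
      · exact Or.inl (Or.inl (Or.inr ⟨h, h'⟩))
      · exact Or.inl (Or.inr ⟨h, h'⟩)
      · refine Or.inr ?_
        simp only [Set.mem_iUnion]
        exact ⟨i, Finset.mem_univ _, h, h'⟩
    have fu : (⋃ i ∈ (Finset.univ : Finset (Fin m)),
        {P : Fin m → K[X] | P i ∈ El i ∧ HT r T P}).Finite :=
      Set.Finite.biUnion (Finset.finite_toSet _) fun i _ => fl i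
    have nu : ((⋃ i ∈ (Finset.univ : Finset (Fin m)),
        {P : Fin m → K[X] | P i ∈ El i ∧ HT r T P}).ncard : ℝ) ≤
        (∑ i, Cl i) * Real.exp (dimT r * T - √T) := by
      have h1 := Finset.set_ncard_biUnion_le (Finset.univ : Finset (Fin m))
        fun i => {P : Fin m → K[X] | P i ∈ El i ∧ HT r T P}
      have h2 : ((⋃ i ∈ (Finset.univ : Finset (Fin m)),
        {P : Fin m → K[X] | P i ∈ El i ∧ HT r T P}).ncard : ℝ) ≤
        ((∑ i, {P : Fin m → K[X] | P i ∈ El i ∧ HT r T P}.ncard : ℕ) : ℝ) := by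
        exact_mod_cast h1
      push_cast at h2
      rw [Finset.sum_mul]
      exact h2.trans (Finset.sum_le_sum fun i _ => nl i)
    have ff := ((fc.union fp).union fz).union fu
    refine ⟨ff.subset hsub, ?_⟩
    have h1 : ({P | P ∈ E ∧ HT r T P}.ncard : ℝ) ≤ (({P | P ∈ Ec ∧ HT r T P}.ncard : ℝ) +
        {P | P ∈ Ep ∧ HT r T P}.ncard + {P | P ∈ Ez ∧ HT r T P}.ncard) +
        (⋃ i ∈ (Finset.univ : Finset (Fin m)),
          {P : Fin m → K[X] | P i ∈ El i ∧ HT r T P}).ncard := by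
      have a1 := Set.ncard_le_ncard hsub ff
      have a2 := Set.ncard_union_le ((({P | P ∈ Ec ∧ HT r T P} ∪ {P | P ∈ Ep ∧ HT r T P}) ∪
        {P | P ∈ Ez ∧ HT r T P})) (⋃ i ∈ (Finset.univ : Finset (Fin m)),
          {P : Fin m → K[X] | P i ∈ El i ∧ HT r T P})
      have a3 := Set.ncard_union_le ({P | P ∈ Ec ∧ HT r T P} ∪ {P | P ∈ Ep ∧ HT r T P})
        {P | P ∈ Ez ∧ HT r T P}
      have a4 := Set.ncard_union_le {P | P ∈ Ec ∧ HT r T P} {P | P ∈ Ep ∧ HT r T P}
      have a5 : {P | P ∈ E ∧ HT r T P}.ncard ≤ ({P | P ∈ Ec ∧ HT r T P}.ncard +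
        {P | P ∈ Ep ∧ HT r T P}.ncard + {P | P ∈ Ez ∧ HT r T P}.ncard) +
        (⋃ i ∈ (Finset.univ : Finset (Fin m)),
          {P : Fin m → K[X] | P i ∈ El i ∧ HT r T P}).ncard := by omega
      exact_mod_cast a5
    nlinarith
  · intro i k _ _ _ q a ha hdeg S κ hκ
    obtain ⟨C, hC⟩ := hl2 i k q a ha hdeg S κ hκ
    refine ⟨max C 0, le_max_right _ _, ?_⟩
    intro L _ _ _ _ _ x hrx hxE hne W hW
    have hinj := (algebraMap (IntermediateField.adjoin k {x i}) L).injective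
    have hgen : algebraMap (IntermediateField.adjoin k {x i}) L
      (IntermediateField.AdjoinSimple.gen k (x i)) = x i := rfl
    have htow : IsScalarTower K (IntermediateField.adjoin k {x i}) L :=
      IsScalarTower.of_algebraMap_eq fun z => by
        rw [IsScalarTower.algebraMap_apply K k (IntermediateField.adjoin k {x i}),
          ← IsScalarTower.algebraMap_apply k (IntermediateField.adjoin k {x i}) L,
          ← IsScalarTower.algebraMap_apply K k L]
    have hmp : minpoly K (IntermediateField.AdjoinSimple.gen K (x i)) = minpoly K (x i) := by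
      rw [IntermediateField.minpoly_gen]
    have hmp' : minpoly K (IntermediateField.AdjoinSimple.gen k (x i)) = minpoly K (x i) := by
      rw [← minpoly.algebraMap_eq hinj, hgen]
    have h1 := hC (IntermediateField.adjoin k {x i}) (IntermediateField.AdjoinSimple.gen k (x i))
      (gen_top (x i)) (by rw [hmp']; exact hrx i) (by
        rw [hmp']
        intro h
        exact hxE (Or.inr ⟨i, h⟩)) (by
        intro j h
        apply hne j
        have h2 := congrArg (algebraMap (IntermediateField.adjoin k {x i}) L) h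
        rw [← IsScalarTower.algebraMap_apply] at h2
        exact h2) W (fun w h3 h4 h5 => hW w h3 h4 h5)
    exact h1.trans (add_le_add le_rfl (le_max_left C 0))
  · intro i j hij F F' hF hF'
    obtain ⟨S, hS, h1⟩ := hc2 i j hij F F' hF hF'
    refine ⟨S, hS, fun κ hκ => ?_⟩
    obtain ⟨U, hU, h2⟩ := h1 κ hκ
    exact ⟨U, hU, fun P hP => h2 P fun h => hP (Or.inl (Or.inl (Or.inl h)))⟩
  · refine good_prox r E ?_ ?_
    · intro q G hG hq S hS κ hκ
      obtain ⟨U, hU, h2⟩ := hp2 q G hG hq S hS κ hκ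
      exact ⟨U, hU, fun P hP => h2 P fun h => hP (Or.inl (Or.inl (Or.inr h)))⟩
    · intro G hG
      obtain ⟨U, hU, h2⟩ := hz2 G hG
      exact ⟨U, hU, fun P hP => h2 P fun h => hP (Or.inl (Or.inr h))⟩

end

end Pool.Agent.N753.DR
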